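import Pool.Agent.P.MP_67c9d4_al.PG.Iface

/-! Finite index of the mapping torus of a power (proof by helper52). -/

set_option autoImplicit false

namespace Pool.Agent.P.MP_67c9d4_al.PG

open Classical

namespace FINh

open SemidirectProduct Multiplicative

variable {N : Type} [Group N]

/-- The mapping torus of a power inside the mapping torus. -/
def pw (φ : MulAut N) (k : ℕ) : MT (φ ^ k) →* MT φ where
  toFun x := ⟨x.left, x.right ^ k⟩
  map_one' := by ext <;> simp
  map_mul' x y := by
    refine SemidirectProduct.ext ?_ (mul_pow x.right y.right k)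
    show x.left * ((φ ^ k) ^ toAdd x.right) y.left =
      x.left * (φ ^ toAdd (x.right ^ k)) y.left
    rw [toAdd_pow, nsmul_eq_mul, zpow_mul, zpow_natCast]

lemma pw_inj (φ : MulAut N) {k : ℕ} (hk : 0 < k) : Function.Injective (pw φ k) := by
  intro x y h
  have h1 : x.left = y.left := congrArg (fun z : MT φ => z.left) h
  have h2 : x.right ^ k = y.right ^ k := congrArg (fun z : MT φ => z.right) h
  have h3 := congrArg toAdd h2
  simp only [toAdd_pow, nsmul_eq_mul] at h3
  have h4 : toAdd x.right = toAdd y.right := mul_left_cancel₀ (by exact_mod_cast hk.ne') h3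
  exact SemidirectProduct.ext h1 (toAdd.injective h4)

lemma pw_range (φ : MulAut N) (k : ℕ) :
    (pw φ k).range = (Subgroup.zpowers (ofAdd (k : ℤ))).comap rightHom := by
  ext x
  constructor
  · rintro ⟨y, rfl⟩
    refine ⟨toAdd y.right, ?_⟩
    show ofAdd (k : ℤ) ^ toAdd y.right = y.right ^ k
    apply toAdd.injective
    simp [mul_comm]
  · rintro ⟨m, hm⟩
    refine ⟨⟨x.left, ofAdd m⟩, SemidirectProduct.ext rfl ?_⟩
    show ofAdd m ^ k = x.right
    have hm' : ofAdd (k : ℤ) ^ m = x.right := hm
    rw [← hm']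
    apply toAdd.injective
    simp [mul_comm]

end FINh

theorem fin_pow :
    S_FIN := by
  rintro N _ φ k hk ⟨H, _, χ, ε, hH, -⟩
  refine ⟨H, inferInstance, χ, (FINh.pw φ k).range, hH, ⟨?_⟩,
    ⟨(MonoidHom.ofInjective (FINh.pw_inj φ hk)).symm.trans ε⟩⟩
  rw [FINh.pw_range, Subgroup.index_comap_of_surjective _ SemidirectProduct.rightHom_surjective]
  have : (Subgroup.zpowers (Multiplicative.ofAdd (k : ℤ))).index = (k : ℤ).natAbs :=
    Int.index_zmultiples (k : ℤ)
  rw [this]
  simpa using hk.ne'

end Pool.Agent.P.MP_67c9d4_al.PG
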