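import Pool.Agent.P.MP_67c9d4_al.PG.Iface

/-! Step AMAL. -/

set_option autoImplicit false

namespace Pool.Agent.P.MP_67c9d4_al.PG

open Classical

namespace AMALx

open SemidirectProduct Multiplicative

variable {N G : Type} [Group N] [Group G]

lemma inter (φ : MulAut N) (f : N →* G) (τ : G) (h : ∀ x, f (φ x) = τ * f x * τ⁻¹) (n : ℤ) :
    ∀ x, f ((φ ^ n) x) = τ ^ n * f x * (τ ^ n)⁻¹ := by
  induction n using Int.induction_on with
  | zero => simp
  | succ n ih =>
    intro x
    rw [zpow_add_one, MulAut.mul_apply, ih, h, zpow_add_one]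
    group
  | pred n ih =>
    intro x
    have h1 := h (φ⁻¹ x)
    rw [← MulAut.mul_apply, mul_inv_cancel, MulAut.one_apply] at h1
    rw [zpow_sub_one, MulAut.mul_apply, ih, zpow_sub_one, h1]
    group

/-- The universal property of the mapping torus. -/
def mtLift (φ : MulAut N) (f : N →* G) (τ : G) (h : ∀ x, f (φ x) = τ * f x * τ⁻¹) :
    MT φ →* G :=
  SemidirectProduct.lift f (zpowersHom G τ) fun g => by
    ext x
    exact inter φ f τ h (toAdd g) x

lemma mtLift_inl (φ : MulAut N) (f : N →* G) (τ : G) (h : ∀ x, f (φ x) = τ * f x * τ⁻¹) (x : N) :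
    mtLift φ f τ h (inl x) = f x := by
  simp [mtLift]

lemma mtLift_inr (φ : MulAut N) (f : N →* G) (τ : G) (h : ∀ x, f (φ x) = τ * f x * τ⁻¹) :
    mtLift φ f τ h (inr (ofAdd 1)) = τ := by
  simp [mtLift]

lemma mt_rel (φ : MulAut N) (x : N) :
    (inl (φ x) : MT φ) = inr (ofAdd 1) * inl x * (inr (ofAdd 1))⁻¹ := by
  rw [← map_inv, ← inl_aut]
  simp

lemma mt_ext (φ : MulAut N) {f g : MT φ →* G} (h1 : ∀ x, f (inl x) = g (inl x))
    (h2 : f (inr (ofAdd 1)) = g (inr (ofAdd 1))) : f = g :=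
  SemidirectProduct.hom_ext (MonoidHom.ext h1) (MonoidHom.ext_mint h2)

end AMALx

open AMALx SemidirectProduct Multiplicative Monoid

theorem p_AMAL :
    S_AMAL := by
  intro A ψ ψ₀ h1 h2
  choose H inst χ ε hH hχ using h2
  let t0 : ∀ b, MT (ψ₀ b) := fun b => inr (ofAdd 1)
  let t1 : MT ψ := inr (ofAdd 1)
  let φ : ∀ b, Multiplicative ℤ →* H b := fun b => zpowersHom (H b) (ε b (t0 b))
  have φ1 : ∀ b, φ b (ofAdd 1) = ε b (t0 b) := fun b => by simp [φ]
  let j : ∀ b, MT (ψ₀ b) →* MT ψ := fun b =>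
    mtLift (ψ₀ b) (inl.comp (FreeGroup.map (Sigma.mk b))) t1 fun x => by
      simp only [MonoidHom.comp_apply, ← h1]
      exact mt_rel ψ _
  have j1 : ∀ b x, j b (inl x) = inl (FreeGroup.map (Sigma.mk b) x) :=
    fun b x => mtLift_inl _ _ _ _ x
  have j2 : ∀ b, j b (t0 b) = t1 := fun b => mtLift_inr _ _ _ _
  let g : ∀ b, H b →* MT ψ := fun b => (j b).comp (ε b).symm.toMonoidHom
  have g1 : ∀ b x, g b (ε b x) = j b x := fun b x => by simp [g]
  let P := PushoutI φ
  let B : P →* MT ψ := PushoutI.lift g (zpowersHom _ t1) fun b => by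
    refine MonoidHom.ext_mint ?_
    rw [MonoidHom.comp_apply, φ1, g1, j2]
    simp
  have B0 : ∀ b x, B (PushoutI.of b x) = g b x := fun b x => PushoutI.lift_of _ _ _ _
  let τ : P := PushoutI.base φ (ofAdd 1)
  have hτ : ∀ b, PushoutI.of b (ε b (t0 b)) = τ := fun b => by
    rw [← φ1, PushoutI.of_apply_eq_base]
  have B2 : B τ = t1 := by rw [← hτ true, B0, g1, j2]
  let f : FreeGroup (Σ b, A b) →* P := FreeGroup.lift fun o =>
    PushoutI.of o.1 (ε o.1 (inl (FreeGroup.of o.2)))
  have f1 : ∀ b x, f (FreeGroup.map (Sigma.mk b) x) = PushoutI.of b (ε b (inl x)) := by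
    intro b x
    have : f.comp (FreeGroup.map (Sigma.mk b)) =
        (PushoutI.of b).comp ((ε b).toMonoidHom.comp inl) := by
      ext y
      simp [f]
    exact DFunLike.congr_fun this x
  have mo : ∀ b (y : A b), FreeGroup.of (Sigma.mk b y) =
      FreeGroup.map (Sigma.mk b) (FreeGroup.of y) :=
    fun b y => FreeGroup.map.of.symm
  have hf : ∀ x, f (ψ x) = τ * f x * τ⁻¹ := by
    intro x
    have : f.comp ψ.toMonoidHom = (MulAut.conj τ).toMonoidHom.comp f := by
      ext ⟨b, y⟩
      simp only [MonoidHom.comp_apply, MulEquiv.coe_toMonoidHom, MulAut.conj_apply]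
      rw [mo, h1, f1, f1, mt_rel, map_mul, map_mul, map_inv, map_mul, map_mul, map_inv, hτ]
    exact DFunLike.congr_fun this x
  let F : MT ψ →* P := mtLift ψ f _ hf
  have F1 : ∀ x, F (inl x) = f x := fun x => mtLift_inl _ _ _ _ x
  have F2 : F t1 = τ := mtLift_inr _ _ _ _
  have BF : B.comp F = MonoidHom.id _ := by
    refine mt_ext ψ (fun x => ?_) ?_
    · have : (B.comp F).comp inl = inl := by
        ext1 o
        obtain ⟨b, y⟩ := o
        simp only [MonoidHom.comp_apply]
        rw [mo, F1, f1, B0, g1, j1]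
      exact DFunLike.congr_fun this x
    · change B (F t1) = t1
      rw [F2, B2]
  have FB : F.comp B = MonoidHom.id _ := by
    refine PushoutI.hom_ext_nonempty fun b => ?_
    have : F.comp (j b) = (PushoutI.of b).comp (ε b).toMonoidHom := by
      refine mt_ext (ψ₀ b) (fun x => ?_) ?_
      · change F (j b (inl x)) = PushoutI.of b (ε b (inl x))
        rw [j1, F1, f1]
      · change F (j b (t0 b)) = PushoutI.of b (ε b (t0 b))
        rw [j2, F2, hτ]
    refine MonoidHom.ext fun x => ?_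
    obtain ⟨y, rfl⟩ := (ε b).surjective x
    change F (B (PushoutI.of b (ε b y))) = _
    rw [B0, g1]
    exact DFunLike.congr_fun this y
  have rj : ∀ b, rightHom.comp (j b) = rightHom := by
    intro b
    refine mt_ext (ψ₀ b) (fun x => ?_) ?_
    · change rightHom (j b (inl x)) = _
      rw [j1]
      simp
    · change rightHom (j b (t0 b)) = _
      rw [j2]
      simp [t1]
  have hc : ∀ b, (rightHom.comp B).comp (PushoutI.of b) = χ b := by
    intro b
    refine MonoidHom.ext fun x => ?_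
    obtain ⟨y, rfl⟩ := (ε b).surjective x
    change rightHom (B (PushoutI.of b (ε b y))) = _
    rw [B0, g1, hχ]
    exact DFunLike.congr_fun (rj b) y
  refine ⟨P, inferInstance, rightHom.comp B, MonoidHom.toMulEquiv F B BF FB,
    Hier.amal φ _ ?_ (fun b => hc b ▸ hH b), fun x => ?_⟩
  · change rightHom (B τ) ≠ 1
    rw [B2]
    simp only [t1, rightHom_inr]
    decide
  · exact congrArg rightHom (DFunLike.congr_fun BF x)

end Pool.Agent.P.MP_67c9d4_al.PG
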