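import Pool.Agent.P.MP_67c9d4_al.PG.PA

/-! Basic facts on marked graphs. -/

set_option autoImplicit false

namespace Pool.Agent.P.MP_67c9d4_al.PG

open Classical
open FreeGroup hiding map_mul map_inv map_one

namespace Gr

variable {N : Type} [Group N] {φ : MulAut N} {n : ℕ} {G : Gr}

lemma IsMd.pa (h : G.IsMd φ n) {u v : G.V} {w : FreeGroup G.E} (hw : Pa G.src u v w) :
    Pa G.src (G.fv u) (G.fv v) (G.Φ w) := hw.map G.Φ G.fv h.path

lemma IsMd.mark_at (h : G.IsMd φ n) (u : G.V) : G.Mark φ u := by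
  obtain ⟨v, ι, π, h1, h2, h3, h4, h5⟩ := h.mark
  obtain ⟨a, ha⟩ := h3 u
  refine ⟨(MulAut.conj a⁻¹).toMonoidHom.comp ι, (G.Φ a)⁻¹ * π * a,
    (MulAut.conj a⁻¹).injective.comp h1, fun g => ⟨?_, fun hg => ?_⟩, fun t => ?_,
    ((h.pa ha).inv.mul h4).mul ha, fun g => ?_⟩
  · rintro ⟨x, rfl⟩
    simpa using (ha.inv.mul ((h2 _).1 ⟨x, rfl⟩)).mul ha
  · obtain ⟨x, hx⟩ := (h2 _).2 ((ha.mul hg).mul ha.inv)
    exact ⟨x, by simp [hx, mul_assoc]⟩
  · obtain ⟨b, hb⟩ := h3 t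
    exact ⟨_, ha.inv.mul hb⟩
  · simp [h5, mul_assoc]

lemma IsMd.conn (h : G.IsMd φ n) (u v : G.V) : ∃ a, Pa G.src u v a := by
  obtain ⟨ι, π, -, -, h3, -⟩ := h.mark_at u
  exact h3 v

lemma IsMd.inj (h : G.IsMd φ n) {u : G.V} {c : FreeGroup G.E} (hc : Pa G.src u u c)
    (h0 : G.Φ c = 1) : c = 1 := by
  obtain ⟨ι, π, h1, h2, -, -, h5⟩ := h.mark_at u
  obtain ⟨g, rfl⟩ := (h2 c).2 hc
  rw [h5, conj_eq_one_iff, map_eq_one_iff _ h1, map_eq_one_iff _ φ.injective] at h0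
  rw [h0, map_one]

lemma IsMd.inj' (h : G.IsMd φ n) {u v : G.V} {a b : FreeGroup G.E} (ha : Pa G.src u v a)
    (hb : Pa G.src u v b) (h0 : G.Φ a = G.Φ b) : a = b :=
  mul_inv_eq_one.1 (h.inj (ha.mul hb.inv) (by rw [map_mul, map_inv, h0, mul_inv_cancel]))

lemma IsMd.surj (h : G.IsMd φ n) {u : G.V} {c : FreeGroup G.E}
    (hc : Pa G.src (G.fv u) (G.fv u) c) : ∃ b, Pa G.src u u b ∧ G.Φ b = c := by
  obtain ⟨ι, π, -, h2, -, h4, h5⟩ := h.mark_at u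
  obtain ⟨g, hg⟩ := (h2 _).2 ((h4.inv.mul hc).mul h4)
  exact ⟨ι (φ.symm g), (h2 _).1 ⟨_, rfl⟩, by simp [h5, hg, mul_assoc]⟩

lemma IsMd.ln_zero (h : G.IsMd φ n) {c : FreeGroup G.E} (hc : ln G.H c = 0) :
    ln G.H (G.Φ c) = 0 := ln_map_zero G.Φ h.inv hc

/-- If all edges at `v` are loops then `v` is the only vertex. -/
lemma IsMd.only (h : G.IsMd φ n) {v : G.V} (hv : ∀ x, G.src x = v → G.src (bar x) = v)
    (u : G.V) : u = v := by
  obtain ⟨a, ha⟩ := h.conn v u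
  exact ha.closed {v} hv rfl

/-- Transfer of the marking along a homotopy equivalence `p` with inverse `s`. -/
lemma Mark.transfer {G' : Gr} {v : G.V} (h : G.Mark φ v)
    (p : FreeGroup G.E →* FreeGroup G'.E) (pv : G.V → G'.V)
    (hp : ∀ x, Pa G'.src (pv (G.src x)) (pv (G.src (bar x))) (p (lt x)))
    (hinj : ∀ c, Pa G.src v v c → p c = 1 → c = 1)
    (s : FreeGroup G'.E →* FreeGroup G.E) (sv : G'.V → G.V)
    (hs : ∀ x, Pa G.src (sv (G'.src x)) (sv (G'.src (bar x))) (s (lt x)))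
    (η : G'.V → FreeGroup G'.E) (hη : ∀ u, Pa G'.src (pv (sv u)) u (η u))
    (hps : ∀ x, p (s (lt x)) = η (G'.src x) * lt x * (η (G'.src (bar x)))⁻¹)
    (hv : sv (pv v) = v) (hv' : η (pv v) = 1)
    (κ : G.V → FreeGroup G'.E) (hκ : Pa G'.src (G'.fv (pv v)) (pv (G.fv v)) (κ v))
    (hΦ : ∀ x, G'.Φ (p (lt x)) = κ (G.src x) * p (G.Φ (lt x)) * (κ (G.src (bar x)))⁻¹) :
    G'.Mark φ (pv v) := by
  obtain ⟨ι, π, h1, h2, h3, h4, h5⟩ := h
  refine ⟨p.comp ι, κ v * p π, (injective_iff_map_eq_one _).2 fun g hg => ?_,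
    fun g => ⟨?_, fun hg => ?_⟩, fun t => ?_, hκ.mul (h4.map p pv hp), fun g => ?_⟩
  · exact (map_eq_one_iff _ h1).1 (hinj _ ((h2 _).1 ⟨g, rfl⟩) hg)
  · rintro ⟨x, rfl⟩
    exact ((h2 _).1 ⟨x, rfl⟩).map p pv hp
  · obtain ⟨x, hx⟩ := (h2 _).2 ((hg.map s sv hs).cast hv hv)
    refine ⟨x, ?_⟩
    have := hg.conj (p.comp s) (MonoidHom.id _) η hps
    simpa [hx, hv'] using this
  · obtain ⟨a, ha⟩ := h3 (sv t)
    exact ⟨_, (ha.map p pv hp).mul (hη t)⟩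
  · have := ((h2 _).1 ⟨g, rfl⟩).conj (G'.Φ.comp p) (p.comp G.Φ) κ hΦ
    simpa [h5, mul_assoc] using this

/-- The iterated map. -/
noncomputable abbrev pow (G : Gr) (k : ℕ) : Gr :=
  { G with Φ := ((show Monoid.End (FreeGroup G.E) from G.Φ) ^ k : Monoid.End _), fv := G.fv^[k] }

lemma pow_Φ (G : Gr) (k : ℕ) (w : FreeGroup G.E) : (G.pow k).Φ w = G.Φ^[k] w :=
  congrFun (Monoid.End.coe_pow (M := FreeGroup G.E) G.Φ k) w

lemma iter_mul (G : Gr) (k : ℕ) (a b : FreeGroup G.E) :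
    G.Φ^[k] (a * b) = G.Φ^[k] a * G.Φ^[k] b := iterate_map_mul _ _ _ _

lemma iter_inv (G : Gr) (k : ℕ) (a : FreeGroup G.E) : G.Φ^[k] a⁻¹ = (G.Φ^[k] a)⁻¹ :=
  iterate_map_inv _ _ _

lemma IsMd.pa_iter (h : G.IsMd φ n) (k : ℕ) {u v : G.V} {w : FreeGroup G.E}
    (hw : Pa G.src u v w) : Pa G.src (G.fv^[k] u) (G.fv^[k] v) (G.Φ^[k] w) := by
  induction k with
  | zero => exact hw
  | succ k ih => simp only [Function.iterate_succ_apply']; exact h.pa ih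

lemma IsMd.ln_zero_iter (h : G.IsMd φ n) (k : ℕ) {c : FreeGroup G.E} (hc : ln G.H c = 0) :
    ln G.H (G.Φ^[k] c) = 0 := by
  induction k with
  | zero => exact hc
  | succ k ih => rw [Function.iterate_succ_apply']; exact h.ln_zero ih

/-- The iterates represent the powers. -/
lemma IsMd.mark_iter (h : G.IsMd φ n) {v : G.V} {ι : N →* FreeGroup G.E} {π : FreeGroup G.E}
    (h4 : Pa G.src (G.fv v) v π) (h5 : ∀ g, G.Φ (ι g) = π * ι (φ g) * π⁻¹) (k : ℕ) :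
    ∃ ρ, Pa G.src (G.fv^[k] v) v ρ ∧ ∀ g, G.Φ^[k] (ι g) = ρ * ι ((φ ^ k) g) * ρ⁻¹ := by
  induction k with
  | zero => exact ⟨1, .one v, by simp⟩
  | succ k ih =>
    obtain ⟨ρ, h1, h2⟩ := ih
    refine ⟨G.Φ ρ * π, ?_, fun g => ?_⟩
    · rw [Function.iterate_succ_apply']; exact (h.pa h1).mul h4
    · rw [Function.iterate_succ_apply', h2, pow_succ']
      simp [h5, mul_assoc]

lemma IsMd.pow (h : G.IsMd φ n) (k : ℕ) : (G.pow k).IsMd (φ ^ k) n where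
  path x := by rw [pow_Φ]; exact h.pa_iter k (pa_lt G.src x)
  inv e he := by
    rw [pow_Φ]
    exact h.ln_zero_iter k (by rw [ln_of]; exact if_neg he)
  euler := h.euler
  mark := by
    obtain ⟨v, ι, π, h1, h2, h3, h4, h5⟩ := h.mark
    obtain ⟨ρ, k1, k2⟩ := h.mark_iter h4 h5 k
    exact ⟨v, ι, ρ, h1, h2, h3, k1, fun g => (pow_Φ G k _).trans (k2 g)⟩

/-- The same map with another top stratum. -/
abbrev withH (G : Gr) (K : Finset G.E) : Gr := { G with H := K }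

lemma IsMd.withH (h : G.IsMd φ n) (K : Finset G.E)
    (hK : ∀ e, e ∉ K → ln K (G.Φ (of e)) = 0) : (G.withH K).IsMd φ n :=
  ⟨h.path, hK, h.euler, h.mark⟩

lemma irr_col (h : Irr G.H G.M) {e : G.E} (he : e ∈ G.H) : 0 < ln G.H (G.Φ (of e)) := by
  obtain ⟨i, -, hi, -, h0⟩ := Relation.TransGen.tail'_iff.1 (h e he e he)
  exact h0.trans_le (cnt_le_ln hi _)

variable {c : ℝ}

lemma Inv.pos (h : G.Inv φ n c) {e : G.E} (he : e ∈ G.H) : 0 < ln G.H (G.Φ (of e)) :=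
  irr_col h.irr he

lemma Inv.pos_germ (h : G.Inv φ n c) {a : FreeGroup G.E} {x : G.E × Bool} (ha : ln G.H a = 0)
    (hx : x.1 ∈ G.H) : 0 < ln G.H (G.Φ (a * lt x)) := by
  rw [map_mul, ln_mul_left (h.md.ln_zero ha), ln_map_lt]
  exact h.pos hx

lemma Inv.pos_one (h : G.Inv φ n c) {a : FreeGroup G.E} (ha : ln G.H a = 1) :
    0 < ln G.H (G.Φ a) := by
  obtain ⟨b, x, b', h1, h2, h3, rfl⟩ := ln_one_spec ha
  rw [map_mul, ln_mul_right (h.md.ln_zero h3)]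
  exact h.pos_germ h1 h2

lemma Inv.ln_D (h : G.Inv φ n c) {a : FreeGroup G.E} (ha : ln G.H a = 1) :
    ln G.H (G.D a) = 1 := ln_dir (h.pos_one ha)

lemma Inv.ln_D_iter (h : G.Inv φ n c) (k : ℕ) {a : FreeGroup G.E} (ha : ln G.H a = 1) :
    ln G.H (G.D^[k] a) = 1 := by
  induction k with
  | zero => exact ha
  | succ k ih => rw [Function.iterate_succ_apply']; exact h.ln_D ih

lemma IsMd.D_left (h : G.IsMd φ n) {a : FreeGroup G.E} (ha : ln G.H a = 0) (w : FreeGroup G.E) :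
    G.D (a * w) = G.Φ a * G.D w := by rw [D, map_mul, dir_left (h.ln_zero ha), D]

lemma IsMd.D_iter_left (h : G.IsMd φ n) (k : ℕ) {a : FreeGroup G.E} (ha : ln G.H a = 0)
    (w : FreeGroup G.E) : G.D^[k] (a * w) = G.Φ^[k] a * G.D^[k] w := by
  induction k with
  | zero => rfl
  | succ k ih =>
    simp only [Function.iterate_succ_apply']
    rw [ih, h.D_left (h.ln_zero_iter k ha)]

lemma IsMd.pa_D (h : G.IsMd φ n) {u v : G.V} {w : FreeGroup G.E} (hw : Pa G.src u v w) :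
    ∃ t, Pa G.src (G.fv u) t (G.D w) := (h.pa hw).dir

lemma IsMd.pa_D_iter (h : G.IsMd φ n) (k : ℕ) {u v : G.V} {w : FreeGroup G.E}
    (hw : Pa G.src u v w) : ∃ t, Pa G.src (G.fv^[k] u) t (G.D^[k] w) := by
  induction k with
  | zero => exact ⟨v, hw⟩
  | succ k ih =>
    obtain ⟨t, ht⟩ := ih
    simp only [Function.iterate_succ_apply']
    exact h.pa_D ht

lemma LT.symm {a b : FreeGroup G.E} (h : G.LT a b) : G.LT b a := fun k => (h k).symm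

lemma LT.ne {a b : FreeGroup G.E} (h : G.LT a b) : a ≠ b := h 0

lemma LT.map {a b : FreeGroup G.E} (h : G.LT a b) : G.LT (G.D a) (G.D b) := fun k => h (k + 1)

lemma IsMd.lt_left (h : G.IsMd φ n) {c a b : FreeGroup G.E} (hc : ln G.H c = 0) :
    G.LT (c * a) (c * b) ↔ G.LT a b := by
  simp only [LT, h.D_iter_left _ hc, ne_eq, mul_right_inj]

lemma Leg.pa {u v : G.V} {w : FreeGroup G.E} (h : G.Leg u v w) : Pa G.src u v w := by
  induction h with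
  | base h _ => exact h
  | mul _ _ _ h1 h2 => exact h1.mul h2

lemma ln_mul_of_ne {a b : FreeGroup G.E} (ha : 0 < ln G.H a) (hb : 0 < ln G.H b)
    (h : dir G.H a⁻¹ ≠ dir G.H b) : ln G.H (a * b) = ln G.H a + ln G.H b := by
  simpa using ln_inv_mul (u := a⁻¹) (by simpa using ha) hb h

lemma Leg.pos {u v : G.V} {w : FreeGroup G.E} (h : G.Leg u v w) : 0 < ln G.H w := by
  induction h with
  | base _ h => omega
  | mul _ _ h h1 h2 => rw [ln_mul_of_ne h1 h2 h.ne]; omega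

end Gr

end Pool.Agent.P.MP_67c9d4_al.PG
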