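import Pool.Agent.P.MP_67c9d4_al.PG.Iface
import Pool.Agent.P.MP_67c9d4_al.PG.MD

/-! Step CLEAN. -/

set_option autoImplicit false

namespace Pool.Agent.P.MP_67c9d4_al.PG

open Classical
open FreeGroup hiding map_mul map_inv map_one

namespace CLEANx

variable {N : Type} [Group N] {φ : MulAut N} {n : ℕ} {G : Gr} {c : ℝ}

lemma other {v : G.V} (h : G.Two v) (x : G.E × Bool) : ∃ y, y ≠ x ∧ G.src y = v := by
  obtain ⟨a, b, hab, ha, hb⟩ := h
  by_cases e : a = x
  · exact ⟨b, fun e' => hab (e.trans e'.symm), hb⟩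
  · exact ⟨a, e, ha⟩

lemma other' (two : ∀ v, G.Two v) {x : G.E × Bool} (hx : G.src (bar x) ≠ G.src x) :
    ∃ y : G.E × Bool, y.1 ≠ x.1 ∧ G.src y = G.src x := by
  obtain ⟨y, h1, h2⟩ := other (two (G.src x)) x
  refine ⟨y, fun e => ?_, h2⟩
  rcases eq_or_bar e with e | e
  · exact h1 e
  · exact hx (e ▸ h2)

lemma exy (two : ∀ v, G.Two v) {ε : G.E × Bool} (hx : G.src (bar ε) ≠ G.src ε) :
    ∃ y z : G.E × Bool, y ≠ z ∧ y.1 ≠ ε.1 ∧ z.1 ≠ ε.1 ∧
      (G.src y = G.src ε ∨ G.src y = G.src (bar ε)) ∧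
      (G.src z = G.src ε ∨ G.src z = G.src (bar ε)) := by
  obtain ⟨y, h1, h2⟩ := other' two hx
  obtain ⟨z, k1, k2⟩ := other' two (x := bar ε) (by rw [bar_bar]; exact hx.symm)
  refine ⟨y, z, fun e => hx ?_, h1, k1, .inl h2, .inr k2⟩
  rw [← k2, ← e, h2]

/-- A smaller model. -/
def Sm {N : Type} [Group N] (φ : MulAut N) (n : ℕ) (G : Gr) (c : ℝ) : Prop :=
  ∃ G' : Gr, G'.IsMd φ n ∧ G'.H.Nonempty ∧ (∀ v, G'.Two v) ∧ SubInv G'.H G'.M c ∧
    Fintype.card G'.V + G'.H.card < Fintype.card G.V + G.H.card ∧ G'.H.card ≤ G.H.card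

lemma case1 (hC : S_CMOVE) (md : G.IsMd φ n) (ne : G.H.Nonempty) (two : ∀ v, G.Two v)
    (sub : SubInv G.H G.M c) {x : G.E × Bool} (h1 : x.1 ∉ G.H)
    (h2 : G.src (bar x) ≠ G.src x) : Sm φ n G c := by
  have he : G.H.erase x.1 = G.H := Finset.erase_eq_of_notMem h1
  obtain ⟨G', k1, k2, k3, k4, k5⟩ := hC N φ n G x c md h2 (.inl h1) (fun v _ _ => two v)
    (exy two h2) (by
      rw [he]
      obtain ⟨w, hw, hs⟩ := sub
      refine ⟨w, hw, fun i hi => le_trans (le_of_eq ?_) (hs i hi)⟩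
      have : G.M i x.1 = 0 := ln_eq_zero.1 (md.inv _ h1) i hi
      simp [this])
  rw [he] at k3
  exact ⟨G', k1, Finset.card_pos.1 (k3 ▸ Finset.card_pos.2 ne), k2, k5, by omega, k3.le⟩

lemma restr (md : G.IsMd φ n) (two : ∀ v, G.Two v) (sub : SubInv G.H G.M c) (K : Finset G.E)
    (hK : K ⊆ G.H) (hne : K.Nonempty) (hlt : K.card < G.H.card)
    (hc : ∀ k ∈ K, ∀ e ∈ G.H, 0 < G.M k e → e ∈ K) : Sm φ n G c := by
  refine ⟨G.withH K, md.withH K fun e he => ln_eq_zero.2 fun k hk => ?_, hne, two, ?_,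
    Nat.add_lt_add_left hlt _, hlt.le⟩
  · by_cases h : e ∈ G.H
    · by_contra h0
      exact he (hc k hk e h (Nat.pos_of_ne_zero h0))
    · exact ln_eq_zero.1 (md.inv e h) k (hK hk)
  · obtain ⟨w, hw, hs⟩ := sub
    refine ⟨w, fun i hi => hw i (hK hi), fun i hi => le_trans ?_ (hs i (hK hi))⟩
    exact Finset.sum_le_sum_of_subset_of_nonneg hK fun j hj _ =>
      mul_nonneg (Nat.cast_nonneg _) (hw j hj).le

lemma nozero (md : G.IsMd φ n) (lo : G.Loops) (two : ∀ v, G.Two v) {i : G.E}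
    (hH : G.H = {i}) (h0 : G.M i i = 0) : False := by
  have a1 : ∀ e, ln G.H (G.Φ (of e)) = 0 := by
    intro e
    by_cases h : e ∈ G.H
    · have e1 : e = i := by rwa [hH, Finset.mem_singleton] at h
      refine ln_eq_zero.2 fun k hk => ?_
      have e2 : k = i := by rwa [hH, Finset.mem_singleton] at hk
      rw [e1, e2]
      exact h0
    · exact md.inv e h
  have a2 : ∀ w, ln G.H (G.Φ w) = 0 := fun w =>
    ln_map_zero (H := ∅) G.Φ (fun e _ => a1 e) (by simp [ln])
  have a3 : ∀ w, Pa G.src (G.fv (G.src (i, true))) (G.fv (G.src (i, true))) w →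
      ln G.H w = 0 := by
    intro w hw
    obtain ⟨b, -, rfl⟩ := md.surj hw
    exact a2 b
  have hi : i ∈ G.H := by rw [hH]; exact Finset.mem_singleton_self i
  obtain ⟨x, hx, hu⟩ : ∃ x : G.E × Bool, x.1 ∈ G.H ∧ G.src x = G.fv (G.src (i, true)) := by
    by_contra hcon
    push Not at hcon
    refine hcon (i, true) hi (md.only (fun y hy => ?_) _)
    rw [lo y fun h => hcon y h hy, hy]
  rw [← hu] at a3
  by_cases hl : G.src (bar x) = G.src x
  · have := a3 _ ((pa_lt G.src x).cast rfl hl)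
    rw [ln_lt, if_pos hx] at this
    omega
  · obtain ⟨l, h1, h2⟩ := other' two (x := bar x) (by rw [bar_bar]; exact Ne.symm hl)
    have h3 : l.1 ∉ G.H := by
      rw [hH, Finset.mem_singleton] at hx ⊢
      rw [← hx]
      exact h1
    have h4 : ln G.H (lt l) = 0 := by rw [ln_lt, if_neg h3]
    have hb : (bar x).1 ∈ G.H := hx
    have p1 : Pa G.src (G.src (bar x)) (G.src x) (lt (bar x)) :=
      (pa_lt G.src (bar x)).cast rfl (by rw [bar_bar])
    have p2 : Pa G.src (G.src (bar x)) (G.src (bar x)) (lt l) :=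
      (pa_lt G.src l).cast h2 ((lo l h3).trans h2)
    have h5 := a3 _ (p1.inv.mul (p2.mul p1))
    rw [ln_inv_mul (by rw [ln_lt, if_pos hb]; omega) (by rw [ln_germ h4 hb]; omega), ln_lt,
      if_pos hb] at h5
    · omega
    · rw [dir_lt hb, dir_of_germ h4 hb]
      intro e
      have e2 : lt l = 1 := by simpa using e
      have e3 := congrArg toWord e2
      simp [toWord_lt] at e3

lemma case2 (md : G.IsMd φ n) (lo : G.Loops) (two : ∀ v, G.Two v) (sub : SubInv G.H G.M c)
    (h : ¬Irr G.H G.M) : Sm φ n G c := by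
  unfold Irr at h
  push Not at h
  obtain ⟨i, hi, j, hj, hij⟩ := h
  by_cases hK : (G.H.filter fun e =>
      Relation.TransGen (fun a b => a ∈ G.H ∧ b ∈ G.H ∧ 0 < G.M a b) i e).Nonempty
  · refine restr md two sub _ (Finset.filter_subset _ _) hK
      (Finset.card_lt_card (Finset.filter_ssubset.2 ⟨j, hj, hij⟩)) fun k hk e he h0 => ?_
    rw [Finset.mem_filter] at hk ⊢
    exact ⟨he, hk.2.tail ⟨hk.1, he, h0⟩⟩
  · have hz : ∀ e ∈ G.H, ¬0 < G.M i e := fun e he h0 =>
      hK ⟨e, Finset.mem_filter.2 ⟨he, .single ⟨hi, he, h0⟩⟩⟩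
    have hs : ({i} : Finset G.E) ⊆ G.H := Finset.singleton_subset_iff.2 hi
    by_cases hH : G.H = {i}
    · exact (nozero md lo two hH (by have := hz i hi; omega)).elim
    · refine restr md two sub {i} hs (Finset.singleton_nonempty i)
        (Finset.card_lt_card (hs.ssubset_of_ne (Ne.symm hH))) fun k hk e he h0 => ?_
      rw [Finset.mem_singleton.1 hk] at h0
      exact (hz e he h0).elim

lemma nonloop {a : G.V} {x y : G.E × Bool} (hx : G.src x = a) (hxy : x.1 ≠ y.1)
    (hz : ∀ z, G.src z = a → z = x ∨ z = y) : G.src (bar x) ≠ G.src x := by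
  intro h
  rcases hz _ (h.trans hx) with e | e
  · exact bar_ne x e
  · exact hxy (congrArg Prod.fst e :)

lemma case3' (hC : S_CMOVE) (md : G.IsMd φ n) (lo : G.Loops) (two : ∀ v, G.Two v)
    {w : G.E → ℝ} (hw : ∀ i ∈ G.H, 0 < w i)
    (hs : ∀ i ∈ G.H, ∑ j ∈ G.H, (G.M i j : ℝ) * w j ≤ c * w i)
    {a : G.V} {x y : G.E × Bool} (hx : G.src x = a) (hy : G.src y = a) (hxy : x.1 ≠ y.1)
    (hz : ∀ z, G.src z = a → z = x ∨ z = y) (hle : w y.1 ≤ w x.1) : Sm φ n G c := by
  have nx := nonloop hx hxy hz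
  have ny := nonloop hy hxy.symm fun z h => (hz z h).symm
  have mx : x.1 ∈ G.H := by_contra fun h => nx (lo x h)
  have my : y.1 ∈ G.H := by_contra fun h => ny (lo y h)
  have my' : y.1 ∈ G.H.erase x.1 := Finset.mem_erase.2 ⟨hxy.symm, my⟩
  have hend : ∀ j, j ≠ x.1 → G.ends a j ≤ if j = y.1 then 1 else 0 := by
    intro j hj
    have h1 : ∀ b, G.src (j, b) = a → (j, b) = y := fun b h =>
      (hz _ h).resolve_left fun e => hj (congrArg Prod.fst e)
    unfold Gr.ends
    by_cases e1 : G.src (j, true) = a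
    · by_cases e2 : G.src (j, false) = a
      · have := (h1 _ e1).trans (h1 _ e2).symm
        simp at this
      · have : j = y.1 := congrArg Prod.fst (h1 _ e1)
        rw [if_pos e1, if_neg e2, if_pos this]
    · by_cases e2 : G.src (j, false) = a
      · have : j = y.1 := congrArg Prod.fst (h1 _ e2)
        rw [if_neg e1, if_pos e2, if_pos this]
      · rw [if_neg e1, if_neg e2]
        omega
  obtain ⟨G', k1, k2, k3, k4, k5⟩ := hC N φ n G x c md nx
    (.inr fun z h e => by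
      rcases hz z (e.trans hx) with e' | e'
      · exact h (e' ▸ mx)
      · exact h (e' ▸ my))
    (fun v _ _ => two v) (exy two nx) (by
      refine ⟨w, fun i hi => hw i (Finset.mem_of_mem_erase hi), fun i hi =>
        le_trans ?_ (hs i (Finset.mem_of_mem_erase hi))⟩
      rw [← Finset.sum_erase_add _ _ mx, hx]
      have b1 : ∀ j ∈ G.H.erase x.1, ((G.M i j + G.ends a j * G.M i x.1 : ℕ) : ℝ) * w j ≤
          G.M i j * w j + if j = y.1 then G.M i x.1 * w x.1 else 0 := by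
        intro j hj
        have b2 := hend j (Finset.ne_of_mem_erase hj)
        have b3 := hw j (Finset.mem_of_mem_erase hj)
        have b4 : (0 : ℝ) ≤ G.M i x.1 := Nat.cast_nonneg _
        push_cast
        split_ifs at b2 ⊢ with e
        · have b5 : (G.ends a j : ℝ) ≤ 1 := by exact_mod_cast b2
          rw [← e] at hle
          have b6 : (G.ends a j : ℝ) * w j ≤ w x.1 := by nlinarith
          nlinarith [mul_le_mul_of_nonneg_left b6 b4]
        · rw [Nat.le_zero.1 b2]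
          simp
      refine (Finset.sum_le_sum b1).trans (le_of_eq ?_)
      rw [Finset.sum_add_distrib, Finset.sum_ite_eq', if_pos my'])
  have c1 := Finset.card_erase_le (s := G.H) (a := x.1)
  exact ⟨G', k1, Finset.card_pos.1 (k3 ▸ Finset.card_pos.2 ⟨_, my'⟩), k2, k5, by omega, by omega⟩

lemma case3 (hC : S_CMOVE) (md : G.IsMd φ n) (lo : G.Loops) (two : ∀ v, G.Two v)
    (sub : SubInv G.H G.M c)
    {a : G.V} {x y : G.E × Bool} (hx : G.src x = a) (hy : G.src y = a) (hxy : x.1 ≠ y.1)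
    (hz : ∀ z, G.src z = a → z = x ∨ z = y) : Sm φ n G c := by
  obtain ⟨w, hw, hs⟩ := sub
  rcases le_total (w y.1) (w x.1) with h | h
  · exact case3' hC md lo two hw hs hx hy hxy hz h
  · exact case3' hC md lo two hw hs hy hx hxy.symm (fun z h => (hz z h).symm) h

lemma bound1 (md : G.IsMd φ n) {a : G.V} {x y : G.E × Bool} (hx : G.src x = a) (hy : G.src y = a)
    (hne : x ≠ y) (hxy : x.1 = y.1) (hz : ∀ z, G.src z = a → z = x ∨ z = y) :
    Fintype.card G.E ≤ 3 * n := by
  have e : x = bar y := (eq_or_bar hxy).resolve_left hne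
  have h1 : ∀ u, u = a := md.only fun z h => by
    rcases hz z h with rfl | rfl
    · rw [e, bar_bar, hy]
    · rw [← e, hx]
  have h2 : Fintype.card G.V ≤ 1 := Fintype.card_le_one_iff.2 fun u v => (h1 u).trans (h1 v).symm
  have := md.euler
  omega

lemma bound2 (md : G.IsMd φ n) (two : ∀ v, G.Two v)
    (h : ∀ (a : G.V) (x y : G.E × Bool), x ≠ y → G.src x = a → G.src y = a →
      ∃ z, G.src z = a ∧ z ≠ x ∧ z ≠ y) : Fintype.card G.E ≤ 3 * n := by
  have h1 : ∀ v, 3 ≤ (Finset.univ.filter fun x => G.src x = v).card := by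
    intro v
    obtain ⟨x, y, hxy, hx, hy⟩ := two v
    obtain ⟨z, hz, h2, h3⟩ := h v x y hxy hx hy
    exact Finset.two_lt_card_iff.2 ⟨x, y, z, by simpa using hx, by simpa using hy,
      by simpa using hz, hxy, h2.symm, h3.symm⟩
  have h2 := Finset.card_eq_sum_card_fiberwise (f := G.src) (s := Finset.univ) (t := Finset.univ)
    (fun _ _ => Finset.mem_univ _)
  have h3 := Finset.card_nsmul_le_sum Finset.univ _ 3 fun v _ => h1 v
  rw [← h2] at h3
  simp only [Finset.card_univ, Fintype.card_prod, Fintype.card_bool, smul_eq_mul] at h3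
  have := md.euler
  omega

lemma step (hC : S_CMOVE) (md : G.IsMd φ n) (ne : G.H.Nonempty) (two : ∀ v, G.Two v)
    (sub : SubInv G.H G.M c) : (G.Inv φ n c ∧ G.H.card ≤ 3 * n) ∨ Sm φ n G c := by
  by_cases lo : G.Loops
  · by_cases irr : Irr G.H G.M
    · have hI : G.Inv φ n c := ⟨md, lo, two, irr, sub, ne⟩
      have hc := Finset.card_le_univ G.H
      by_cases h : ∀ (a : G.V) (x y : G.E × Bool), x ≠ y → G.src x = a → G.src y = a →
          ∃ z, G.src z = a ∧ z ≠ x ∧ z ≠ y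
      · exact .inl ⟨hI, hc.trans (bound2 md two h)⟩
      · push Not at h
        obtain ⟨a, x, y, hne, hx, hy, hz⟩ := h
        have hz' : ∀ z, G.src z = a → z = x ∨ z = y := fun z h => or_iff_not_imp_left.2 (hz z h)
        by_cases hxy : x.1 = y.1
        · exact .inl ⟨hI, hc.trans (bound1 md hx hy hne hxy hz')⟩
        · exact .inr (case3 hC md lo two sub hx hy hxy hz')
    · exact .inr (case2 md lo two sub irr)
  · unfold Gr.Loops at lo
    push Not at lo
    obtain ⟨x, h1, h2⟩ := lo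
    exact .inr (case1 hC md ne two sub h1 h2)

end CLEANx

theorem p_CLEAN (hCMOVE : S_CMOVE) :
    S_CLEAN := by
  intro N _ φ n G c
  induction hk : Fintype.card G.V + G.H.card using Nat.strong_induction_on generalizing G with
  | _ k ih =>
    intro md ne two sub
    rcases CLEANx.step hCMOVE md ne two sub with h | ⟨G', k1, k2, k3, k4, k5, k6⟩
    · exact ⟨G, h.1, h.2, le_rfl⟩
    · obtain ⟨G'', l1, l2, l3⟩ := ih _ (hk ▸ k5) G' rfl k1 k2 k3 k4
      exact ⟨G'', l1, l2, l3.trans k6⟩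

end Pool.Agent.P.MP_67c9d4_al.PG
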