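import Pool.Agent.P.MP_67c9d4_al.PG.Iface
import Pool.Agent.P.MP_67c9d4_al.PG.MD

/-! Step CMOVE. -/

set_option autoImplicit false

namespace Pool.Agent.P.MP_67c9d4_al.PG

open Classical
open FreeGroup hiding map_mul map_inv map_one

namespace CMOVEx

lemma card_ne {α : Type} [Fintype α] (a : α) [Fintype {v // v ≠ a}] :
    Fintype.card {v // v ≠ a} + 1 = Fintype.card α := by
  rw [← Fintype.card_option]
  exact Fintype.card_congr (Equiv.optionSubtypeNe a)

variable {G : Gr} (ε : G.E × Bool)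

/-- The remaining edges. -/
abbrev Ed := {e : G.E // e ≠ ε.1}

/-- The old name of a letter. -/
def up (x : Ed ε × Bool) : G.E × Bool := (x.1.val, x.2)

/-- The collapse on words. -/
noncomputable def pp : FreeGroup G.E →* FreeGroup (Ed ε) :=
  FreeGroup.lift fun e => if h : e = ε.1 then 1 else of ⟨e, h⟩

/-- The track of a vertex. -/
noncomputable def th (v : G.V) : FreeGroup G.E := if v = G.src ε then lt ε else 1

/-- The homotopy inverse on words. -/
noncomputable def ss : FreeGroup (Ed ε) →* FreeGroup G.E :=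
  FreeGroup.lift fun e => (th ε (G.src (e.val, true)))⁻¹ * of e.val * th ε (G.src (e.val, false))

lemma ss_of (e : Ed ε) : ss ε (of e) =
    (th ε (G.src (e.val, true)))⁻¹ * of e.val * th ε (G.src (e.val, false)) := by
  rw [ss, FreeGroup.lift_apply_of]

lemma ss_lt (x : Ed ε × Bool) : ss ε (lt x) =
    (th ε (G.src (up ε x)))⁻¹ * lt (up ε x) * th ε (G.src (bar (up ε x))) := by
  obtain ⟨e, b⟩ := x
  cases b
  · rw [lt_false, map_inv, ss_of]
    simp only [up, lt_false, bar_false]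
    group
  · exact ss_of ε e

lemma pp_of (e : Ed ε) : pp ε (of e.val) = of e := by
  rw [pp, FreeGroup.lift_apply_of, dif_neg e.2]

lemma pp_eps : pp ε (of ε.1) = 1 := by rw [pp, FreeGroup.lift_apply_of, dif_pos rfl]

lemma pp_up (x : Ed ε × Bool) : pp ε (lt (up ε x)) = lt x := by
  obtain ⟨e, b⟩ := x
  cases b
  · simp only [up, lt_false, map_inv, pp_of]
  · exact pp_of ε e

lemma pp_lt {x : G.E × Bool} (h : x.1 = ε.1) : pp ε (lt x) = 1 := by
  obtain ⟨e, b⟩ := x
  obtain rfl : e = ε.1 := h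
  cases b
  · rw [lt_false, map_inv, pp_eps, inv_one]
  · exact pp_eps ε

lemma pp_th (v : G.V) : pp ε (th ε v) = 1 := by
  unfold th
  split_ifs
  exacts [pp_lt ε rfl, map_one _]

lemma cnt_pp (i : Ed ε) (w : FreeGroup G.E) : cnt i (pp ε w) ≤ cnt i.val w := by
  have := cnt_map_le (H := {i.val}) (pp ε) (i := i) (fun e he => by
    by_cases h : e = ε.1
    · rw [h, pp_eps, cnt_one]
    · rw [pp_of ε ⟨e, h⟩, cnt_of, if_neg]
      rintro rfl
      exact he (Finset.mem_singleton_self _)) w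
  rwa [Finset.sum_singleton, pp_of, cnt_of, if_pos rfl, mul_one] at this

lemma cnt_th (i : G.E) (v : G.V) :
    cnt i (G.Φ (th ε v)) = (if v = G.src ε then 1 else 0) * G.M i ε.1 := by
  unfold th
  split_ifs
  · rw [one_mul, cnt_map_lt, Gr.M]
  · rw [map_one, cnt_one, zero_mul]

lemma cnt_ss (i : G.E) (e : Ed ε) :
    cnt i (G.Φ (ss ε (of e))) ≤ G.M i e.val + G.ends (G.src ε) e.val * G.M i ε.1 := by
  rw [ss_of, map_mul, map_mul, map_inv, Gr.ends, add_mul, ← cnt_th, ← cnt_th, Gr.M]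
  have h1 := cnt_mul_le i ((G.Φ (th ε (G.src (e.val, true))))⁻¹ * G.Φ (of e.val))
    (G.Φ (th ε (G.src (e.val, false))))
  have h2 := cnt_mul_le i (G.Φ (th ε (G.src (e.val, true))))⁻¹ (G.Φ (of e.val))
  rw [cnt_inv] at h2
  omega

variable {ε} (hne : G.src (bar ε) ≠ G.src ε)

/-- The collapse on vertices. -/
noncomputable def pv (v : G.V) : {v : G.V // v ≠ G.src ε} :=
  if h : v = G.src ε then ⟨G.src (bar ε), hne⟩ else ⟨v, h⟩

lemma pv_val (v : {v : G.V // v ≠ G.src ε}) : pv hne v.val = v := by rw [pv, dif_neg v.2]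

lemma pv_a : pv hne (G.src ε) = ⟨G.src (bar ε), hne⟩ := by rw [pv, dif_pos rfl]

lemma pv_b : pv hne (G.src (bar ε)) = ⟨G.src (bar ε), hne⟩ := pv_val hne ⟨_, hne⟩

lemma th_pa (v : G.V) : Pa G.src v (pv hne v).val (th ε v) := by
  by_cases h : v = G.src ε
  · rw [h, pv_a, th, if_pos rfl]
    exact pa_lt G.src ε
  · rw [pv, dif_neg h, th, if_neg h]
    exact .one v

include hne in
lemma ss_pp (x : G.E × Bool) :
    ss ε (pp ε (lt x)) = (th ε (G.src x))⁻¹ * lt x * th ε (G.src (bar x)) := by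
  by_cases h : x.1 = ε.1
  · rw [pp_lt ε h, map_one]
    rcases eq_or_bar h with rfl | rfl
    · simp [th, hne]
    · simp [th, hne, lt_bar]
  · exact (congrArg _ (pp_up ε (⟨x.1, h⟩, x.2))).trans (ss_lt ε _)

/-- The collapsed graph. -/
noncomputable abbrev col : Gr where
  V := {v : G.V // v ≠ G.src ε}
  E := Ed ε
  src x := pv hne (G.src (up ε x))
  Φ := (pp ε).comp (G.Φ.comp (ss ε))
  fv v := pv hne (G.fv v.val)
  H := G.H.subtype (· ≠ ε.1)

lemma hp (x : G.E × Bool) :
    Pa (col hne).src (pv hne (G.src x)) (pv hne (G.src (bar x))) (pp ε (lt x)) := by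
  by_cases h : x.1 = ε.1
  · rw [pp_lt ε h]
    refine (Pa.one _).cast rfl ?_
    rcases eq_or_bar h with rfl | rfl
    · rw [pv_a, pv_b]
    · rw [bar_bar, pv_a, pv_b]
  · have := pa_lt (col hne).src (⟨x.1, h⟩, x.2)
    rwa [← pp_up ε (⟨x.1, h⟩, x.2)] at this

lemma hs (x : Ed ε × Bool) :
    Pa G.src ((col hne).src x).val ((col hne).src (bar x)).val (ss ε (lt x)) := by
  rw [ss_lt]
  exact ((th_pa hne _).inv.mul (pa_lt G.src _)).mul (th_pa hne _)

variable {N : Type} [Group N] {φ : MulAut N} {n : ℕ}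

lemma mark (h : G.IsMd φ n) : (col hne).Mark φ (pv hne (G.src (bar ε))) := by
  refine (h.mark_at _).transfer (G' := col hne) (pp ε) (pv hne) (hp hne) (fun c hc h0 => ?_)
    (ss ε) Subtype.val (hs hne) (fun _ => 1) (fun u => (Pa.one u).cast (pv_val hne u).symm rfl)
    (fun x => ?_) (by rw [pv_b]) rfl (fun v => (pp ε (G.Φ (th ε v)))⁻¹)
    ((h.pa (th_pa hne _)).map (pp ε) (pv hne) (hp hne)).inv fun x => ?_
  · have := hc.conj ((ss ε).comp (pp ε)) (MonoidHom.id _) (fun v => (th ε v)⁻¹) fun x => by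
      rw [inv_inv]; exact ss_pp hne x
    rw [MonoidHom.comp_apply, h0, map_one, MonoidHom.id_apply] at this
    exact conj_eq_one_iff.1 this.symm
  · rw [ss_lt, map_mul, map_mul, map_inv, pp_th, pp_th, pp_up]
    simp
  · show pp ε (G.Φ (ss ε (pp ε (lt x)))) = _
    rw [ss_pp hne]
    simp only [map_mul, map_inv, inv_inv]

lemma md (h : G.IsMd φ n) (hH : ε.1 ∉ G.H ∨ ∀ x : G.E × Bool, x.1 ∉ G.H → G.src x ≠ G.src ε) :
    (col hne).IsMd φ n where
  path x := (h.pa (hs hne x)).map (pp ε) (pv hne) (hp hne)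
  inv e he := by
    have he' : e.val ∉ G.H := fun h' => he (Finset.mem_subtype.2 h')
    have ht : ∀ b, ln G.H (th ε (G.src (e.val, b))) = 0 := fun b => by
      unfold th
      split_ifs with h'
      · rw [ln_lt, if_neg (hH.resolve_right fun h'' => h'' (e.val, b) he' h')]
      · exact ln_one _
    refine ln_map_zero (pp ε) (fun d hd => ?_) (h.ln_zero ?_)
    · by_cases h' : d = ε.1
      · rw [h', pp_eps, ln_one]
      · rw [pp_of ε ⟨d, h'⟩, ln_of, if_neg fun h'' => hd (Finset.mem_subtype.1 h'')]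
    · rw [ss_of, ln_mul_right (ht _), ln_mul_left (by rw [ln_inv, ht]), ln_of, if_neg he']
  euler := by
    have h1 := card_ne ε.1
    have h2 := card_ne (G.src ε)
    have h3 := h.euler
    have h4 : 0 < Fintype.card {v // v ≠ G.src ε} := Fintype.card_pos_iff.2 ⟨⟨_, hne⟩⟩
    show Fintype.card {e // e ≠ ε.1} + 1 = Fintype.card {v // v ≠ G.src ε} + n
    omega
  mark := ⟨_, mark hne h⟩

lemma two {y z : G.E × Bool} (h : y ≠ z) (hy : y.1 ≠ ε.1) (hz : z.1 ≠ ε.1) {v : (col hne).V}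
    (ey : pv hne (G.src y) = v) (ez : pv hne (G.src z) = v) : (col hne).Two v :=
  ⟨(⟨y.1, hy⟩, y.2), (⟨z.1, hz⟩, z.2), fun e => h (congrArg (up ε) e), ey, ez⟩

end CMOVEx

open CMOVEx in
theorem p_CMOVE :
    S_CMOVE := by
  intro N _ φ n G ε c h hne hH h2 ⟨y, z, hyz, hy, hz, ey, ez⟩ ⟨w, hw, hs⟩
  have hf : G.H.filter (· ≠ ε.1) = G.H.erase ε.1 := by ext; simp [and_comm]
  have hm : ∀ i ∈ (col hne).H, i.val ∈ G.H.erase ε.1 := fun i hi =>
    Finset.mem_erase.2 ⟨i.2, Finset.mem_subtype.1 hi⟩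
  refine ⟨col hne, md hne h hH, fun v => ?_, by rw [← hf]; exact Finset.card_subtype _ _,
    Nat.lt_of_succ_le (card_ne (G.src ε)).le, fun e => w e.val, fun i hi => hw _ (hm i hi),
    fun i hi => le_trans ?_ (hs _ (hm i hi))⟩
  · by_cases hv : v.val = G.src (bar ε)
    · have : ∀ x, G.src x = G.src ε ∨ G.src x = G.src (bar ε) → pv hne (G.src x) = v := by
        rintro x (e | e) <;> rw [e]
        exacts [(pv_a hne).trans (Subtype.ext hv.symm), (pv_b hne).trans (Subtype.ext hv.symm)]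
      exact two hne hyz hy hz (this y ey) (this z ez)
    · obtain ⟨s, t, hst, es, et⟩ := h2 v.val v.2 hv
      have : ∀ x, G.src x = v.val → x.1 ≠ ε.1 := fun x e e' => by
        rcases eq_or_bar e' with rfl | rfl
        exacts [v.2 e.symm, hv e.symm]
      exact two hne hst (this s es) (this t et) (by rw [es, pv_val]) (by rw [et, pv_val])
  · rw [← hf, ← Finset.sum_subtype_eq_sum_filter]
    refine Finset.sum_le_sum fun j hj => mul_le_mul_of_nonneg_right ?_ (hw _ (hm j hj)).le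
    exact Nat.cast_le.2 ((cnt_pp ε i _).trans (cnt_ss ε i.val j))

end Pool.Agent.P.MP_67c9d4_al.PG
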