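import Pool.Agent.P.MP_67c9d4_al.PG.Iface

/-! Step EQV. -/

set_option autoImplicit false

namespace Pool.Agent.P.MP_67c9d4_al.PG

open Classical

namespace EQVx

open SemidirectProduct

variable {N N' : Type} [Group N] [Group N'] {φ : MulAut N} {ψ : MulAut N'}

theorem pw (θ : N ≃* N') (c : N') (h : ∀ x, ψ (θ x) = c * θ (φ x) * c⁻¹) (k : ℕ) :
    ∃ d : N', ∀ x, (ψ ^ k) (θ x) = d * θ ((φ ^ k) x) * d⁻¹ := by
  induction k with
  | zero => exact ⟨1, by simp⟩
  | succ k ih =>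
    obtain ⟨d, hd⟩ := ih
    refine ⟨ψ d * c, fun x => ?_⟩
    rw [pow_succ', pow_succ', MulAut.mul_apply, MulAut.mul_apply, hd, map_mul, map_mul, h, map_inv]
    group

theorem zconj {P : Type} [Group P] (f : N →* P) (t : P) (h : ∀ x, f (φ x) = t * f x * t⁻¹)
    (n : ℤ) : ∀ x, f ((φ ^ n) x) = t ^ n * f x * (t ^ n)⁻¹ := by
  induction n using Int.induction_on with
  | zero => simp
  | succ n ih =>
    intro x
    rw [zpow_add_one, MulAut.mul_apply, ih, h]
    group
  | pred n ih =>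
    intro x
    have e := h (φ⁻¹ x)
    rw [MulAut.apply_inv_self] at e
    rw [zpow_sub_one, MulAut.mul_apply, ih, e]
    group

/-- a homomorphism out of the mapping torus -/
def out {P : Type} [Group P] (f : N →* P) (t : P) (h : ∀ x, f (φ x) = t * f x * t⁻¹) :
    MT φ →* P :=
  lift f (zpowersHom P t) fun g => MonoidHom.ext fun x => zconj f t h g.toAdd x

theorem out_inl {P : Type} [Group P] (f : N →* P) (t : P) (h : ∀ x, f (φ x) = t * f x * t⁻¹)
    (x : N) : out f t h (inl x) = f x := lift_inl _ _ _ x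

theorem out_inr {P : Type} [Group P] (f : N →* P) (t : P) (h : ∀ x, f (φ x) = t * f x * t⁻¹) :
    out f t h (inr (Multiplicative.ofAdd 1)) = t := (lift_inr _ _ _ _).trans (zpow_one t)

theorem ext {P : Type} [Group P] {F G : MT φ →* P} (h1 : ∀ x, F (inl x) = G (inl x))
    (h2 : F (inr (Multiplicative.ofAdd 1)) = G (inr (Multiplicative.ofAdd 1))) : F = G :=
  hom_ext (MonoidHom.ext h1) (MonoidHom.ext_mint h2)

theorem exists_hom (θ : N ≃* N') (c : N') (h : ∀ x, ψ (θ x) = c * θ (φ x) * c⁻¹) :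
    ∃ F : MT φ →* MT ψ, (∀ x, F (inl x) = inl (θ x)) ∧
      F (inr (Multiplicative.ofAdd 1)) = (inl c)⁻¹ * inr (Multiplicative.ofAdd 1) := by
  have k : ∀ x, ((inl : N' →* MT ψ).comp θ.toMonoidHom) (φ x) =
      (inl c)⁻¹ * inr (Multiplicative.ofAdd 1) * ((inl : N' →* MT ψ).comp θ.toMonoidHom) x *
        ((inl c)⁻¹ * inr (Multiplicative.ofAdd 1))⁻¹ := fun x => by
    have e : (inl (ψ (θ x)) : MT ψ) = inr (Multiplicative.ofAdd 1) * inl (θ x) *
        inr (Multiplicative.ofAdd 1)⁻¹ := by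
      rw [← inl_aut]
      simp
    rw [h, map_mul, map_mul, map_inv, map_inv] at e
    show (inl (θ (φ x)) : MT ψ) = _ * inl (θ x) * _
    rw [mul_inv_rev, inv_inv, mul_assoc (inl c)⁻¹, mul_assoc (inl c)⁻¹, ← mul_assoc _ _ (inl c),
      ← e]
    group
  exact ⟨out _ _ k, out_inl _ _ k, out_inr _ _ k⟩

end EQVx

open EQVx SemidirectProduct in
theorem p_EQV :
    S_EQV := by
  rintro N N' _ _ φ ψ ⟨θ, c, h⟩
  refine ⟨?_, fun hn f f1 f2 f3 g q => ?_, fun k => ⟨θ, pw θ c h k⟩⟩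
  · rintro ⟨H, _, χ, ε, hH, hε⟩
    obtain ⟨F, F1, F2⟩ := exists_hom θ c h
    obtain ⟨G, G1, G2⟩ := exists_hom (φ := ψ) (ψ := φ) θ.symm (θ.symm c⁻¹) fun y => by
      apply θ.injective
      have e := h (θ.symm y)
      rw [θ.apply_symm_apply] at e
      simp only [map_mul, map_inv, θ.apply_symm_apply, e]
      group
    refine ⟨H, _, χ, (MonoidHom.toMulEquiv F G (ext (fun x => ?_) ?_) (ext (fun x => ?_) ?_)).trans
      ε, hH, fun x => ?_⟩
    · simp [F1, G1]
    · simp [F2, G1, G2]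
    · simp [F1, G1]
    · simp [F1, F2, G2]
    · have e : rightHom.comp F = rightHom := ext (fun x => by simp [F1]) (by simp [F2])
      exact (hε (F x)).trans (DFunLike.congr_fun e x)
  · obtain ⟨m, u, hu⟩ := hn (fun x => f (θ x)) (fun a b => by simpa using f1 _ _)
      (fun a => by simpa using f2 _) (by simpa using f3) (θ.symm g) q
    obtain ⟨d, hd⟩ := pw θ c h (q * m)
    refine ⟨m, θ u * d⁻¹, ?_⟩
    have e := hd (θ.symm g)
    rw [θ.apply_symm_apply] at e
    rw [e]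
    simp only [map_mul, map_inv] at hu
    convert hu using 2
    group

end Pool.Agent.P.MP_67c9d4_al.PG
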