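import Pool.Agent.P.MP_67c9d4_al.PG.Iface

/-! Step FACTM. -/

set_option autoImplicit false

namespace Pool.Agent.P.MP_67c9d4_al.PG

open Classical

namespace FACTMx

lemma pos_sum {α : Type} {s : Finset α} {f g : α → ℕ} {x : α} (hx : x ∈ s) (h1 : 0 < f x)
    (h2 : 0 < g x) : 0 < ∑ i ∈ s, f i * g i :=
  lt_of_lt_of_le (Nat.mul_pos h1 h2)
    (Finset.single_le_sum (f := fun i => f i * g i) (fun _ _ => Nat.zero_le _) hx)

lemma of_pos {α : Type} {s : Finset α} {f g : α → ℕ} (h : 0 < ∑ i ∈ s, f i * g i) :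
    ∃ x ∈ s, 0 < f x ∧ 0 < g x := by
  obtain ⟨x, hx, h'⟩ := Finset.exists_ne_zero_of_sum_ne_zero h.ne'
  exact ⟨x, hx, Nat.pos_of_ne_zero (left_ne_zero_of_mul h'),
    Nat.pos_of_ne_zero (right_ne_zero_of_mul h')⟩

end FACTMx

theorem p_FACTM :
    S_FACTM := by
  intro E E' H H' M P Q c hM hP hQ hI ⟨w, hw, hc⟩
  refine ⟨fun a ha b hb => ?_, fun a => ∑ j ∈ H, (P a j : ℝ) * w j, fun a ha => ?_, fun a ha => ?_⟩
  · obtain ⟨i, hi, hai⟩ := hP a ha
    obtain ⟨k, hk, hkb⟩ := hQ b hb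
    have key : ∀ k, Relation.TransGen (fun a b => a ∈ H ∧ b ∈ H ∧ 0 < M a b) i k →
        ∀ b ∈ H', 0 < Q k b → Relation.TransGen
          (fun a b => a ∈ H' ∧ b ∈ H' ∧ 0 < ∑ i ∈ H, P a i * Q i b) a b := by
      intro k h
      induction h with
      | @single k h =>
        intro b hb hkb
        obtain ⟨-, hk, h⟩ := h
        rw [hM i hi k hk] at h
        obtain ⟨a1, ha1, q, p⟩ := FACTMx.of_pos h
        exact Relation.TransGen.tail (Relation.TransGen.single ⟨ha, ha1, FACTMx.pos_sum hi hai q⟩)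
          ⟨ha1, hb, FACTMx.pos_sum hk p hkb⟩
      | @tail j k _ h ih =>
        intro b hb hkb
        obtain ⟨hj, hk, h⟩ := h
        rw [hM j hj k hk] at h
        obtain ⟨a1, ha1, q, p⟩ := FACTMx.of_pos h
        exact Relation.TransGen.tail (ih a1 ha1 q) ⟨ha1, hb, FACTMx.pos_sum hk p hkb⟩
    exact key k (hI i hi k hk) b hb hkb
  · obtain ⟨j, hj, haj⟩ := hP a ha
    refine Finset.sum_pos' (fun j hj => mul_nonneg (Nat.cast_nonneg _) (hw j hj).le) ⟨j, hj, ?_⟩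
    exact mul_pos (Nat.cast_pos.2 haj) (hw j hj)
  · have e : ∑ b ∈ H', ((∑ i ∈ H, P a i * Q i b : ℕ) : ℝ) * ∑ j ∈ H, (P b j : ℝ) * w j =
        ∑ i ∈ H, (P a i : ℝ) * ∑ j ∈ H, (M i j : ℝ) * w j := by
      have e1 : ∀ i ∈ H, (P a i : ℝ) * ∑ j ∈ H, (M i j : ℝ) * w j =
          ∑ b ∈ H', (P a i : ℝ) * Q i b * ∑ j ∈ H, (P b j : ℝ) * w j := by
        intro i hi
        have e2 : ∑ j ∈ H, (M i j : ℝ) * w j =
            ∑ b ∈ H', (Q i b : ℝ) * ∑ j ∈ H, (P b j : ℝ) * w j := by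
          simp only [Finset.mul_sum]
          rw [Finset.sum_comm]
          refine Finset.sum_congr rfl fun j hj => ?_
          rw [hM i hi j hj]
          push_cast
          rw [Finset.sum_mul]
          exact Finset.sum_congr rfl fun b _ => by ring
        rw [e2, Finset.mul_sum]
        exact Finset.sum_congr rfl fun b _ => by ring
      rw [Finset.sum_congr rfl e1, Finset.sum_comm]
      refine Finset.sum_congr rfl fun b _ => ?_
      push_cast
      rw [Finset.sum_mul]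
    show ∑ b ∈ H', ((∑ i ∈ H, P a i * Q i b : ℕ) : ℝ) * ∑ j ∈ H, (P b j : ℝ) * w j ≤
      c * ∑ j ∈ H, (P a j : ℝ) * w j
    rw [e, Finset.mul_sum]
    refine Finset.sum_le_sum fun i hi => ?_
    have := mul_le_mul_of_nonneg_left (hc i hi) (Nat.cast_nonneg (α := ℝ) (P a i))
    linarith

end Pool.Agent.P.MP_67c9d4_al.PG
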