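import Pool.Agent.P.MP_67c9d4_al.PG.Iface

/-! Step HNN. -/

set_option autoImplicit false

namespace Pool.Agent.P.MP_67c9d4_al.PG

open Classical

namespace HNNx

open SemidirectProduct Multiplicative

variable {N G : Type} [Group N] [Group G]

lemma inter (φ : MulAut N) (f : N →* G) (τ : G) (h : ∀ x, f (φ x) = τ * f x * τ⁻¹) (n : ℤ) :
    ∀ x, f ((φ ^ n) x) = τ ^ n * f x * (τ ^ n)⁻¹ := by
  induction n using Int.induction_on with
  | zero => simp
  | succ n ih =>
    intro x
    rw [zpow_add_one, MulAut.mul_apply, ih, h, zpow_add_one]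
    group
  | pred n ih =>
    intro x
    have h1 := h (φ⁻¹ x)
    rw [← MulAut.mul_apply, mul_inv_cancel, MulAut.one_apply] at h1
    rw [zpow_sub_one, MulAut.mul_apply, ih, zpow_sub_one, h1]
    group

/-- The universal property of the mapping torus. -/
def mtLift (φ : MulAut N) (f : N →* G) (τ : G) (h : ∀ x, f (φ x) = τ * f x * τ⁻¹) :
    MT φ →* G :=
  SemidirectProduct.lift f (zpowersHom G τ) fun g => by
    ext x
    exact inter φ f τ h (toAdd g) x

lemma mtLift_inl (φ : MulAut N) (f : N →* G) (τ : G) (h : ∀ x, f (φ x) = τ * f x * τ⁻¹) (x : N) :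
    mtLift φ f τ h (inl x) = f x := by
  simp [mtLift]

lemma mtLift_inr (φ : MulAut N) (f : N →* G) (τ : G) (h : ∀ x, f (φ x) = τ * f x * τ⁻¹) :
    mtLift φ f τ h (inr (ofAdd 1)) = τ := by
  simp [mtLift]

lemma mt_rel (φ : MulAut N) (x : N) :
    (inl (φ x) : MT φ) = inr (ofAdd 1) * inl x * (inr (ofAdd 1))⁻¹ := by
  rw [← map_inv, ← inl_aut]
  simp

lemma mt_ext (φ : MulAut N) {f g : MT φ →* G} (h1 : ∀ x, f (inl x) = g (inl x))
    (h2 : f (inr (ofAdd 1)) = g (inr (ofAdd 1))) : f = g :=
  SemidirectProduct.hom_ext (MonoidHom.ext h1) (MonoidHom.ext_mint h2)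

lemma zp_inj (χ : G →* Multiplicative ℤ) {a : G} (h : χ a = ofAdd 1) :
    Function.Injective (zpowersHom G a) := by
  intro m n e
  have := congrArg (fun x => toAdd (χ x)) e
  simpa [h] using this

lemma zp_equiv (χ : G →* Multiplicative ℤ) {a b : G} (ha : χ a = ofAdd 1) (hb : χ b = ofAdd 1) :
    ∃ φ : Subgroup.zpowers a ≃* Subgroup.zpowers b, ∀ x : Subgroup.zpowers a,
      ∀ n : ℤ, (x : G) = a ^ n → (φ x : G) = b ^ n := by
  let ea : Multiplicative ℤ ≃* Subgroup.zpowers a := MonoidHom.ofInjective (zp_inj χ ha)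
  let eb : Multiplicative ℤ ≃* Subgroup.zpowers b := MonoidHom.ofInjective (zp_inj χ hb)
  refine ⟨ea.symm.trans eb, fun x n hx => ?_⟩
  have : x = ea (ofAdd n) := Subtype.ext hx
  rw [this, MulEquiv.trans_apply, MulEquiv.symm_apply_apply]
  rfl

end HNNx

open HNNx SemidirectProduct Multiplicative

theorem p_HNN :
    S_HNN := by
  rintro A ψ ψ₀ w h1 h2 ⟨H0, _, χ0, ε0, hH, hχ⟩
  let t0 : MT ψ₀ := inr (ofAdd 1)
  let t1 : MT ψ := inr (ofAdd 1)
  let e : MT ψ := inl (FreeGroup.of none)
  obtain ⟨a, ea⟩ : ∃ a, a = ε0 t0 := ⟨_, rfl⟩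
  obtain ⟨b, eb⟩ : ∃ b, b = ε0 (inl w) * a := ⟨_, rfl⟩
  have ha : χ0 a = ofAdd 1 := by rw [ea, hχ]; simp [t0]
  have hb : χ0 b = ofAdd 1 := by rw [eb, map_mul, ha, hχ]; simp
  obtain ⟨φ, hφ⟩ := zp_equiv χ0 ha hb
  let j : MT ψ₀ →* MT ψ := mtLift ψ₀ (inl.comp (FreeGroup.map some)) t1 fun x => by
    simp only [MonoidHom.comp_apply, ← h1]
    exact mt_rel ψ _
  have j1 : ∀ x, j (inl x) = inl (FreeGroup.map some x) := fun x => mtLift_inl _ _ _ _ x
  have j2 : j t0 = t1 := mtLift_inr _ _ _ _
  have rel : e⁻¹ * t1 = inl (FreeGroup.map some w) * t1 * e⁻¹ := by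
    have := mt_rel ψ (FreeGroup.of none)
    rw [h2, map_mul] at this
    change e * _ = t1 * e * t1⁻¹ at this
    have h3 : (inl (FreeGroup.map some w) : MT ψ) = e⁻¹ * (t1 * e * t1⁻¹) := by
      rw [← this]; group
    rw [h3]; group
  let H := HNNExtension H0 _ _ φ
  let g : H0 →* MT ψ := j.comp ε0.symm.toMonoidHom
  have g1 : ∀ x, g (ε0 x) = j x := fun x => by simp [g]
  have ga : g a = t1 := by rw [ea, g1, j2]
  let B : H →* MT ψ := HNNExtension.lift g e⁻¹ fun x => by
    obtain ⟨n, hn⟩ := x.2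
    have hn' : (x : H0) = a ^ n := hn.symm
    rw [hφ x n hn', hn', map_zpow, map_zpow]
    refine SemiconjBy.zpow_right ?_ n
    have gb : g b = inl (FreeGroup.map some w) * t1 := by rw [eb, map_mul, g1, j1, ga]
    rw [SemiconjBy, ga, gb]
    exact rel
  have B0 : ∀ x, B (HNNExtension.of x) = g x := fun x => HNNExtension.lift_of _ _ _ _
  have B2 : B HNNExtension.t = e⁻¹ := HNNExtension.lift_t _ _ _
  let f : FreeGroup (Option A) →* H := FreeGroup.lift fun o =>
    o.elim HNNExtension.t⁻¹ fun x => HNNExtension.of (ε0 (inl (FreeGroup.of x)))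
  have f1 : ∀ x, f (FreeGroup.map some x) = HNNExtension.of (ε0 (inl x)) := by
    intro x
    have : f.comp (FreeGroup.map some) =
        HNNExtension.of.comp (ε0.toMonoidHom.comp inl) := by
      ext y
      simp [f]
    exact DFunLike.congr_fun this x
  have f2 : f (FreeGroup.of none) = HNNExtension.t⁻¹ := by simp [f]
  have mo : ∀ y : A, FreeGroup.of (some y) = FreeGroup.map some (FreeGroup.of y) :=
    fun y => FreeGroup.map.of.symm
  have hf : ∀ x, f (ψ x) = HNNExtension.of a * f x * (HNNExtension.of a)⁻¹ := by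
    intro x
    have : f.comp ψ.toMonoidHom =
        (MulAut.conj (HNNExtension.of a : H)).toMonoidHom.comp f := by
      ext o
      simp only [MonoidHom.comp_apply, MulEquiv.coe_toMonoidHom, MulAut.conj_apply]
      rcases o with _ | y
      · have h3 := HNNExtension.t_mul_of (φ := φ) ⟨a, Subgroup.mem_zpowers _⟩
        rw [hφ _ 1 (zpow_one _).symm, zpow_one] at h3
        have h5 : (HNNExtension.of b : H) = HNNExtension.of (ε0 (inl w)) * HNNExtension.of a := by
          rw [← map_mul, ← eb]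
        rw [h2, map_mul, f1, f2]
        have h4 : (HNNExtension.of (ε0 (inl w)) : H) = HNNExtension.t * HNNExtension.of a *
            HNNExtension.t⁻¹ * (HNNExtension.of a)⁻¹ := by
          rw [h3, h5]; group
        rw [h4]; group
      · have h5 : ε0 (inl (ψ₀ (FreeGroup.of y))) = a * ε0 (inl (FreeGroup.of y)) * a⁻¹ := by
          rw [mt_rel, map_mul, map_mul, map_inv, ← ea]
        rw [mo, h1, f1, f1, h5, map_mul, map_mul, map_inv]
    exact DFunLike.congr_fun this x
  let F : MT ψ →* H := mtLift ψ f _ hf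
  have F1 : ∀ x, F (inl x) = f x := fun x => mtLift_inl _ _ _ _ x
  have F2 : F t1 = HNNExtension.of a := mtLift_inr _ _ _ _
  have BF : B.comp F = MonoidHom.id _ := by
    refine mt_ext ψ (fun x => ?_) ?_
    · have : (B.comp F).comp inl = inl := by
        ext1 o
        simp only [MonoidHom.comp_apply]
        rcases o with _ | y
        · rw [F1, f2, map_inv, B2, inv_inv]
        · rw [mo, F1, f1, B0, g1, j1]
      exact DFunLike.congr_fun this x
    · change B (F t1) = t1
      rw [F2, B0, ga]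
  have FB : F.comp B = MonoidHom.id _ := by
    refine HNNExtension.hom_ext ?_ ?_
    · have : F.comp j = HNNExtension.of.comp ε0.toMonoidHom := by
        refine mt_ext ψ₀ (fun x => ?_) ?_
        · change F (j (inl x)) = HNNExtension.of (ε0 (inl x))
          rw [j1, F1, f1]
        · change F (j t0) = HNNExtension.of (ε0 t0)
          rw [j2, F2, ← ea]
      refine MonoidHom.ext fun x => ?_
      obtain ⟨y, rfl⟩ := ε0.surjective x
      change F (B (HNNExtension.of (ε0 y))) = _
      rw [B0, g1]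
      exact DFunLike.congr_fun this y
    · change F (B HNNExtension.t) = HNNExtension.t
      rw [B2, map_inv, F1, f2, inv_inv]
  have rj : rightHom.comp j = rightHom := by
    refine mt_ext ψ₀ (fun x => ?_) ?_
    · change rightHom (j (inl x)) = _
      rw [j1]
      simp
    · change rightHom (j t0) = _
      rw [j2]
      simp [t1]
  have hc : (rightHom.comp B).comp HNNExtension.of = χ0 := by
    refine MonoidHom.ext fun x => ?_
    obtain ⟨y, rfl⟩ := ε0.surjective x
    change rightHom (B (HNNExtension.of (ε0 y))) = _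
    rw [B0, g1, hχ]
    exact DFunLike.congr_fun rj y
  refine ⟨H, inferInstance, rightHom.comp B, MonoidHom.toMulEquiv F B BF FB,
    Hier.hnn φ a _ rfl ?_ (hc ▸ hH), fun x => ?_⟩
  · have := DFunLike.congr_fun hc a
    change (rightHom.comp B) (HNNExtension.of a) = _ at this
    rw [this, ha]
    decide
  · exact congrArg rightHom (DFunLike.congr_fun BF x)

end Pool.Agent.P.MP_67c9d4_al.PG
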