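import Pool.Agent.P.MP_67c9d4_al.PG.F3

/-! Step ILL. -/

set_option autoImplicit false

namespace Pool.Agent.P.MP_67c9d4_al.PG

open Classical
open FreeGroup hiding map_mul map_inv map_one

/-- A path is legal or splits at an illegal turn. -/
lemma leg_or_split {G : Gr} (hl : G.Loops) (m : ℕ) : ∀ {u v : G.V} {w : FreeGroup G.E},
    Pa G.src u v w → ln G.H w = m + 1 → G.Leg u v w ∨ ∃ t a b, Pa G.src u t a ∧ w = a * b ∧
      0 < ln G.H a ∧ 0 < ln G.H b ∧ ln G.H w = ln G.H a + ln G.H b ∧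
      ¬G.LT (dir G.H a⁻¹) (dir G.H b) := by
  induction m with
  | zero => exact fun h h1 => .inl (.base h h1)
  | succ m ih =>
    intro u v w h h1
    obtain ⟨c, x, k1, k2, k3, k4, k5, k6⟩ := h.dir_spec hl (by omega)
    have t := dir_tight (H := G.H) (w := w) (by omega)
    have d := ln_dir (H := G.H) (w := w) (by omega)
    have p : Pa G.src u (G.src (bar x)) (dir G.H w) :=
      k5 ▸ k4.mul ((pa_lt G.src x).cast k3 rfl)
    have e : w = dir G.H w * ((dir G.H w)⁻¹ * w) := by rw [mul_inv_cancel_left]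
    rcases ih k6 (by omega) with g | ⟨s, a, b, g1, g2, g3, g4, g5, g6⟩
    · by_cases lt : G.LT (dir G.H (dir G.H w)⁻¹) (dir G.H ((dir G.H w)⁻¹ * w))
      · exact .inl (e ▸ (Gr.Leg.base p d).mul g lt)
      · exact .inr ⟨_, _, _, p, e, by omega, by omega, by omega, lt⟩
    · have e2 : w = dir G.H w * a * b := by rw [mul_assoc, ← g2, ← e]
      have l1 := ln_mul_le G.H (dir G.H w * a) b
      have l2 := ln_mul_le G.H (dir G.H w) a
      rw [← e2] at l1
      refine .inr ⟨s, _, b, p.mul g1, e2, by omega, g4, by omega, ?_⟩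
      rwa [mul_inv_rev, dir_mul (by rwa [ln_inv]) (by
        rw [← mul_inv_rev, ln_inv, ln_inv, ln_inv]; omega)]

theorem p_ILL (hSPREAD : S_SPREAD) (hFACTM : S_FACTM) (hCMOVE : S_CMOVE) :
    S_ILL := by
  rintro N _ φ n G c hG ⟨e, he, hn⟩
  obtain ⟨m, hm⟩ := Nat.exists_eq_succ_of_ne_zero (hG.pos he).ne'
  obtain ⟨t, a, b, g1, g2, g3, g4, g5, g6⟩ :=
    (leg_or_split hG.loops m (hG.md.path (e, true)) hm).resolve_left fun h => hn ⟨_, _, h⟩
  let F : FD G := ⟨G.src (e, true), t, {(e, true)}, fun _ => 1, a, (e, true), rfl,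
    by simpa using he, by simp, by simp, fun _ _ => .one _, g1, g3⟩
  have hx : (e, true) ∈ F.X := rfl
  have hb : bar (e, true) ∉ F.X := bar_ne (e, true)
  have hg : F.g (lt (up (e, true))) = b := by
    rw [FD.g_lt, F.gp_of_not hb, FD.gp, if_pos hx, g2]
    simp [F]
  have o : F.Ok := F.ok_of hG fun v hv => by
    rw [show v = (e, true) from hv, FD.T, hg, FD.ind, FD.ind, if_pos hx, if_neg hb]
    exact ⟨by rw [g5]; simp [F], .inl g4⟩
  rcases o.step hSPREAD hFACTM hG (by
    obtain ⟨x, y, hxy, h1, h2⟩ := hG.two (G.src (e, true))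
    by_cases h : x = (e, true)
    exacts [⟨y, h2, fun h0 => hxy (h.trans (show y = _ from h0).symm)⟩, ⟨x, h1, h⟩])
    with g | ⟨k1, k2⟩
  · exact .inl g
  have hs : some e ∈ F.H' := (F.mem_up (x := (e, true))).2 (by rwa [hg])
  have tk : Trk F.gr (none, false) (up (e, true)) :=
    ⟨F.none_mem, hs, by simp [up], if_pos hx, fun z hz => by
      induction z using letter_cases with
      | h1 => exact absurd hz (by simp [FD.src'])
      | h2 => exact .inl rfl
      | h3 z =>
        replace hz : F.src' (up z) = none := hz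
        rw [FD.src'_up] at hz
        split_ifs at hz with h
        exact .inr (congrArg up h)⟩
  obtain ⟨k, hk⟩ := not_forall.1 g6
  refine track hSPREAD hFACTM hCMOVE (k + 1) F.gr _ _ k1 tk ?_
  rw [Function.iterate_succ_apply, Function.iterate_succ_apply, FD.D_gr hG k2 tk.ln,
    FD.D_gr hG k2 tk.symm.ln, hg, lt_false, map_inv, FD.g_none,
    o.comm hG k2 k (ln_dir (by rwa [ln_inv])), o.comm hG k2 k (ln_dir g4)]
  exact congrArg _ (not_not.1 hk)

end Pool.Agent.P.MP_67c9d4_al.PG
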