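import Pool.Agent.P.MP_67c9d4_al.PG.Iface

/-! Step IND. -/

set_option autoImplicit false

namespace Pool.Agent.P.MP_67c9d4_al.PG

open Classical

namespace INDx

theorem base {N : Type} [Group N] [Subsingleton N] (φ : MulAut N) : HI φ := by
  have b : Function.Bijective (SemidirectProduct.rightHom : MT φ →* Multiplicative ℤ) :=
    ⟨fun x y h => SemidirectProduct.ext (Subsingleton.elim _ _) h,
      SemidirectProduct.rightHom_surjective⟩
  let e : FreeGroup Unit ≃* Multiplicative ℤ := FreeGroup.mulEquivIntOfUnique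
  exact ⟨FreeGroup Unit, inferInstance, e.toMonoidHom, (MulEquiv.ofBijective _ b).trans e.symm,
    Hier.free Unit _, fun x => e.apply_symm_apply _⟩

theorem noexp_pow {N : Type} [Group N] {φ : MulAut N} (h : NoExp φ) (k : ℕ) : NoExp (φ ^ k) := by
  intro f h1 h2 h3 g q
  obtain ⟨m, c, hc⟩ := h f h1 h2 h3 g (k * q)
  exact ⟨m, c, by rwa [← pow_mul, ← mul_assoc k]⟩

theorem pow_comm {N N' : Type} [Group N] [Group N'] {i : N →* N'} {ψ : MulAut N'} {ψ₀ : MulAut N}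
    (h : ∀ x, ψ (i x) = i (ψ₀ x)) (m : ℕ) (x : N) : (ψ ^ m) (i x) = i ((ψ₀ ^ m) x) := by
  induction m with
  | zero => rfl
  | succ m ih => rw [pow_succ', pow_succ', MulAut.mul_apply, MulAut.mul_apply, ih, h]

theorem noexp_res {A B : Type} {s : A → B} (hs : Function.Injective s)
    {ψ : MulAut (FreeGroup B)} {ψ₀ : MulAut (FreeGroup A)}
    (h : ∀ x, ψ (FreeGroup.map s x) = FreeGroup.map s (ψ₀ x)) (hψ : NoExp ψ) : NoExp ψ₀ := by
  intro f h1 h2 h3 g q
  let r : FreeGroup B →* FreeGroup A := FreeGroup.lift (Function.extend s FreeGroup.of 1)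
  have hr : ∀ x, r (FreeGroup.map s x) = x := by
    have : r.comp (FreeGroup.map s) = MonoidHom.id _ := FreeGroup.ext_hom _ _ fun a => by
      simp [r, hs.extend_apply]
    exact fun x => DFunLike.congr_fun this x
  obtain ⟨m, c, hc⟩ := hψ (fun x => f (r x)) (fun a b => by rw [map_mul]; exact h1 _ _)
    (fun a => by rw [map_inv]; exact h2 _) (by rw [map_one]; exact h3) (FreeGroup.map s g) q
  refine ⟨m, r c, ?_⟩
  rwa [pow_comm h, map_mul, map_mul, map_inv, hr] at hc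

theorem pow_top {N N' : Type} [Group N] [Group N'] {i : N →* N'} {ψ : MulAut N'} {ψ₀ : MulAut N}
    (h : ∀ x, ψ (i x) = i (ψ₀ x)) {t : N'} {w : N} (ht : ψ t = t * i w) (m : ℕ) :
    ∃ w', (ψ ^ m) t = t * i w' := by
  induction m with
  | zero => exact ⟨1, by simp⟩
  | succ m ih =>
    obtain ⟨u, hu⟩ := ih
    exact ⟨w * ψ₀ u, by rw [pow_succ', MulAut.mul_apply, hu, map_mul, ht, h, map_mul, mul_assoc]⟩

end INDx

theorem p_IND (hKEY : S_KEY) (hSPLIT : S_SPLIT) (hEQV : S_EQV) (hHNN : S_HNN) (hAMAL : S_AMAL) :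
    S_IND := by
  intro A _
  induction hn : Fintype.card A using Nat.strong_induction_on generalizing A with
  | _ n ih =>
  intro φ hφ
  rcases isEmpty_or_nonempty A with _ | _
  · exact ⟨1, one_pos, fun j => INDx.base _⟩
  obtain ⟨k, k0, one⟩ := hKEY A φ hφ
  have fin : ∀ (N' : Type) [Group N'] (ψ : MulAut N'), Eqv (φ ^ k) ψ → ∀ l, 0 < l →
      (∀ j, HI (ψ ^ (l * j))) → ∃ k, 0 < k ∧ ∀ j : ℕ, HI (φ ^ (k * j)) := by
    intro N' _ ψ e l l0 h
    refine ⟨k * l, mul_pos k0 l0, fun j => ?_⟩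
    rw [mul_assoc, pow_mul]
    exact (hEQV _ _ _ _ ((hEQV _ _ _ _ e).2.2 (l * j))).1 (h j)
  rcases hSPLIT _ _ _ one with ⟨B, _, ψ, ψ₀, w, lt, e, h1, h2⟩ | ⟨B, _, ψ, ψ₀, lt, e, h1⟩
  · have n1 := (hEQV _ _ _ _ e).2.1 (INDx.noexp_pow hφ k)
    obtain ⟨l, l0, hl⟩ := ih _ (hn ▸ lt) B rfl ψ₀ (INDx.noexp_res (Option.some_injective B) h1 n1)
    refine fin _ ψ e l l0 fun j => ?_
    obtain ⟨u, hu⟩ := INDx.pow_top h1 h2 (l * j)
    exact hHNN B _ _ u (INDx.pow_comm h1 _) hu (hl j)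
  · have n1 := (hEQV _ _ _ _ e).2.1 (INDx.noexp_pow hφ k)
    choose l l0 hl using fun b => ih _ (hn ▸ lt b) (B b) rfl (ψ₀ b)
      (INDx.noexp_res sigma_mk_injective (h1 b) n1)
    refine fin _ ψ e (l true * l false) (mul_pos (l0 _) (l0 _)) fun j => ?_
    refine hAMAL B _ (fun b => ψ₀ b ^ (l true * l false * j))
      (fun b => INDx.pow_comm (h1 b) _) fun b => ?_
    cases b
    · rw [mul_comm (l true), mul_assoc]
      exact hl _ _
    · rw [mul_assoc]
      exact hl _ _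

end Pool.Agent.P.MP_67c9d4_al.PG
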