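import Pool.Agent.P.MP_67c9d4_al.PG.Iface
import Pool.Agent.P.MP_67c9d4_al.PG.MD

/-! Step KEY. -/

set_option autoImplicit false

namespace Pool.Agent.P.MP_67c9d4_al.PG

open Classical

namespace KEYx

/-- The rose. -/
noncomputable abbrev rose (A : Type) [Fintype A] (φ : MulAut (FreeGroup A)) : Gr where
  V := Unit
  E := A
  src := fun _ => ()
  Φ := φ.toMonoidHom
  fv := id
  H := Finset.univ

lemma rose_md (A : Type) [Fintype A] (φ : MulAut (FreeGroup A)) :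
    (rose A φ).IsMd φ (Fintype.card A) where
  path _ := pa_all _ _ _
  inv e he := absurd (Finset.mem_univ e) he
  euler := by simp [add_comm]
  mark := ⟨(), MonoidHom.id _, 1, Function.injective_id,
    fun g => ⟨fun _ => pa_all _ _ _, fun _ => ⟨g, rfl⟩⟩, fun _ => ⟨1, pa_all _ _ _⟩,
    pa_all _ _ _, fun g => by simp⟩

lemma subInv_ex {E : Type} (H : Finset E) (M : E → E → ℕ) : ∃ c, SubInv H M c := by
  refine ⟨∑ i ∈ H, ∑ j ∈ H, (M i j : ℝ), fun _ => 1, fun _ _ => one_pos, fun i hi => ?_⟩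
  simp only [mul_one]
  exact Finset.single_le_sum (f := fun i => ∑ j ∈ H, (M i j : ℝ))
    (fun _ _ => Finset.sum_nonneg fun _ _ => Nat.cast_nonneg _) hi

end KEYx

theorem p_KEY (hMIN : S_MIN) (hCLEAN : S_CLEAN) (hTT : S_TT) (hILL : S_ILL) (hPERM : S_PERM) :
    S_KEY := by
  intro A _ _ φ hφ
  refine hPERM _ φ _ ?_
  obtain ⟨a⟩ := ‹Nonempty A›
  obtain ⟨c0, hc0⟩ := KEYx.subInv_ex (KEYx.rose A φ).H (KEYx.rose A φ).M
  obtain ⟨G0, h0, h0', -⟩ := hCLEAN _ φ _ (KEYx.rose A φ) c0 (KEYx.rose_md A φ)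
    ⟨a, Finset.mem_univ a⟩ (fun _ => ⟨(a, true), (a, false), by simp, rfl, rfl⟩) hc0
  obtain ⟨G, ⟨c1, h1, -⟩, c, hc, hmin⟩ := hMIN (3 * Fintype.card A)
    {G | ∃ c, G.Inv φ (Fintype.card A) c ∧ G.H.card ≤ 3 * Fintype.card A}
    (fun G ⟨_, h, h'⟩ => ⟨h', h.ne, h.irr⟩) ⟨G0, ⟨c0, h0, h0'⟩, c0, h0.sub⟩
  have hG : G.Inv φ (Fintype.card A) c := ⟨h1.md, h1.loops, h1.two, h1.irr, hc, h1.ne⟩
  by_cases hl : ∀ e ∈ G.H, ∃ u v, G.Leg u v (G.Φ (FreeGroup.of e))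
  · exact ⟨G, c, hG, hTT _ φ _ G c hG hφ hl⟩
  · rcases hILL _ φ _ G c hG (by simpa using hl) with ⟨G', c', hlt, k1, k2, k3, k4⟩ | h
    · obtain ⟨G'', l1, l2, -⟩ := hCLEAN _ φ _ G' c' k1 k2 k3 k4
      exact absurd (hmin G'' ⟨c', l1, l2⟩ c' l1.sub) (not_le.2 hlt)
    · exact h

end Pool.Agent.P.MP_67c9d4_al.PG
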