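import Pool.Agent.P.MP_67c9d4_al.PG.Iface

/-! Step MIN. -/

set_option autoImplicit false

namespace Pool.Agent.P.MP_67c9d4_al.PG

open Classical

namespace MINx

theorem one {E : Type} {H : Finset E} {M : E → E → ℕ} {c : ℝ} {w : E → ℝ} (p : ∀ i ∈ H, 0 < w i)
    (s : ∀ i ∈ H, ∑ j ∈ H, (M i j : ℝ) * w j ≤ c * w i) {a b : E} (ha : a ∈ H) (hb : b ∈ H) :
    (M a b : ℝ) * w b ≤ c * w a :=
  (Finset.single_le_sum (f := fun j => (M a j : ℝ) * w j)
    (fun j hj => mul_nonneg (Nat.cast_nonneg _) (p j hj).le) hb).trans (s a ha)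

theorem ratio {E : Type} {H : Finset E} {M : E → E → ℕ} {c C : ℝ} {w : E → ℝ} {R : ℕ}
    (p : ∀ i ∈ H, 0 < w i) (s : ∀ i ∈ H, ∑ j ∈ H, (M i j : ℝ) * w j ≤ c * w i) (ir : Irr H M)
    (hc : c ≤ C) (h1 : 1 ≤ C) (hR : H.card ≤ R) {i j : E} (hi : i ∈ H) (hj : j ∈ H) :
    w j ≤ C ^ R * w i := by
  have wi := p i hi
  have mono : ∀ k, H.filter (fun j => w j ≤ C ^ k * w i) ⊆
      H.filter (fun j => w j ≤ C ^ (k + 1) * w i) := by
    intro k a ha
    rw [Finset.mem_filter] at ha ⊢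
    exact ⟨ha.1, ha.2.trans (mul_le_mul_of_nonneg_right (pow_le_pow_right₀ h1 (Nat.le_succ k)) wi.le)⟩
  have key : ∀ k, (∀ j ∈ H, w j ≤ C ^ k * w i) ∨
      k + 1 ≤ (H.filter fun j => w j ≤ C ^ k * w i).card := by
    intro k
    induction k with
    | zero => exact .inr (Finset.card_pos.2 ⟨i, by simp [hi]⟩)
    | succ k ih =>
      by_cases al : ∀ j ∈ H, w j ≤ C ^ k * w i
      · exact .inl fun j hj => (Finset.mem_filter.1 (mono k (Finset.mem_filter.2 ⟨hj, al j hj⟩))).2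
      have c0 := ih.resolve_left al
      push Not at al
      obtain ⟨j, hj, nj⟩ := al
      have ex : ∀ j, Relation.TransGen (fun a b => a ∈ H ∧ b ∈ H ∧ 0 < M a b) i j →
          C ^ k * w i < w j → ∃ b ∈ H, C ^ k * w i < w b ∧ w b ≤ C ^ (k + 1) * w i := by
        have st : ∀ a b, (a ∈ H ∧ b ∈ H ∧ 0 < M a b) → w a ≤ C ^ k * w i →
            w b ≤ C ^ (k + 1) * w i := by
          rintro a b ⟨ha, hb, q⟩ l
          have e1 := one p s ha hb
          have e2 : (1 : ℝ) ≤ M a b := by exact_mod_cast q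
          have e3 := p a ha
          have e4 := p b hb
          calc w b ≤ M a b * w b := by nlinarith
            _ ≤ c * w a := e1
            _ ≤ C * w a := mul_le_mul_of_nonneg_right hc e3.le
            _ ≤ C * (C ^ k * w i) := mul_le_mul_of_nonneg_left l (by linarith)
            _ = C ^ (k + 1) * w i := by ring
        intro j t
        induction t with
        | single q =>
          exact fun l => ⟨_, q.2.1, l, st _ _ q (le_mul_of_one_le_left wi.le (one_le_pow₀ h1))⟩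
        | @tail a b _ q ih =>
          intro l
          by_cases la : w a ≤ C ^ k * w i
          exacts [⟨b, q.2.1, l, st _ _ q la⟩, ih (not_le.1 la)]
      obtain ⟨b, hb, l1, l2⟩ := ex j (ir i hi j hj) nj
      refine .inr (Nat.succ_le_of_lt (lt_of_le_of_lt c0 (Finset.card_lt_card
        ⟨mono k, fun q => ?_⟩)))
      exact absurd (Finset.mem_filter.1 (q (Finset.mem_filter.2 ⟨hb, l2⟩))).2 (not_le.2 l1)
  rcases key R with q | q
  · exact q j hj
  · have := Finset.card_filter_le H fun j => w j ≤ C ^ R * w i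
    omega

/-- the admissible constants of a matrix -/
def A (C D : ℝ) {r : ℕ} (m : Fin r → Fin r → ℕ) : Set ℝ :=
  Prod.fst '' ((Set.Icc 0 C ×ˢ Set.pi Set.univ fun _ : Fin r => Set.Icc 1 D) ∩
    {x : ℝ × (Fin r → ℝ) | ∀ i, ∑ j, (m i j : ℝ) * x.2 j ≤ x.1 * x.2 i})

theorem A_cpt (C D : ℝ) {r : ℕ} (m : Fin r → Fin r → ℕ) : IsCompact (A C D m) := by
  refine ((isCompact_Icc.prod (isCompact_univ_pi fun _ => isCompact_Icc)).inter_right ?_).image
    continuous_fst
  rw [Set.ofPred_forall]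
  exact isClosed_iInter fun i => isClosed_le (by fun_prop) (by fun_prop)

theorem sum_eq {E : Type} (H : Finset E) (f : E → ℝ) :
    ∑ j : Fin H.card, f (H.equivFin.symm j) = ∑ j ∈ H, f j := by
  rw [← Finset.sum_coe_sort H f]
  exact Equiv.sum_comp H.equivFin.symm fun x : H => f x

end MINx

open MINx in
theorem p_MIN :
    S_MIN := by
  rintro R S hS ⟨G0, h0, c0, s0⟩
  set C : ℝ := max c0 1
  have h1 : 1 ≤ C := le_max_right _ _
  set B : ℕ := ⌈C ^ (R + 1)⌉₊
  let I := Σ r : Fin (R + 1), Fin r → Fin r → Fin (B + 1)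
  let P : I → Prop := fun x => ∀ c ∈ A C (C ^ R) (fun i j => (x.2 i j : ℕ)),
    ∃ G ∈ S, SubInv G.H G.M c
  have cp : IsCompact (⋃ x : {x : I // P x}, A C (C ^ R) (fun i j => (x.1.2 i j : ℕ))) :=
    isCompact_iUnion fun x => A_cpt _ _ _
  have mem : ∀ G ∈ S, ∀ c, SubInv G.H G.M c → c ≤ C →
      c ∈ ⋃ x : {x : I // P x}, A C (C ^ R) (fun i j => (x.1.2 i j : ℕ)) := by
    rintro G hG c ⟨w, p, s⟩ hc
    obtain ⟨hR, ne, ir⟩ := hS G hG
    have rt : ∀ i ∈ G.H, ∀ j ∈ G.H, w j ≤ C ^ R * w i := fun i hi j hj => ratio p s ir hc h1 hR hi hj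
    have bd : ∀ i ∈ G.H, ∀ j ∈ G.H, G.M i j < B + 1 := by
      intro i hi j hj
      have e1 := one p s hi hj
      have e2 := rt j hj i hi
      have e3 := p i hi
      have e4 := p j hj
      have e5 : (G.M i j : ℝ) * w j ≤ C ^ (R + 1) * w j :=
        calc _ ≤ c * w i := e1
          _ ≤ C * w i := mul_le_mul_of_nonneg_right hc e3.le
          _ ≤ C * (C ^ R * w j) := mul_le_mul_of_nonneg_left e2 (by linarith)
          _ = _ := by ring
      have e6 : (G.M i j : ℝ) ≤ B := (le_of_mul_le_mul_right e5 e4).trans (Nat.le_ceil _)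
      exact Nat.lt_succ_of_le (by exact_mod_cast e6)
    let e := G.H.equivFin.symm
    let x : I := ⟨⟨G.H.card, Nat.lt_succ_of_le hR⟩,
      fun i j => ⟨G.M (e i) (e j), bd _ (e i).2 _ (e j).2⟩⟩
    have px : P x := by
      rintro c' ⟨⟨c'', v⟩, ⟨⟨-, hv⟩, q⟩, rfl⟩
      refine ⟨G, hG, fun a => if h : a ∈ G.H then v (e.symm ⟨a, h⟩) else 1, fun i hi => ?_,
        fun i hi => ?_⟩
      · simp only [hi, dif_pos]
        exact lt_of_lt_of_le one_pos (hv _ trivial).1
      · have := q (e.symm ⟨i, hi⟩)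
        rw [← sum_eq]
        simpa [x, e, hi] using this
    obtain ⟨i0, hi0, mn⟩ := G.H.exists_min_image w ne
    have w0 := p i0 hi0
    have cn : 0 ≤ c := by
      have e1 := one p s hi0 hi0
      have e2 : (0 : ℝ) ≤ G.M i0 i0 * w i0 := mul_nonneg (Nat.cast_nonneg _) w0.le
      exact nonneg_of_mul_nonneg_left (e2.trans e1) w0
    refine Set.mem_iUnion.2 ⟨⟨x, px⟩, ⟨c, fun i => w (e i) / w i0⟩, ⟨⟨⟨cn, hc⟩, fun i _ => ⟨?_, ?_⟩⟩,
      fun i => ?_⟩, rfl⟩
    · exact (one_le_div w0).2 (mn _ (e i).2)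
    · exact (div_le_iff₀ w0).2 (rt i0 hi0 _ (e i).2)
    · have := s _ (e i).2
      rw [← sum_eq] at this
      simp only [← mul_div_assoc, ← Finset.sum_div]
      exact div_le_div_of_nonneg_right this w0.le
  obtain ⟨c, hc, mn⟩ := cp.exists_isLeast ⟨c0, mem G0 h0 c0 s0 (le_max_left _ _)⟩
  obtain ⟨x, hx⟩ := Set.mem_iUnion.1 hc
  obtain ⟨G, hG, s⟩ := x.2 c hx
  refine ⟨G, hG, c, s, fun G' hG' c' s' => ?_⟩
  by_cases q : c' ≤ C
  · exact mn (mem G' hG' c' s' q)
  · exact (mn (mem G0 h0 c0 s0 (le_max_left _ _))).trans ((le_max_left _ _).trans (not_le.1 q).le)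

end Pool.Agent.P.MP_67c9d4_al.PG
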