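import Pool.Agent.P.MP_67c9d4_al.PG.Iface
import Pool.Agent.P.MP_67c9d4_al.PG.MD

/-! Step PERM. -/

set_option autoImplicit false

namespace Pool.Agent.P.MP_67c9d4_al.PG

open Classical
open FreeGroup hiding map_mul map_inv map_one

namespace PERMx

/-- The word `w` has exactly one top letter, the edge `e`. -/
def Has {E : Type} (H : Finset E) (w : FreeGroup E) (e : E) : Prop :=
  ∃ (c : FreeGroup E) (b : Bool) (c' : FreeGroup E), ln H c = 0 ∧ ln H c' = 0 ∧
    w = c * lt (e, b) * c'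

lemma Has.cnt_eq {E : Type} {H : Finset E} {w : FreeGroup E} {e i : E} (h : Has H w e)
    (hi : i ∈ H) : cnt i w = if e = i then 1 else 0 := by
  obtain ⟨c, b, c', h1, h2, rfl⟩ := h
  rw [cnt_mul_right (ln_eq_zero.1 h2 i hi), cnt_mul_left (ln_eq_zero.1 h1 i hi), cnt_lt]

lemma Has.inv {E : Type} {H : Finset E} {w : FreeGroup E} {e : E} (h : Has H w e) :
    Has H w⁻¹ e := by
  obtain ⟨c, b, c', h1, h2, rfl⟩ := h
  refine ⟨c'⁻¹, !b, c⁻¹, by simpa using h2, by simpa using h1, ?_⟩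
  have : lt (e, !b) = (lt (e, b))⁻¹ := lt_bar (e, b)
  rw [this]
  group

lemma Has.wrap {E : Type} {H : Finset E} {w a a' : FreeGroup E} {e : E} (h : Has H w e)
    (ha : ln H a = 0) (ha' : ln H a' = 0) : Has H (a * w * a') e := by
  obtain ⟨c, b, c', h1, h2, rfl⟩ := h
  refine ⟨a * c, b, c' * a', by rw [ln_mul_left ha, h1], by rw [ln_mul_left h2, ha'], ?_⟩
  group

lemma has_of {E : Type} (H : Finset E) (e : E) : Has H (of e) e :=
  ⟨1, true, 1, ln_one H, ln_one H, by rw [one_mul, mul_one, lt_true]⟩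

variable {N : Type} [Group N] {φ : MulAut N} {n : ℕ} {G : Gr}

lemma Has.map (hG : G.IsMd φ n) {w : FreeGroup G.E} {e e' : G.E} (h : Has G.H w e)
    (he : Has G.H (G.Φ (of e)) e') : Has G.H (G.Φ w) e' := by
  obtain ⟨c, b, c', h1, h2, rfl⟩ := h
  rw [map_mul, map_mul]
  refine Has.wrap ?_ (hG.ln_zero h1) (hG.ln_zero h2)
  cases b
  · rw [lt_false, map_inv]; exact he.inv
  · exact he

lemma ln_single {E : Type} (e : E) (w : FreeGroup E) : ln {e} w = cnt e w :=
  Finset.sum_singleton _ _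

/-- A power with a one edge top stratum of constant one. -/
lemma first {c : ℝ} (h : G.Inv φ n c) (hs : G.Short) :
    ∃ (k : ℕ) (e : G.E), 0 < k ∧ ((G.pow k).withH {e}).IsMd (φ ^ k) n ∧
      SubInv {e} ((G.pow k).withH {e}).M 1 := by
  have h1 : ∀ e : G.H, ∃ e' : G.H, Has G.H (G.Φ (of e.1)) e'.1 := by
    intro e
    obtain ⟨a, x, a', k1, k2, k3, k4⟩ := ln_one_spec (hs e.1 e.2)
    exact ⟨⟨x.1, k2⟩, a, x.2, a', k1, k3, k4⟩
  choose σ hσ using h1
  have hsurj : Function.Surjective σ := by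
    intro i
    obtain ⟨j, ⟨-, hj, h0⟩, -⟩ := Relation.TransGen.head'_iff.1 (h.irr i.1 i.2 i.1 i.2)
    refine ⟨⟨j, hj⟩, Subtype.ext ?_⟩
    have := (hσ ⟨j, hj⟩).cnt_eq i.2
    by_contra hne
    rw [if_neg hne] at this
    exact absurd this h0.ne'
  have hinj : Function.Injective σ := Finite.injective_iff_surjective.2 hsurj
  have hit : ∀ (k : ℕ) (j : G.H), Has G.H (G.Φ^[k] (of j.1)) (σ^[k] j).1 := by
    intro k j
    induction k with
    | zero => exact has_of _ _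
    | succ k ih =>
      simp only [Function.iterate_succ_apply']
      exact ih.map h.md (hσ _)
  obtain ⟨e, he⟩ := h.ne
  obtain ⟨k, hk, hp⟩ := Function.mem_periodicPts.1 (hinj.mem_periodicPts ⟨e, he⟩)
  have hp' : σ^[k] ⟨e, he⟩ = ⟨e, he⟩ := hp
  refine ⟨k, e, hk, (h.md.pow k).withH {e} fun j hj => ?_, fun _ => 1, fun _ _ => one_pos, ?_⟩
  · rw [ln_single, Gr.pow_Φ]
    by_cases hjH : j ∈ G.H
    · rw [(hit k ⟨j, hjH⟩).cnt_eq he, if_neg]
      intro hc
      have : σ^[k] ⟨j, hjH⟩ = σ^[k] ⟨e, he⟩ := by rw [hp']; exact Subtype.ext hc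
      exact hj (Finset.mem_singleton.2 (congrArg Subtype.val (hinj.iterate k this)))
    · exact ln_eq_zero.1 (h.md.ln_zero_iter k (by rw [ln_of]; exact if_neg hjH)) e he
  · intro i hi
    obtain rfl : i = e := Finset.mem_singleton.1 hi
    have : ((G.pow k).withH {i}).M i i = 1 := by
      show cnt i ((G.pow k).Φ (of i)) = 1
      rw [Gr.pow_Φ, (hit k ⟨i, he⟩).cnt_eq he, hp', if_pos rfl]
    rw [Finset.sum_singleton, this]
    simp

/-- The square of a one edge stratum of constant one. -/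
lemma second (h : G.Inv φ n 1) (hc : G.H.card ≤ 1) : OneEdge (φ ^ 2) n := by
  obtain ⟨e, he⟩ := Finset.card_eq_one.1 (le_antisymm hc h.ne.card_pos)
  have heH : e ∈ G.H := by rw [he]; exact Finset.mem_singleton_self e
  have h1 : ln G.H (G.Φ (of e)) = 1 := by
    have h0 := h.pos heH
    obtain ⟨w, hw, hs⟩ := h.sub
    have h2 := hs e heH
    have h3 := hw e heH
    rw [he, Finset.sum_singleton] at h2
    have h4 : (G.M e e : ℝ) ≤ 1 := le_of_mul_le_mul_right h2 h3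
    have h5 : G.M e e ≤ 1 := by exact_mod_cast h4
    have h6 : ln G.H (G.Φ (of e)) = G.M e e := by rw [he, ln_single]; rfl
    omega
  obtain ⟨a, ⟨x, b⟩, a', k1, k2, k3, k4⟩ := ln_one_spec h1
  obtain rfl : x = e := by rw [he] at k2; exact Finset.mem_singleton.1 k2
  have k5 : (G.pow 2).Φ (of x) = G.Φ a * G.Φ (lt (x, b)) * G.Φ a' := by
    rw [Gr.pow_Φ]
    show G.Φ (G.Φ (of x)) = _
    rw [k4, map_mul, map_mul]
  have l1 := h.md.ln_zero k1
  have l3 := h.md.ln_zero k3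
  cases b
  · refine ⟨G.pow 2, x, G.Φ a * a'⁻¹, a⁻¹ * G.Φ a', h.md.pow 2, he, h.loops, h.two, ?_, ?_, ?_⟩
    · show ln G.H _ = 0
      rw [ln_mul_left l1, ln_inv, k3]
    · show ln G.H _ = 0
      rw [ln_mul_right l3, ln_inv, k1]
    · rw [k5, lt_false, map_inv, k4, lt_false]
      group
  · refine ⟨G.pow 2, x, G.Φ a * a, a' * G.Φ a', h.md.pow 2, he, h.loops, h.two, ?_, ?_, ?_⟩
    · show ln G.H _ = 0
      rw [ln_mul_left l1, k1]
    · show ln G.H _ = 0
      rw [ln_mul_right l3, k3]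
    · rw [k5, lt_true, k4, lt_true]
      group

end PERMx

theorem p_PERM (hCLEAN : S_CLEAN) :
    S_PERM := by
  rintro N _ φ n ⟨G, c, h, hs⟩
  obtain ⟨k, e, hk, h1, h2⟩ := PERMx.first h hs
  obtain ⟨G', g1, -, g3⟩ := hCLEAN N (φ ^ k) n ((G.pow k).withH {e}) 1 h1
    (Finset.singleton_nonempty e) h.two h2
  refine ⟨k * 2, by omega, ?_⟩
  rw [pow_mul]
  exact PERMx.second g1 (by simpa using g3)

end Pool.Agent.P.MP_67c9d4_al.PG
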