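import Pool.Agent.P.MP_67c9d4_al.PG.Iface

/-! Step SPLIT. -/

set_option autoImplicit false

namespace Pool.Agent.P.MP_67c9d4_al.PG

open Classical

section Aux
variable {V E : Type}

lemma split_lt_true (a : E) : lt (a, true) = FreeGroup.of a := rfl

lemma split_lt_false (a : E) : lt (a, false) = (FreeGroup.of a)⁻¹ := by
  simp [lt, FreeGroup.of, FreeGroup.inv_mk, FreeGroup.invRev]

lemma split_mk_cons (x : E × Bool) (L : List (E × Bool)) :
    FreeGroup.mk (x :: L) = lt x * FreeGroup.mk L := by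
  simp [lt, FreeGroup.mul_mk]

/-- words that are edge paths -/
def SplitW (src : E × Bool → V) : V → V → List (E × Bool) → Prop
  | u, v, [] => u = v
  | u, v, x :: L => src x = u ∧ SplitW src (src (bar x)) v L

lemma split_word {src : E × Bool → V} {u v : V} {g : FreeGroup E} (h : Pa src u v g) :
    SplitW src u v g.toWord := by
  induction h with
  | one v => exact rfl
  | @cons x v g _ ih =>
    have e : (lt x * g).toWord = FreeGroup.reduce (x :: g.toWord) := by
      conv_lhs => rw [← FreeGroup.mk_toWord (x := g), ← split_mk_cons, FreeGroup.toWord_mk]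
    rw [e, FreeGroup.reduce.cons, FreeGroup.reduce_toWord]
    cases hL : g.toWord with
    | nil =>
      rw [hL] at ih
      exact ⟨rfl, ih⟩
    | cons y L =>
      rw [hL] at ih
      show SplitW src (src x) v (if x.1 = y.1 ∧ x.2 = !y.2 then L else x :: y :: L)
      split_ifs with c
      · have : bar y = x := Prod.ext c.1.symm c.2.symm
        rw [← this]
        exact ih.2
      · exact ⟨rfl, ih⟩

lemma split_append {src : E × Bool → V} {v : V} (L' : List (E × Bool)) :
    ∀ (L : List (E × Bool)) (u : V), SplitW src u v (L ++ L') →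
      ∃ t, SplitW src u t L ∧ SplitW src t v L'
  | [], u, h => ⟨u, rfl, h⟩
  | _ :: L, _, h => by
    obtain ⟨t, a, b⟩ := split_append L' L _ h.2
    exact ⟨t, ⟨h.1, a⟩, b⟩

lemma split_loops {src : E × Bool → V} {e : E} (hl : ∀ x : E × Bool, x.1 ≠ e → src (bar x) = src x)
    {v : V} : ∀ (L : List (E × Bool)) (u : V), SplitW src u v L → (∀ x ∈ L, x.1 ≠ e) →
      u = v ∧ ∀ x ∈ L, src (x.1, true) = v
  | [], _, h, _ => ⟨h, fun _ hx => absurd hx List.not_mem_nil⟩
  | x :: L, u, h, hf => by
    have hx := hf x List.mem_cons_self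
    obtain ⟨a, b⟩ := split_loops hl L _ h.2 fun y hy => hf y (List.mem_cons_of_mem _ hy)
    refine ⟨by rw [← h.1, ← hl x hx, a], fun y hy => ?_⟩
    rcases List.mem_cons.1 hy with rfl | hy
    · obtain ⟨y, _ | _⟩ := y
      · exact a
      · rw [← a]
        exact (hl _ hx).symm
    · exact b y hy

lemma split_mem (K : Subgroup (FreeGroup E)) (g : FreeGroup E)
    (h : ∀ x ∈ g.toWord, FreeGroup.of x.1 ∈ K) : g ∈ K := by
  rw [← FreeGroup.mk_toWord (x := g)]
  generalize g.toWord = L at h
  induction L with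
  | nil => exact K.one_mem
  | cons x L ih =>
    rw [split_mk_cons]
    refine K.mul_mem ?_ (ih fun y hy => h y (List.mem_cons_of_mem _ hy))
    have hx := h x List.mem_cons_self
    obtain ⟨a, _ | _⟩ := x
    · rw [split_lt_false]
      exact K.inv_mem hx
    · exact hx

lemma split_mem' {F : Type} [Group F] (f : FreeGroup E →* F) (K : Subgroup F) (g : FreeGroup E)
    (h : ∀ x ∈ g.toWord, f (FreeGroup.of x.1) ∈ K) : f g ∈ K :=
  split_mem (K.comap f) g h

lemma split_cons {src : E × Bool → V} (x : E × Bool) {u u' v : V} {g : FreeGroup E}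
    (h1 : src x = u) (h2 : src (bar x) = u') (h : Pa src u' v g) : Pa src u v (lt x * g) := by
  subst h1 h2
  exact Pa.cons x h

lemma split_free {e : E} {g : FreeGroup E} (h : ln {e} g = 0) : ∀ x ∈ g.toWord, x.1 ≠ e := by
  intro x hx
  simp only [ln, Finset.sum_singleton, cnt, List.countP_eq_zero] at h
  simpa using h x hx

lemma split_mid {e : E} {c c' : FreeGroup E} (h : ∀ x ∈ c.toWord, x.1 ≠ e)
    (h' : ∀ x ∈ c'.toWord, x.1 ≠ e) :
    (c * FreeGroup.of e * c').toWord = c.toWord ++ (e, true) :: c'.toWord := by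
  have e1 : c * FreeGroup.of e * c' = FreeGroup.mk (c.toWord ++ (e, true) :: c'.toWord) := by
    rw [← FreeGroup.mul_mk, split_mk_cons, FreeGroup.mk_toWord, FreeGroup.mk_toWord, mul_assoc]
    rfl
  rw [e1, FreeGroup.toWord_mk]
  refine FreeGroup.IsReduced.reduce_eq ?_
  have r1 : FreeGroup.IsReduced c.toWord := FreeGroup.isReduced_toWord
  have r2 : FreeGroup.IsReduced c'.toWord := FreeGroup.isReduced_toWord
  refine List.IsChain.append r1 (List.IsChain.cons r2 fun y hy a => ?_) fun x hx y hy a => ?_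
  · exact absurd a.symm (h' y (List.mem_of_mem_head? hy))
  · obtain rfl : (e, true) = y := by simpa using hy
    exact absurd a (h x (List.mem_of_mem_getLast? hx))

lemma split_gen {A F : Type} [Group F] (f : FreeGroup A →* F) (K : Subgroup F)
    (h : ∀ a, f (FreeGroup.of a) ∈ K) (x : FreeGroup A) : f x ∈ K :=
  split_mem' f K x fun a _ => h a.1

/-- restriction of an automorphism to an invariant retract -/
lemma split_restr {A B : Type} (ψ : MulAut (FreeGroup B)) (i : FreeGroup A →* FreeGroup B)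
    (r : FreeGroup B →* FreeGroup A) (hr : ∀ x, r (i x) = x)
    (h : ∀ a, ψ (i (FreeGroup.of a)) ∈ i.range)
    (hs : ∀ b, FreeGroup.of b ∈ i.range ∨ r (ψ (FreeGroup.of b)) = 1) :
    ∃ ψ₀ : MulAut (FreeGroup A), ∀ x, ψ (i x) = i (ψ₀ x) := by
  let f : FreeGroup A →* FreeGroup A := r.comp (ψ.toMonoidHom.comp i)
  have e : ∀ x, ψ (i x) = i (f x) := by
    intro x
    obtain ⟨y, hy⟩ := split_gen (ψ.toMonoidHom.comp i) i.range h x
    have hy' : i y = ψ (i x) := hy
    show _ = i (r (ψ (i x)))
    rw [← hy', hr]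
  have inj : Function.Injective f := by
    intro x y hxy
    have : ψ (i x) = ψ (i y) := by rw [e, e, hxy]
    rw [← hr x, ← hr y, ψ.injective this]
  have sur : Function.Surjective f := by
    intro y
    have := split_gen (r.comp ψ.toMonoidHom) f.range (fun b => by
      rcases hs b with ⟨x, hx⟩ | hb
      · exact ⟨x, by rw [← hx]; rfl⟩
      · exact ⟨1, (map_one f).trans hb.symm⟩) (ψ.symm (i y))
    obtain ⟨x, hx⟩ := this
    refine ⟨x, hx.trans ?_⟩
    show r (ψ (ψ.symm (i y))) = y
    rw [MulEquiv.apply_symm_apply, hr]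
  exact ⟨MulEquiv.ofBijective f ⟨inj, sur⟩, e⟩

/-- transport of an automorphism -/
lemma split_tr {N F : Type} [Group N] [Group F] (φ : MulAut N) (θ : N →* F)
    (hθ : Function.Bijective θ) (C : F) :
    ∃ ψ : MulAut F, Eqv φ ψ ∧ ∀ x, ψ (θ x) = C * θ (φ x) * C⁻¹ := by
  let t : N ≃* F := MulEquiv.ofBijective θ hθ
  have e : ∀ x, ((t.symm.trans φ).trans (t.trans (MulAut.conj C))) (t x) = C * t (φ x) * C⁻¹ := by
    intro x
    simp
  exact ⟨(t.symm.trans φ).trans (t.trans (MulAut.conj C)), ⟨t, C, e⟩, e⟩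

lemma split_conn {src : E × Bool → V} {e : E} (hl : ∀ x : E × Bool, x.1 ≠ e → src (bar x) = src x)
    {u v : V} {g : FreeGroup E} (h : Pa src u v g) :
    u = v ∨ ((∃ b, src (e, b) = u) ∧ ∃ b, src (e, b) = v) := by
  induction h with
  | one v => exact Or.inl rfl
  | @cons x v g _ ih =>
    by_cases hx : x.1 = e
    · obtain ⟨a, s⟩ := x
      obtain rfl : a = e := hx
      refine Or.inr ⟨⟨s, rfl⟩, ?_⟩
      rcases ih with i | i
      · exact ⟨!s, i⟩
      · exact i.2
    · rwa [hl x hx] at ih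

end Aux

section Cases
variable {N : Type} [Group N] {φ : MulAut N} {n : ℕ} {G : Gr} {e : G.E} {c c' : FreeGroup G.E}

lemma split_loop (md : G.IsMd φ n) (hH : G.H = {e}) (hV : ∀ u v : G.V, u = v)
    (hc : ln G.H c = 0) (hc' : ln G.H c' = 0)
    (he : G.Φ (FreeGroup.of e) = c * FreeGroup.of e * c') :
    ∃ (A : Type) (_ : Fintype A) (ψ : MulAut (FreeGroup (Option A))) (ψ₀ : MulAut (FreeGroup A))
      (w : FreeGroup A), Fintype.card A < n ∧ Eqv φ ψ ∧
      (∀ x, ψ (FreeGroup.map some x) = FreeGroup.map some (ψ₀ x)) ∧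
      ψ (FreeGroup.of none) = FreeGroup.of none * FreeGroup.map some w := by
  obtain ⟨v, ι, π, inj, rg, -, -, cj⟩ := md.mark
  rw [hH] at hc hc'
  have all : ∀ g, Pa G.src v v g := by
    intro g
    rw [← FreeGroup.mk_toWord (x := g)]
    generalize g.toWord = L
    induction L with
    | nil => exact Pa.one v
    | cons x L ih =>
      rw [split_mk_cons]
      exact split_cons x (hV _ _) (hV _ _) ih
  have sur : Function.Surjective ι := fun g => (rg g).2 (all g)
  let A := {a : G.E // a ≠ e}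
  let q : Option A ≃ G.E := Equiv.optionSubtypeNe e
  let t : FreeGroup G.E ≃* FreeGroup (Option A) := FreeGroup.freeGroupCongr q.symm
  have t1 : t (FreeGroup.of e) = FreeGroup.of none :=
    congrArg FreeGroup.of (Equiv.optionSubtypeNe_symm_self e)
  have t2 : ∀ a : A, t (FreeGroup.of a.1) = FreeGroup.of (some a) := fun a => by
    simp [t, q, Equiv.optionSubtypeNe_symm_of_ne a.2]
  have fr : ∀ g, ln {e} g = 0 → t g ∈ (FreeGroup.map (some : A → Option A)).range := by
    intro g hg
    refine split_mem' t.toMonoidHom _ g fun x hx => ?_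
    exact ⟨FreeGroup.of ⟨x.1, split_free hg x hx⟩, (t2 ⟨x.1, _⟩).symm⟩
  obtain ⟨ψ, eqv, hψ⟩ := split_tr φ (t.toMonoidHom.comp ι)
    (t.bijective.comp ⟨inj, sur⟩) (t (c⁻¹ * π))
  have hψ' : ∀ g, ψ (t g) = (t c)⁻¹ * t (G.Φ g) * t c := by
    intro g
    obtain ⟨x, rfl⟩ := sur g
    have : ψ (t (ι x)) = t (c⁻¹ * π) * t (ι (φ x)) * (t (c⁻¹ * π))⁻¹ := hψ x
    rw [this, cj]
    simp only [map_mul, map_inv]
    group
  obtain ⟨w1, h1⟩ := fr c hc
  obtain ⟨w2, h2⟩ := fr c' hc'
  have hn : ψ (FreeGroup.of none) = FreeGroup.of none * FreeGroup.map some (w2 * w1) := by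
    rw [← t1, hψ', he, map_mul (FreeGroup.map some), h1, h2]
    simp only [map_mul]
    group
  let r : FreeGroup (Option A) →* FreeGroup A :=
    FreeGroup.lift fun o => o.elim (w2 * w1)⁻¹ FreeGroup.of
  have hr : ∀ x, r (FreeGroup.map some x) = x := by
    intro x
    have : r.comp (FreeGroup.map some) = MonoidHom.id _ := by
      ext a
      simp [r]
    exact DFunLike.congr_fun this x
  obtain ⟨ψ₀, h0⟩ := split_restr ψ (FreeGroup.map some) r hr (fun a => by
      rw [FreeGroup.map.of, ← t2, hψ']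
      refine Subgroup.mul_mem _ (Subgroup.mul_mem _ (Subgroup.inv_mem _ (fr c hc)) (fr _ ?_)) (fr c hc)
      rw [← hH]
      exact md.inv _ (by rw [hH]; simpa using a.2))
    (fun b => by
      cases b with
      | none =>
        right
        rw [hn, map_mul, hr]
        simp [r]
      | some a => exact Or.inl ⟨FreeGroup.of a, rfl⟩)
  refine ⟨A, inferInstance, ψ, ψ₀, w2 * w1, ?_, eqv, h0, hn⟩
  have c1 : Fintype.card G.V = 1 := Fintype.card_eq_one_iff.2 ⟨v, fun y => hV y v⟩
  have c2 : Fintype.card (Option A) = Fintype.card G.E := Fintype.card_congr q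
  have c3 := md.euler
  rw [Fintype.card_option] at c2
  omega

lemma split_arc (md : G.IsMd φ n) (hH : G.H = {e})
    (hl : ∀ x : G.E × Bool, x.1 ≠ e → G.src (bar x) = G.src x) (two : ∀ v, G.Two v)
    (hne : G.src (e, true) ≠ G.src (e, false)) (hV : ∀ u : G.V, ∃ b, G.src (e, b) = u)
    (hc : ln G.H c = 0) (hc' : ln G.H c' = 0)
    (he : G.Φ (FreeGroup.of e) = c * FreeGroup.of e * c') :
    ∃ (A : Bool → Type) (_ : ∀ b, Fintype (A b)) (ψ : MulAut (FreeGroup (Σ b, A b)))
      (ψ₀ : ∀ b, MulAut (FreeGroup (A b))), (∀ b, Fintype.card (A b) < n) ∧ Eqv φ ψ ∧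
      ∀ b x, ψ (FreeGroup.map (Sigma.mk b) x) = FreeGroup.map (Sigma.mk b) (ψ₀ b x) := by
  obtain ⟨v, ι, π, inj, rg, -, -, cj⟩ := md.mark
  rw [hH] at hc hc'
  have ub : ∀ b b', G.src (e, b) = G.src (e, b') → b = b' := by
    intro b b' h
    cases b <;> cases b'
    · rfl
    · exact absurd h.symm hne
    · exact absurd h hne
    · rfl
  choose bb hbb using hV
  let A : Bool → Type := fun b => {a : G.E // a ≠ e ∧ G.src (a, true) = G.src (e, b)}
  let ρ : FreeGroup G.E →* FreeGroup (Σ b, A b) := FreeGroup.lift fun a =>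
    if h : a = e then 1 else FreeGroup.of ⟨bb (G.src (a, true)), a, h, (hbb _).symm⟩
  let t : G.V → FreeGroup G.E := fun u => if u = G.src (e, true) then 1 else FreeGroup.of e
  let κ : FreeGroup (Σ b, A b) →* FreeGroup G.E := FreeGroup.lift fun l =>
    t (G.src (l.2.1, true)) * FreeGroup.of l.2.1 * (t (G.src (l.2.1, true)))⁻¹
  have t1 : t (G.src (e, true)) = 1 := if_pos rfl
  have t2 : t (G.src (e, false)) = FreeGroup.of e := if_neg hne.symm
  have ρe : ρ (FreeGroup.of e) = 1 := by simp [ρ]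
  have ρt : ∀ u, ρ (t u) = 1 := by
    intro u
    simp only [t]
    split_ifs
    · exact map_one ρ
    · exact ρe
  have ρl : ∀ b (l : A b), ρ (FreeGroup.of l.1) = FreeGroup.of ⟨b, l⟩ := by
    rintro b ⟨a, h, h'⟩
    obtain rfl : bb (G.src (a, true)) = b := ub _ _ ((hbb _).trans h')
    simp [ρ, h]
  have κρ1 : ∀ a, a ≠ e → κ (ρ (FreeGroup.of a)) =
      t (G.src (a, true)) * FreeGroup.of a * (t (G.src (a, true)))⁻¹ := by
    intro a h
    simp [ρ, κ, h]
  have κρ : ∀ u u' g, Pa G.src u u' g → κ (ρ g) = t u * g * (t u')⁻¹ := by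
    intro u u' g h
    induction h with
    | one v => simp
    | @cons x v g _ ih =>
      have : κ (ρ (lt x)) = t (G.src x) * lt x * (t (G.src (bar x)))⁻¹ := by
        obtain ⟨a, s⟩ := x
        by_cases h : a = e
        · subst h
          cases s
          · rw [split_lt_false, map_inv, ρe, t2, show bar (a, false) = (a, true) from rfl, t1]
            simp
          · rw [split_lt_true, ρe, t1, show bar (a, true) = (a, false) from rfl, t2]
            simp
        · cases s
          · rw [split_lt_false, map_inv, map_inv, κρ1 a h, ← hl (a, false) h,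
              show bar (a, false) = (a, true) from rfl]
            group
          · rw [split_lt_true, κρ1 a h, hl (a, true) h]
      rw [map_mul, map_mul, this, ih]
      group
  have bij : Function.Bijective (ρ.comp ι) := by
    constructor
    · rw [injective_iff_map_eq_one]
      intro x hx
      have h1 := κρ v v (ι x) ((rg _).1 ⟨x, rfl⟩)
      have hx' : ρ (ι x) = 1 := hx
      rw [hx', map_one] at h1
      have h2 : ι x = 1 := by
        have : ι x = (t v)⁻¹ * (t v * ι x * (t v)⁻¹) * t v := by group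
        rw [this, ← h1]
        group
      exact inj (h2.trans (map_one ι).symm)
    · intro z
      refine split_mem (ρ.comp ι).range z fun y _ => ?_
      obtain ⟨⟨b, l⟩, s⟩ := y
      have lp : G.src (bar (l.1, true)) = G.src (e, b) := (hl _ l.2.1).trans l.2.2
      have key : ∃ g, Pa G.src v v g ∧ ρ g = FreeGroup.of ⟨b, l⟩ := by
        by_cases hv : G.src (e, b) = v
        · refine ⟨lt (l.1, true) * 1, ?_, by rw [mul_one, split_lt_true, ρl]⟩
          exact split_cons _ (l.2.2.trans hv) (lp.trans hv) (Pa.one v)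
        · have hv' : G.src (e, !b) = v := by
            rw [← hbb v] at hv ⊢
            congr 2
            revert hv
            cases bb v <;> cases b <;> simp
          have ρs : ∀ s, ρ (lt (e, s)) = 1 := by
            intro s
            cases s
            · rw [split_lt_false, map_inv, ρe, inv_one]
            · exact ρe
          refine ⟨lt (e, !b) * (lt (l.1, true) * (lt (e, b) * 1)), ?_, by
            rw [mul_one, map_mul, map_mul, ρs, ρs, split_lt_true, ρl, one_mul, mul_one]⟩
          exact split_cons _ hv' (u' := G.src (e, b)) (by simp [bar])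
            (split_cons _ l.2.2 lp (split_cons _ rfl hv' (Pa.one v)))
      obtain ⟨g, hg, eg⟩ := key
      obtain ⟨x, rfl⟩ := (rg g).2 hg
      exact ⟨x, eg⟩
  obtain ⟨ψ, eqv, hψ⟩ := split_tr φ (ρ.comp ι) bij (ρ (c⁻¹ * G.Φ (t v) * π))
  have hψ' : ∀ z, ψ z = ρ (c⁻¹ * G.Φ (κ z) * c) := by
    intro z
    obtain ⟨x, rfl⟩ := bij.2 z
    rw [hψ x]
    show _ * ρ (ι (φ x)) * _ = ρ (c⁻¹ * G.Φ (κ (ρ (ι x))) * c)
    rw [κρ v v (ι x) ((rg _).1 ⟨x, rfl⟩), map_mul G.Φ, map_mul G.Φ, cj]
    simp only [map_mul, map_inv]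
    group
  have fr : ∀ b u g, SplitW G.src u (G.src (e, b)) g.toWord → ln {e} g = 0 →
      u = G.src (e, b) ∧ ρ g ∈ (FreeGroup.map (Sigma.mk b : A b → Σ b, A b)).range := by
    intro b u g h hg
    obtain ⟨a1, a2⟩ := split_loops hl _ _ h (split_free hg)
    refine ⟨a1, split_mem' ρ _ g fun x hx => ?_⟩
    exact ⟨FreeGroup.of ⟨x.1, split_free hg x hx, a2 x hx⟩,
      (ρl b ⟨x.1, split_free hg x hx, a2 x hx⟩).symm⟩
  have pe := split_word (md.path (e, true))
  rw [split_lt_true, he, split_mid (split_free hc) (split_free hc')] at pe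
  obtain ⟨u0, pc, eu, pc'⟩ := split_append _ _ _ pe
  subst eu
  obtain ⟨f1, m1⟩ := fr true _ c pc hc
  have f2 : G.fv (G.src (e, false)) = G.src (e, false) :=
    (split_loops hl _ _ pc' (split_free hc')).1.symm
  have m2 := (fr false _ c' (by rw [← f2]; exact pc') hc').2
  have fb : ∀ b, G.fv (G.src (e, b)) = G.src (e, b) := fun b => by
    cases b
    · exact f2
    · exact f1
  have ml : ∀ b (l : A b), ρ (G.Φ (FreeGroup.of l.1)) ∈
      (FreeGroup.map (Sigma.mk b : A b → Σ b, A b)).range := by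
    intro b l
    have p := split_word (md.path (l.1, true))
    rw [hl _ l.2.1, l.2.2, fb] at p
    refine (fr b _ _ p ?_).2
    rw [← hH]
    exact md.inv _ (by rw [hH]; simpa using l.2.1)
  have inv : ∀ b (l : A b), ψ (FreeGroup.of ⟨b, l⟩) ∈
      (FreeGroup.map (Sigma.mk b : A b → Σ b, A b)).range := by
    intro b l
    have ek : κ (FreeGroup.of ⟨b, l⟩) =
        t (G.src (e, b)) * FreeGroup.of l.1 * (t (G.src (e, b)))⁻¹ := by
      simp [κ, l.2.2]
    rw [hψ', ek]
    cases b
    · rw [t2]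
      have : ρ (c⁻¹ * G.Φ (FreeGroup.of e * FreeGroup.of l.1 * (FreeGroup.of e)⁻¹) * c) =
          ρ c' * ρ (G.Φ (FreeGroup.of l.1)) * (ρ c')⁻¹ := by
        simp only [map_mul, map_inv, he, ρe]
        group
      rw [this]
      exact Subgroup.mul_mem _ (Subgroup.mul_mem _ m2 (ml _ l)) (Subgroup.inv_mem _ m2)
    · rw [t1, one_mul, inv_one, mul_one, map_mul, map_mul, map_inv]
      exact Subgroup.mul_mem _ (Subgroup.mul_mem _ (Subgroup.inv_mem _ m1) (ml _ l)) m1
  have ex : ∀ b, ∃ ψ₀ : MulAut (FreeGroup (A b)),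
      ∀ x, ψ (FreeGroup.map (Sigma.mk b) x) = FreeGroup.map (Sigma.mk b) (ψ₀ x) := by
    intro b
    let r : FreeGroup (Σ b, A b) →* FreeGroup (A b) := FreeGroup.lift fun l =>
      if h : l.1 = b then FreeGroup.of ⟨l.2.1, l.2.2.1, h ▸ l.2.2.2⟩ else 1
    have hr : ∀ x, r (FreeGroup.map (Sigma.mk b) x) = x := by
      intro x
      have : r.comp (FreeGroup.map (Sigma.mk b)) = MonoidHom.id _ := by
        ext a
        simp [r]
      exact DFunLike.congr_fun this x
    refine split_restr ψ _ r hr (fun a => inv b a) fun l => ?_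
    obtain ⟨b', l⟩ := l
    by_cases h : b' = b
    · subst h
      exact Or.inl ⟨FreeGroup.of l, rfl⟩
    · right
      obtain ⟨y, hy⟩ := inv b' l
      have : r.comp (FreeGroup.map (Sigma.mk b')) = 1 := by
        ext a
        simp [r, h]
      rw [← hy]
      exact DFunLike.congr_fun this y
  choose ψ₀ h0 using ex
  refine ⟨A, fun _ => inferInstance, ψ, ψ₀, ?_, eqv, h0⟩
  have c1 : Fintype.card Bool = Fintype.card G.V :=
    Fintype.card_of_bijective (f := fun b => G.src (e, b)) ⟨fun b b' => ub b b', fun u => ⟨_, hbb u⟩⟩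
  have c2 : Fintype.card (Option (Σ b, A b)) ≤ Fintype.card G.E := by
    refine Fintype.card_le_of_injective (fun o => o.elim e fun l => l.2.1) ?_
    rintro (_ | ⟨b, a, h, h'⟩) (_ | ⟨b', a', k, k'⟩) hh
    · rfl
    · exact absurd hh.symm k
    · exact absurd hh h
    · obtain rfl : a = a' := hh
      obtain rfl : b = b' := ub _ _ (h'.symm.trans k')
      rfl
  have c3 : ∀ b, 0 < Fintype.card (A b) := by
    intro b
    obtain ⟨x, y, hxy, hx, hy⟩ := two (G.src (e, b))
    have : ∃ z : G.E × Bool, z ≠ (e, b) ∧ G.src z = G.src (e, b) := by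
      by_cases h : x = (e, b)
      · exact ⟨y, fun k => hxy (h.trans k.symm), hy⟩
      · exact ⟨x, h, hx⟩
    obtain ⟨⟨a, s⟩, hz, sz⟩ := this
    have ha : a ≠ e := by
      rintro rfl
      exact hz (by rw [ub _ _ sz])
    refine Fintype.card_pos_iff.2 ⟨⟨a, ha, ?_⟩⟩
    cases s
    · rw [← sz]
      exact hl (a, false) ha
    · exact sz
  have c4 := md.euler
  rw [Fintype.card_option, Fintype.card_sigma, Fintype.sum_bool] at c2
  rw [Fintype.card_bool] at c1
  have d1 := c3 true
  have d2 := c3 false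
  intro b
  cases b <;> omega

end Cases

theorem p_SPLIT :
    S_SPLIT := by
  rintro N _ φ n ⟨G, e, c, c', md, hH, lp, two, hc, hc', he⟩
  have hl : ∀ x : G.E × Bool, x.1 ≠ e → G.src (bar x) = G.src x := fun x hx =>
    lp x (by rw [hH]; simpa using hx)
  obtain ⟨v, ι, π, -, -, con, -⟩ := md.mark
  by_cases hne : G.src (e, true) = G.src (e, false)
  · refine Or.inl (split_loop md hH ?_ hc hc' he)
    have : ∀ u, v = u := by
      intro u
      obtain ⟨a, ha⟩ := con u
      rcases split_conn hl ha with h | ⟨⟨b, h⟩, b', h'⟩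
      · exact h
      · rw [← h, ← h']
        cases b <;> cases b' <;> simp [hne]
    exact fun u u' => (this u).symm.trans (this u')
  · refine Or.inr (split_arc md hH hl two hne ?_ hc hc' he)
    have hv : ∃ b, G.src (e, b) = v := by
      obtain ⟨a, ha⟩ := con (G.src (e, true))
      rcases split_conn hl ha with h | h
      · exact ⟨true, h.symm⟩
      · exact h.1
    intro u
    obtain ⟨a, ha⟩ := con u
    rcases split_conn hl ha with h | h
    · exact h ▸ hv
    · exact h.2

end Pool.Agent.P.MP_67c9d4_al.PG
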