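import Pool.Agent.P.MP_67c9d4_al.PG.Iface

/-! Step SUBNO. -/

set_option autoImplicit false

namespace Pool.Agent.P.MP_67c9d4_al.PG

open Classical Filter Topology

namespace SUBNOx

theorem word {A : Type} (f : FreeGroup A → ℕ) (hm : ∀ a b, f (a * b) ≤ f a + f b)
    (hi : ∀ a, f a⁻¹ = f a) (h1 : f 1 = 0) (B : ℕ) (hB : ∀ a, f (FreeGroup.of a) ≤ B)
    (L : List (A × Bool)) : f (FreeGroup.mk L) ≤ B * L.length := by
  induction L with
  | nil => exact h1.le.trans (Nat.zero_le _)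
  | cons x L ih =>
    have e : FreeGroup.mk (x :: L) = FreeGroup.mk [x] * FreeGroup.mk L := by
      rw [FreeGroup.mul_mk]; rfl
    have hx : f (FreeGroup.mk [x]) ≤ B := by
      obtain ⟨a, b⟩ := x
      cases b
      · have : FreeGroup.mk [(a, false)] = (FreeGroup.of a)⁻¹ := by
          rw [FreeGroup.of, FreeGroup.inv_mk]; rfl
        rw [this, hi]; exact hB a
      · exact hB a
    rw [e, List.length_cons, Nat.mul_succ]
    have := hm (FreeGroup.mk [x]) (FreeGroup.mk L)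
    omega

theorem base (q : ℕ) : ∃ l : ℝ, 1 < l ∧ l ^ q < 2 := by
  have h : ∀ᶠ l in 𝓝 (1 : ℝ), l ^ q < 2 :=
    ((continuous_pow q).tendsto 1).eventually_lt_const (by norm_num)
  obtain ⟨l, h1, h2⟩ := ((h.filter_mono nhdsWithin_le_nhds).and
    (self_mem_nhdsWithin (a := (1 : ℝ)) (s := Set.Ioi 1))).exists
  exact ⟨l, h2, h1⟩

end SUBNOx

theorem p_SUBNO :
    S_SUBNO := by
  intro A _ φ hφ f hm hi h1 g q
  obtain ⟨B, hB⟩ := (Set.finite_range fun a => f (FreeGroup.of a)).bddAbove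
  have hB' : ∀ a, f (FreeGroup.of a) ≤ B := fun a => hB ⟨a, rfl⟩
  obtain ⟨l, hl, hq⟩ := SUBNOx.base q
  obtain ⟨C, hC⟩ := hφ g l hl
  have h0 : 0 ≤ l ^ q / 2 := by positivity
  have ht := (tendsto_pow_atTop_nhds_zero_of_lt_one h0 (by linarith)).const_mul (B * C)
  rw [mul_zero] at ht
  obtain ⟨m, hm'⟩ := (ht.eventually_lt_const one_pos).exists
  obtain ⟨h, hh⟩ := hC (q * m)
  refine ⟨m, h, ?_⟩
  have h2 := SUBNOx.word f hm hi h1 B hB' (h * (φ ^ (q * m)) g * h⁻¹).toWord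
  rw [FreeGroup.mk_toWord] at h2
  have h3 : (f (h * (φ ^ (q * m)) g * h⁻¹) : ℝ) ≤ B * (C * l ^ (q * m)) := by
    refine le_trans ?_ (mul_le_mul_of_nonneg_left hh (Nat.cast_nonneg B))
    exact_mod_cast h2
  rw [div_pow, ← mul_div_assoc, div_lt_one (by positivity), ← pow_mul] at hm'
  have h4 : (f (h * (φ ^ (q * m)) g * h⁻¹) : ℝ) < 2 ^ m := by linarith
  exact_mod_cast h4

end Pool.Agent.P.MP_67c9d4_al.PG
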