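import Pool.Agent.P.MP_67c9d4_al.PG.TSPREAD
import Pool.Agent.P.MP_67c9d4_al.PG.TMIN
import Pool.Agent.P.MP_67c9d4_al.PG.TFACTM
import Pool.Agent.P.MP_67c9d4_al.PG.TSUBNO
import Pool.Agent.P.MP_67c9d4_al.PG.TEQV
import Pool.Agent.P.MP_67c9d4_al.PG.THNN
import Pool.Agent.P.MP_67c9d4_al.PG.TAMAL
import Pool.Agent.P.MP_67c9d4_al.PG.TSPLIT
import Pool.Agent.P.MP_67c9d4_al.PG.TCMOVE
import Pool.Agent.P.MP_67c9d4_al.PG.TCLEAN
import Pool.Agent.P.MP_67c9d4_al.PG.TTT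
import Pool.Agent.P.MP_67c9d4_al.PG.TILL
import Pool.Agent.P.MP_67c9d4_al.PG.TPERM
import Pool.Agent.P.MP_67c9d4_al.PG.TKEY
import Pool.Agent.P.MP_67c9d4_al.PG.TIND
import Pool.Agent.P.MP_67c9d4_al.PG.FinPow
import Pool.Agent.P.MP_67c9d4_al.SP.Main

/-! Assembly: subexponential automorphisms give groups that virtually have a cyclic hierarchy. -/

set_option autoImplicit false

namespace Pool.Agent.P.MP_67c9d4_al.PG

theorem all_CLEAN : S_CLEAN := p_CLEAN p_CMOVE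

theorem all_KEY : S_KEY :=
  p_KEY p_MIN all_CLEAN p_TT (p_ILL p_SPREAD p_FACTM p_CMOVE) (p_PERM all_CLEAN)

theorem all_IND : S_IND := p_IND all_KEY p_SPLIT p_EQV p_HNN p_AMAL

theorem tfae_sub {G : Type} [Group G] (K : Subgroup G)
    [K.FiniteIndex]
    (h : (∃ (H : Type) (_ : Group H) (χ : H →* Multiplicative ℤ), Hier H χ ∧ Nonempty (K ≃* H)) ∨
      ∃ (n : ℕ) (φ : MulAut (FreeGroup (Fin n))), SubExp φ ∧ Nonempty (K ≃* MT φ)) :
    List.TFAE [VRC G, Virtually RFRS G, Virtually SpecialGroup G] := by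
  rcases h with ⟨H, _, χ, hH, ⟨e⟩⟩ | ⟨n, φ, hφ, ⟨e⟩⟩
  · exact SP.tfae χ hH K e
  · obtain ⟨k, k0, hk⟩ := all_IND (Fin n) φ (p_SUBNO (Fin n) φ hφ)
    obtain ⟨H, _, χ, L, hH, hL, ⟨f⟩⟩ := fin_pow _ φ k k0 (by simpa using hk 1)
    let L' : Subgroup K := L.comap e.toMonoidHom
    have : L'.FiniteIndex := ⟨by
      rw [Subgroup.index_comap_of_surjective _ e.surjective]
      exact hL.index_ne_zero⟩
    have : (L'.map K.subtype).FiniteIndex := ⟨by
      rw [Subgroup.index_map_subtype]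
      exact mul_ne_zero Subgroup.FiniteIndex.index_ne_zero Subgroup.FiniteIndex.index_ne_zero⟩
    have e1 : L'.map K.subtype ≃* L' := (L'.equivMapOfInjective K.subtype K.subtype_injective).symm
    have e2 : L' ≃* L := (e.subgroupMap L').trans (MulEquiv.subgroupCongr
      (Subgroup.map_comap_eq_self_of_surjective e.surjective L))
    exact SP.tfae χ hH (L'.map K.subtype) ((e1.trans e2).trans f)

end Pool.Agent.P.MP_67c9d4_al.PG
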