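import Pool.Agent.P.MP_67c9d4_al.FC.HDefs

/-! Marked graphs with a top stratum, as maps of free groups on the edges. -/

set_option autoImplicit false

namespace Pool.Agent.P.MP_67c9d4_al.PG

open Classical

/-- No conjugacy class grows exponentially. -/
def SubExp {A : Type} (φ : MulAut (FreeGroup A)) : Prop :=
  ∀ (g : FreeGroup A) (l : ℝ), 1 < l → ∃ C : ℝ, ∀ k : ℕ, ∃ h : FreeGroup A,
    (FreeGroup.norm (h * (φ ^ k) g * h⁻¹) : ℝ) ≤ C * l ^ k

/-- The form of subexponential growth used in the proof. -/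
def NoExp {N : Type} [Group N] (φ : MulAut N) : Prop :=
  ∀ f : N → ℕ, (∀ a b, f (a * b) ≤ f a + f b) → (∀ a, f a⁻¹ = f a) → f 1 = 0 →
    ∀ (g : N) (q : ℕ), ∃ (m : ℕ) (h : N), f (h * (φ ^ (q * m)) g * h⁻¹) < 2 ^ m

section Words
variable {E : Type}

/-- A letter as a group element. -/
def lt (x : E × Bool) : FreeGroup E := FreeGroup.mk [x]

/-- The inverse letter. -/
def bar (x : E × Bool) : E × Bool := (x.1, !x.2)

/-- Number of occurrences of the edge `i` in the reduced word. -/
noncomputable def cnt (i : E) (w : FreeGroup E) : ℕ := w.toWord.countP fun x => x.1 = i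

/-- Number of letters in `H` of the reduced word. -/
noncomputable def ln (H : Finset E) (w : FreeGroup E) : ℕ := ∑ i ∈ H, cnt i w

/-- The initial segment of the reduced word up to and including the first letter in `H`. -/
noncomputable def dir (H : Finset E) (w : FreeGroup E) : FreeGroup E :=
  FreeGroup.mk (w.toWord.takeWhile fun x => x.1 ∉ H) *
    FreeGroup.mk ((w.toWord.dropWhile fun x => x.1 ∉ H).take 1)

/-- Edge paths. -/
inductive Pa {V : Type} (src : E × Bool → V) : V → V → FreeGroup E → Prop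
  | one (v : V) : Pa src v v 1
  | cons (x : E × Bool) {v : V} {g : FreeGroup E} :
      Pa src (src (bar x)) v g → Pa src (src x) v (lt x * g)

/-- A positive vector with `M w ≤ c w` on `H`. -/
def SubInv (H : Finset E) (M : E → E → ℕ) (c : ℝ) : Prop :=
  ∃ w : E → ℝ, (∀ i ∈ H, 0 < w i) ∧ ∀ i ∈ H, ∑ j ∈ H, (M i j : ℝ) * w j ≤ c * w i

/-- Irreducible on `H`. -/
def Irr (H : Finset E) (M : E → E → ℕ) : Prop :=
  ∀ i ∈ H, ∀ j ∈ H, Relation.TransGen (fun a b => a ∈ H ∧ b ∈ H ∧ 0 < M a b) i j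

end Words

/-- A finite graph with a self map and a set `H` of edges. -/
structure Gr where
  V : Type
  E : Type
  [fV : Fintype V]
  [fE : Fintype E]
  src : E × Bool → V
  Φ : FreeGroup E →* FreeGroup E
  fv : V → V
  H : Finset E

attribute [instance] Gr.fV Gr.fE

namespace Gr
variable (G : Gr)

/-- The marking. -/
def Mark {N : Type} [Group N] (φ : MulAut N) (v : G.V) : Prop :=
  ∃ (ι : N →* FreeGroup G.E) (π : FreeGroup G.E), Function.Injective ι ∧
    (∀ g, g ∈ ι.range ↔ Pa G.src v v g) ∧ (∀ u, ∃ a, Pa G.src v u a) ∧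
    Pa G.src (G.fv v) v π ∧ ∀ g, G.Φ (ι g) = π * ι (φ g) * π⁻¹

/-- `G` represents `φ`, has rank `n`, and the complement of `H` is invariant. -/
structure IsMd {N : Type} [Group N] (φ : MulAut N) (n : ℕ) : Prop where
  path : ∀ x, Pa G.src (G.fv (G.src x)) (G.fv (G.src (bar x))) (G.Φ (lt x))
  inv : ∀ e, e ∉ G.H → ln G.H (G.Φ (FreeGroup.of e)) = 0
  euler : Fintype.card G.E + 1 = Fintype.card G.V + n
  mark : ∃ v, G.Mark φ v

/-- The transition matrix. -/
noncomputable def M (i j : G.E) : ℕ := cnt i (G.Φ (FreeGroup.of j))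

/-- Edges outside `H` are loops. -/
def Loops : Prop := ∀ x : G.E × Bool, x.1 ∉ G.H → G.src (bar x) = G.src x

/-- At least two ends at `v`. -/
def Two (v : G.V) : Prop := ∃ x y, x ≠ y ∧ G.src x = v ∧ G.src y = v

/-- Number of ends of the edge `e` at `v`. -/
noncomputable def ends (v : G.V) (e : G.E) : ℕ :=
  (if G.src (e, true) = v then 1 else 0) + if G.src (e, false) = v then 1 else 0

/-- The invariant of the folding process. -/
structure Inv {N : Type} [Group N] (φ : MulAut N) (n : ℕ) (c : ℝ) : Prop where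
  md : G.IsMd φ n
  loops : G.Loops
  two : ∀ v, G.Two v
  irr : Irr G.H G.M
  sub : SubInv G.H G.M c
  ne : G.H.Nonempty

/-- The map on directions. -/
noncomputable def D (w : FreeGroup G.E) : FreeGroup G.E := dir G.H (G.Φ w)

/-- Legal turns. -/
def LT (a b : FreeGroup G.E) : Prop := ∀ k : ℕ, G.D^[k] a ≠ G.D^[k] b

/-- Legal paths. -/
inductive Leg : G.V → G.V → FreeGroup G.E → Prop
  | base {u v : G.V} {w : FreeGroup G.E} : Pa G.src u v w → ln G.H w = 1 → Leg u v w
  | mul {u v t : G.V} {a b : FreeGroup G.E} : Leg u v a → Leg v t b →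
      G.LT (dir G.H a⁻¹) (dir G.H b) → Leg u t (a * b)

/-- Every edge of `H` maps over exactly one edge of `H`. -/
def Short : Prop := ∀ e ∈ G.H, ln G.H (G.Φ (FreeGroup.of e)) = 1

end Gr

/-- A representative with a smaller constant. -/
def Good {N : Type} [Group N] (φ : MulAut N) (n : ℕ) (c : ℝ) : Prop :=
  ∃ (G : Gr) (c' : ℝ), c' < c ∧ G.IsMd φ n ∧ G.H.Nonempty ∧ (∀ v, G.Two v) ∧ SubInv G.H G.M c'

/-- A representative whose top stratum is permuted. -/
def Perm {N : Type} [Group N] (φ : MulAut N) (n : ℕ) : Prop :=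
  ∃ (G : Gr) (c : ℝ), G.Inv φ n c ∧ G.Short

/-- A representative whose top stratum is one edge, mapped once over itself. -/
def OneEdge {N : Type} [Group N] (φ : MulAut N) (n : ℕ) : Prop :=
  ∃ (G : Gr) (e : G.E) (c c' : FreeGroup G.E), G.IsMd φ n ∧ G.H = {e} ∧ G.Loops ∧
    (∀ v, G.Two v) ∧ ln G.H c = 0 ∧ ln G.H c' = 0 ∧
    G.Φ (FreeGroup.of e) = c * FreeGroup.of e * c'

/-- The mapping torus has a cyclic hierarchy transverse to the projection to the integers. -/
def HI {N : Type} [Group N] (φ : MulAut N) : Prop :=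
  ∃ (H : Type) (_ : Group H) (χ : H →* Multiplicative ℤ) (ε : MT φ ≃* H), Hier H χ ∧
    ∀ x, χ (ε x) = SemidirectProduct.rightHom x

/-- Equal up to an isomorphism and an inner automorphism. -/
def Eqv {N N' : Type} [Group N] [Group N'] (φ : MulAut N) (ψ : MulAut N') : Prop :=
  ∃ (θ : N ≃* N') (c : N'), ∀ x, ψ (θ x) = c * θ (φ x) * c⁻¹

end Pool.Agent.P.MP_67c9d4_al.PG
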