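import Pool.Agent.P.MP_67c9d4_al.PG.MD

/-! The fold move: subdivision and folding of initial segments. -/

set_option autoImplicit false

namespace Pool.Agent.P.MP_67c9d4_al.PG

open Classical
open FreeGroup hiding map_mul map_inv map_one

lemma hom_eq_low {E P : Type} [Group P] {H : Finset E} {f g : FreeGroup E →* P}
    (h : ∀ x : E × Bool, x.1 ∉ H → f (lt x) = g (lt x)) {c : FreeGroup E} (hc : ln H c = 0) :
    f c = g c := by
  have h1 := ln_eq_zero'.1 hc
  rw [← mk_toWord (x := c)]
  generalize c.toWord = L at h1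
  induction L with
  | nil => rw [← one_eq_mk, map_one, map_one]
  | cons x L ih =>
    rw [mk_cons, map_mul, map_mul, h x (h1 x (by simp)), ih fun y hy => h1 y (by simp [hy])]

lemma Pa.map_low {V E V' E' : Type} {src : E × Bool → V} {src' : E' × Bool → V'} {H : Finset E}
    (q : FreeGroup E →* FreeGroup E') (f : V → V')
    (h : ∀ x : E × Bool, x.1 ∉ H → Pa src' (f (src x)) (f (src (bar x))) (q (lt x))) {u v : V}
    {c : FreeGroup E} (hw : Pa src u v c) (hc : ln H c = 0) : Pa src' (f u) (f v) (q c) := by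
  have h1 := ln_eq_zero'.1 hc
  have h2 := hw.ch
  rw [← mk_toWord (x := c)]
  clear hw
  generalize c.toWord = L at h1 h2
  induction L generalizing u with
  | nil => obtain rfl : u = v := h2; rw [← one_eq_mk, map_one]; exact .one _
  | cons x L ih =>
    obtain ⟨rfl, h2⟩ := h2
    rw [mk_cons, map_mul]
    exact (h x (h1 x (by simp))).mul (ih (fun y hy => h1 y (by simp [hy])) h2)

lemma lift_lt {E P : Type} [Group P] (a m : E × Bool → P) (hm : ∀ x, m (bar x) = (m x)⁻¹)
    (x : E × Bool) : FreeGroup.lift (fun e => a (e, true) * m (e, true) * (a (e, false))⁻¹) (lt x)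
      = a x * m x * (a (bar x))⁻¹ := by
  obtain ⟨e, b⟩ := x
  cases b
  · rw [lt_false, map_inv, lift_apply_of, ← bar_true, hm]
    simp [mul_assoc]
  · rw [lt_true, lift_apply_of]; rfl

/-- Data of a fold: the letters in `X` start at `v`, and the germs `c x * x` are folded along the
path `u`. -/
structure FD (G : Gr) where
  v : G.V
  t : G.V
  X : Set (G.E × Bool)
  c : G.E × Bool → FreeGroup G.E
  u : FreeGroup G.E
  x₀ : G.E × Bool
  hx₀ : x₀ ∈ X
  mem : ∀ x ∈ X, x.1 ∈ G.H
  src : ∀ x ∈ X, G.src x = v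
  low : ∀ x ∈ X, ln G.H (c x) = 0
  loop : ∀ x ∈ X, Pa G.src v v (c x)
  pa : Pa G.src (G.fv v) t u
  pos : 0 < ln G.H u

/-- A letter in the enlarged alphabet. -/
def up {E : Type} (x : E × Bool) : Option E × Bool := (some x.1, x.2)

lemma up_bar {E : Type} (x : E × Bool) : up (bar x) = bar (up x) := rfl

lemma map_lt {E : Type} (x : E × Bool) : FreeGroup.map some (lt x) = lt (up x) := by
  simp [lt, up]

lemma letter_cases {E : Type} {p : Option E × Bool → Prop} (h1 : p (none, true))
    (h2 : p (none, false)) (h3 : ∀ x, p (up x)) (a : Option E × Bool) : p a := by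
  obtain ⟨_ | e, b⟩ := a
  · cases b <;> assumption
  · exact h3 (e, b)

namespace FD

variable {G : Gr} (F : FD G)

/-- Origins in the new graph. -/
noncomputable def src' : Option G.E × Bool → Option G.V
  | (none, true) => some F.v
  | (none, false) => none
  | (some e, b) => if (e, b) ∈ F.X then none else some (G.src (e, b))

lemma src'_up (x : G.E × Bool) : F.src' (up x) = if x ∈ F.X then none else some (G.src x) := rfl

/-- Initial parts of the images of the letters under the fold. -/
noncomputable def pre (x : G.E × Bool) : FreeGroup (Option G.E) :=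
  if x ∈ F.X then (FreeGroup.map some (F.c x))⁻¹ * of none else 1

/-- The fold. -/
noncomputable def p : FreeGroup G.E →* FreeGroup (Option G.E) :=
  FreeGroup.lift fun e => F.pre (e, true) * lt (up (e, true)) * (F.pre (e, false))⁻¹

lemma p_lt (x : G.E × Bool) : F.p (lt x) = F.pre x * lt (up x) * (F.pre (bar x))⁻¹ :=
  lift_lt F.pre (fun x => lt (up x)) (fun x => by rw [up_bar, lt_bar]) x

/-- Images of the initial parts. -/
noncomputable def gp (x : G.E × Bool) : FreeGroup G.E :=
  if x ∈ F.X then (G.Φ (F.c x))⁻¹ * F.u else 1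

/-- The map from the folded graph. -/
noncomputable def g : FreeGroup (Option G.E) →* FreeGroup G.E :=
  FreeGroup.lift fun a => a.elim F.u fun e =>
    (F.gp (e, true))⁻¹ * G.Φ (lt (e, true)) * ((F.gp (e, false))⁻¹)⁻¹

lemma g_none : F.g (of none) = F.u := lift_apply_of

lemma g_lt (x : G.E × Bool) : F.g (lt (up x)) = (F.gp x)⁻¹ * G.Φ (lt x) * F.gp (bar x) := by
  have := lift_lt (fun x => (F.gp x)⁻¹) (fun x => G.Φ (lt x)) (fun x => by rw [lt_bar, map_inv]) x
  rw [inv_inv] at this
  rw [← this, ← map_lt]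
  exact DFunLike.congr_fun (FreeGroup.ext_hom (F.g.comp (FreeGroup.map some)) _ fun e => by
    simp [g]) (lt x)

/-- The map on vertices. -/
def gv : Option G.V → G.V := fun a => a.elim F.t G.fv

lemma not_mem {x : G.E × Bool} (hx : x.1 ∉ G.H) : x ∉ F.X := fun h => hx (F.mem x h)

lemma pre_of_not {x : G.E × Bool} (hx : x ∉ F.X) : F.pre x = 1 := if_neg hx

lemma gp_of_not {x : G.E × Bool} (hx : x ∉ F.X) : F.gp x = 1 := if_neg hx

lemma p_low {c : FreeGroup G.E} (hc : ln G.H c = 0) : F.p c = FreeGroup.map some c :=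
  hom_eq_low (fun x hx => by
    rw [p_lt, F.pre_of_not (F.not_mem hx), F.pre_of_not (F.not_mem (x := bar x) hx), map_lt]
    simp) hc

lemma g_low {c : FreeGroup G.E} (hc : ln G.H c = 0) : F.g (FreeGroup.map some c) = G.Φ c :=
  hom_eq_low (f := F.g.comp (FreeGroup.map some)) (fun x hx => by
    rw [MonoidHom.comp_apply, map_lt, g_lt, F.gp_of_not (F.not_mem hx),
      F.gp_of_not (F.not_mem (x := bar x) hx)]
    simp) hc

lemma g_pre (x : G.E × Bool) : F.g (F.pre x) = F.gp x := by
  unfold pre gp
  split_ifs with h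
  · rw [map_mul, map_inv, F.g_low (F.low x h), g_none]
  · exact map_one _

lemma g_p (w : FreeGroup G.E) : F.g (F.p w) = G.Φ w :=
  DFunLike.congr_fun (hom_lt (f := F.g.comp F.p) fun x => by
    rw [MonoidHom.comp_apply, p_lt, map_mul, map_mul, map_inv, g_pre, g_pre, g_lt]
    group) w

lemma pa_low {a b : G.V} {c : FreeGroup G.E} (h : Pa G.src a b c) (hc : ln G.H c = 0) :
    Pa F.src' (some a) (some b) (FreeGroup.map some c) :=
  h.map_low _ some (fun x hx => by
    rw [map_lt]
    exact (pa_lt F.src' (up x)).cast (by rw [src'_up, if_neg (F.not_mem hx)])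
      (by rw [← up_bar, src'_up, if_neg (F.not_mem (x := bar x) hx)])) hc

lemma pa_none : Pa F.src' (some F.v) none (of none) := pa_lt F.src' (none, true)

lemma pa_pre (x : G.E × Bool) : Pa F.src' (some (G.src x)) (F.src' (up x)) (F.pre x) := by
  rw [src'_up, pre]
  split_ifs with h
  · rw [F.src x h]
    exact (F.pa_low (F.loop x h) (F.low x h)).inv.mul F.pa_none
  · exact .one _

lemma pa_p (x : G.E × Bool) :
    Pa F.src' (some (G.src x)) (some (G.src (bar x))) (F.p (lt x)) := by
  rw [p_lt]
  exact ((F.pa_pre x).mul (pa_lt F.src' (up x))).mul (F.pa_pre (bar x)).inv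

variable {N : Type} [Group N] {φ : MulAut N} {n : ℕ}

lemma pa_gp (h : G.IsMd φ n) (x : G.E × Bool) :
    Pa G.src (G.fv (G.src x)) (F.gv (F.src' (up x))) (F.gp x) := by
  rw [src'_up, gp]
  split_ifs with hx
  · rw [F.src x hx]
    exact (h.pa (F.loop x hx)).inv.mul F.pa
  · exact .one _

lemma pa_g (h : G.IsMd φ n) (a : Option G.E × Bool) :
    Pa G.src (F.gv (F.src' a)) (F.gv (F.src' (bar a))) (F.g (lt a)) := by
  induction a using letter_cases with
  | h1 => rw [lt_true, g_none]; exact F.pa
  | h2 => rw [lt_false, map_inv, g_none]; exact F.pa.inv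
  | h3 x =>
    rw [g_lt]
    exact ((F.pa_gp h x).inv.mul (h.path x)).mul (F.pa_gp h (bar x))

/-- The new top stratum. -/
noncomputable def H' : Finset (Option G.E) := Finset.univ.filter fun a => 0 < ln G.H (F.g (of a))

lemma mem_H' {a : Option G.E} : a ∈ F.H' ↔ 0 < ln G.H (F.g (of a)) := by simp [H']

lemma g_inv (a : Option G.E) (ha : a ∉ F.H') : ln G.H (F.g (of a)) = 0 := by
  rw [mem_H'] at ha; omega

lemma none_mem : none ∈ F.H' := by rw [mem_H', g_none]; exact F.pos

lemma mem_of_some (h : G.IsMd φ n) {e : G.E} (he : some e ∈ F.H') : e ∈ G.H := by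
  by_contra h0
  have := F.g_low (c := of e) (by rw [ln_of, if_neg h0])
  rw [mem_H', ← map.of, this, h.inv e h0] at he
  omega

lemma p_inv (h : G.IsMd φ n) (e : G.E) (he : e ∉ G.H) : ln F.H' (F.p (of e)) = 0 := by
  rw [F.p_low (by rw [ln_of, if_neg he]), map.of, ln_of, if_neg fun h0 => he (F.mem_of_some h h0)]

/-- The folded graph. -/
noncomputable abbrev gr : Gr :=
  { V := Option G.V, E := Option G.E, src := F.src', Φ := F.p.comp F.g,
    fv := fun a => some (F.gv a), H := F.H' }

/-- Corrections for the homotopy inverse. -/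
noncomputable def sp (x : G.E × Bool) : FreeGroup G.E :=
  if x ∈ F.X then (F.c x)⁻¹ * (F.c F.x₀ * lt F.x₀) else 1

/-- The homotopy inverse of the fold. -/
noncomputable def s : FreeGroup (Option G.E) →* FreeGroup G.E :=
  FreeGroup.lift fun a => a.elim (F.c F.x₀ * lt F.x₀) fun e =>
    (F.sp (e, true))⁻¹ * lt (e, true) * ((F.sp (e, false))⁻¹)⁻¹

lemma s_none : F.s (of none) = F.c F.x₀ * lt F.x₀ := lift_apply_of

lemma s_lt (x : G.E × Bool) : F.s (lt (up x)) = (F.sp x)⁻¹ * lt x * F.sp (bar x) := by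
  have := lift_lt (fun x => (F.sp x)⁻¹) lt lt_bar x
  rw [inv_inv] at this
  rw [← this, ← map_lt]
  exact DFunLike.congr_fun (FreeGroup.ext_hom (F.s.comp (FreeGroup.map some)) _ fun e => by
    simp [s]) (lt x)

/-- The inverse on vertices. -/
def sv : Option G.V → G.V := fun a => a.elim (G.src (bar F.x₀)) id

/-- The homotopy. -/
noncomputable def η : Option G.V → FreeGroup (Option G.E) :=
  fun a => a.elim (F.pre (bar F.x₀) * (lt (up F.x₀))⁻¹) fun _ => 1

lemma pa_germ : Pa G.src F.v (G.src (bar F.x₀)) (F.c F.x₀ * lt F.x₀) :=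
  (F.loop _ F.hx₀).mul ((pa_lt G.src F.x₀).cast (F.src _ F.hx₀) rfl)

lemma pa_sp (x : G.E × Bool) : Pa G.src (G.src x) (F.sv (F.src' (up x))) (F.sp x) := by
  rw [src'_up, sp]
  split_ifs with hx
  · rw [F.src x hx]
    exact (F.loop x hx).inv.mul F.pa_germ
  · exact .one _

lemma p_germ : F.p (F.c F.x₀ * lt F.x₀) = of none * (F.η none)⁻¹ := by
  rw [map_mul, F.p_low (F.low _ F.hx₀), p_lt, pre, if_pos F.hx₀]
  simp [η, mul_assoc]

lemma p_sp (x : G.E × Bool) : F.p (F.sp x) = F.pre x * (F.η (F.src' (up x)))⁻¹ := by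
  rw [src'_up, sp, pre]
  split_ifs with hx
  · rw [map_mul, map_inv, F.p_low (F.low x hx), p_germ, mul_assoc]
  · simp [η]

lemma isMd (h : G.IsMd φ n) : F.gr.IsMd φ n where
  path a := (F.pa_g h a).map F.p some F.pa_p
  inv a ha := ln_map_zero F.p (F.p_inv h) (F.g_inv a ha)
  euler := by
    have := h.euler
    simp only [Fintype.card_option]
    omega
  mark := by
    obtain ⟨v, hv⟩ := h.mark
    refine ⟨some v, hv.transfer (G' := F.gr) F.p some F.pa_p
      (fun c hc h0 => h.inj hc (by rw [← F.g_p, h0, map_one])) F.s F.sv (fun a => ?_) F.η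
      (fun a => ?_) (fun a => ?_) rfl rfl (fun _ => 1) (.one _) fun x => ?_⟩
    · induction a using letter_cases with
      | h1 => rw [lt_true, s_none]; exact F.pa_germ
      | h2 => rw [lt_false, map_inv, s_none]; exact F.pa_germ.inv
      | h3 x =>
        rw [s_lt]
        exact ((F.pa_sp x).inv.mul (pa_lt G.src x)).mul (F.pa_sp (bar x))
    · cases a with
      | none =>
        exact (F.pa_pre (bar F.x₀)).mul ((pa_lt F.src' (up F.x₀)).inv.cast rfl
          (by rw [src'_up, if_pos F.hx₀]))
      | some a => exact .one _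
    · induction a using letter_cases with
      | h1 => rw [lt_true, s_none, p_germ]; simp [η, src']
      | h2 => rw [lt_false, map_inv, map_inv, s_none, p_germ]; simp [η, src']
      | h3 x =>
        rw [s_lt, map_mul, map_mul, map_inv, p_sp, p_sp, p_lt, up_bar]
        group
    · simp [g_p]

end FD

end Pool.Agent.P.MP_67c9d4_al.PG
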