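import Pool.Agent.P.MP_67c9d4_al.PG.Defs

/-! Statements of the steps. -/

set_option autoImplicit false

namespace Pool.Agent.P.MP_67c9d4_al.PG

open Classical

-- deps:
def S_SPREAD : Prop := ∀ (E : Type) (H : Finset E) (M M' : E → E → ℕ) (c : ℝ), Irr H M →
  (∀ i ∈ H, ∀ j ∈ H, M' i j ≤ M i j) → (∃ i ∈ H, ∃ j ∈ H, M' i j < M i j) → SubInv H M c →
  ∃ c', c' < c ∧ SubInv H M' c'

-- deps:
def S_MIN : Prop := ∀ (R : ℕ) (S : Set Gr),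
  (∀ G ∈ S, G.H.card ≤ R ∧ G.H.Nonempty ∧ Irr G.H G.M) → (∃ G ∈ S, ∃ c, SubInv G.H G.M c) →
  ∃ G ∈ S, ∃ c, SubInv G.H G.M c ∧ ∀ G' ∈ S, ∀ c', SubInv G'.H G'.M c' → c ≤ c'

-- deps:
def S_FACTM : Prop := ∀ (E E' : Type) (H : Finset E) (H' : Finset E') (M : E → E → ℕ)
  (P : E' → E → ℕ) (Q : E → E' → ℕ) (c : ℝ),
  (∀ i ∈ H, ∀ j ∈ H, M i j = ∑ a ∈ H', Q i a * P a j) → (∀ a ∈ H', ∃ j ∈ H, 0 < P a j) →
  (∀ a ∈ H', ∃ i ∈ H, 0 < Q i a) → Irr H M → SubInv H M c →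
  Irr H' (fun a b => ∑ i ∈ H, P a i * Q i b) ∧ SubInv H' (fun a b => ∑ i ∈ H, P a i * Q i b) c

-- deps:
def S_SUBNO : Prop := ∀ (A : Type) [Finite A] (φ : MulAut (FreeGroup A)), SubExp φ → NoExp φ

-- deps:
def S_EQV : Prop := ∀ (N N' : Type) [Group N] [Group N'] (φ : MulAut N) (ψ : MulAut N'),
  Eqv φ ψ → (HI ψ → HI φ) ∧ (NoExp φ → NoExp ψ) ∧ ∀ k : ℕ, Eqv (φ ^ k) (ψ ^ k)

-- deps:
def S_HNN : Prop := ∀ (A : Type) (ψ : MulAut (FreeGroup (Option A))) (ψ₀ : MulAut (FreeGroup A))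
  (w : FreeGroup A), (∀ x, ψ (FreeGroup.map some x) = FreeGroup.map some (ψ₀ x)) →
  ψ (FreeGroup.of none) = FreeGroup.of none * FreeGroup.map some w → HI ψ₀ → HI ψ

-- deps:
def S_AMAL : Prop := ∀ (A : Bool → Type) (ψ : MulAut (FreeGroup (Σ b, A b)))
  (ψ₀ : ∀ b, MulAut (FreeGroup (A b))),
  (∀ b x, ψ (FreeGroup.map (Sigma.mk b) x) = FreeGroup.map (Sigma.mk b) (ψ₀ b x)) →
  (∀ b, HI (ψ₀ b)) → HI ψ

-- deps: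
def S_SPLIT : Prop := ∀ (N : Type) [Group N] (φ : MulAut N) (n : ℕ), OneEdge φ n →
  (∃ (A : Type) (_ : Fintype A) (ψ : MulAut (FreeGroup (Option A))) (ψ₀ : MulAut (FreeGroup A))
    (w : FreeGroup A), Fintype.card A < n ∧ Eqv φ ψ ∧
    (∀ x, ψ (FreeGroup.map some x) = FreeGroup.map some (ψ₀ x)) ∧
    ψ (FreeGroup.of none) = FreeGroup.of none * FreeGroup.map some w) ∨
  ∃ (A : Bool → Type) (_ : ∀ b, Fintype (A b)) (ψ : MulAut (FreeGroup (Σ b, A b)))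
    (ψ₀ : ∀ b, MulAut (FreeGroup (A b))), (∀ b, Fintype.card (A b) < n) ∧ Eqv φ ψ ∧
    ∀ b x, ψ (FreeGroup.map (Sigma.mk b) x) = FreeGroup.map (Sigma.mk b) (ψ₀ b x)

-- deps:
def S_CMOVE : Prop := ∀ (N : Type) [Group N] (φ : MulAut N) (n : ℕ) (G : Gr) (ε : G.E × Bool)
  (c : ℝ), G.IsMd φ n → G.src (bar ε) ≠ G.src ε →
  (ε.1 ∉ G.H ∨ ∀ x : G.E × Bool, x.1 ∉ G.H → G.src x ≠ G.src ε) →
  (∀ v, v ≠ G.src ε → v ≠ G.src (bar ε) → G.Two v) →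
  (∃ y z : G.E × Bool, y ≠ z ∧ y.1 ≠ ε.1 ∧ z.1 ≠ ε.1 ∧
    (G.src y = G.src ε ∨ G.src y = G.src (bar ε)) ∧
    (G.src z = G.src ε ∨ G.src z = G.src (bar ε))) →
  SubInv (G.H.erase ε.1) (fun i j => G.M i j + G.ends (G.src ε) j * G.M i ε.1) c →
  ∃ G' : Gr, G'.IsMd φ n ∧ (∀ v, G'.Two v) ∧ G'.H.card = (G.H.erase ε.1).card ∧
    Fintype.card G'.V < Fintype.card G.V ∧ SubInv G'.H G'.M c

-- deps: CMOVE
def S_CLEAN : Prop := ∀ (N : Type) [Group N] (φ : MulAut N) (n : ℕ) (G : Gr) (c : ℝ),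
  G.IsMd φ n → G.H.Nonempty → (∀ v, G.Two v) → SubInv G.H G.M c →
  ∃ G' : Gr, G'.Inv φ n c ∧ G'.H.card ≤ 3 * n ∧ G'.H.card ≤ G.H.card

-- deps:
def S_TT : Prop := ∀ (N : Type) [Group N] (φ : MulAut N) (n : ℕ) (G : Gr) (c : ℝ),
  G.Inv φ n c → NoExp φ → (∀ e ∈ G.H, ∃ u v, G.Leg u v (G.Φ (FreeGroup.of e))) → G.Short

-- deps: SPREAD FACTM CMOVE
def S_ILL : Prop := ∀ (N : Type) [Group N] (φ : MulAut N) (n : ℕ) (G : Gr) (c : ℝ),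
  G.Inv φ n c → (∃ e ∈ G.H, ¬∃ u v, G.Leg u v (G.Φ (FreeGroup.of e))) →
  Good φ n c ∨ Perm φ n

-- deps: CLEAN
def S_PERM : Prop := ∀ (N : Type) [Group N] (φ : MulAut N) (n : ℕ), Perm φ n →
  ∃ k, 0 < k ∧ OneEdge (φ ^ k) n

-- deps: MIN CLEAN TT ILL PERM
def S_KEY : Prop := ∀ (A : Type) [Fintype A] [Nonempty A] (φ : MulAut (FreeGroup A)), NoExp φ →
  ∃ k, 0 < k ∧ OneEdge (φ ^ k) (Fintype.card A)

-- deps: KEY SPLIT EQV HNN AMAL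
def S_IND : Prop := ∀ (A : Type) [Fintype A] (φ : MulAut (FreeGroup A)), NoExp φ →
  ∃ k, 0 < k ∧ ∀ j : ℕ, HI (φ ^ (k * j))

-- deps:
def S_FIN : Prop := ∀ (N : Type) [Group N] (φ : MulAut N) (k : ℕ), 0 < k → HI (φ ^ k) →
  ∃ (H : Type) (_ : Group H) (χ : H →* Multiplicative ℤ) (K : Subgroup (MT φ)),
    Hier H χ ∧ K.FiniteIndex ∧ Nonempty (K ≃* H)

end Pool.Agent.P.MP_67c9d4_al.PG
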