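import Pool.Agent.P.MP_67c9d4_al.PG.F1
import Pool.Agent.P.MP_67c9d4_al.PG.Iface

/-! The fold move keeps the invariant or lowers the constant. -/

set_option autoImplicit false

namespace Pool.Agent.P.MP_67c9d4_al.PG

open Classical
open FreeGroup hiding map_mul map_inv map_one

lemma cnt_mk {E : Type} {L : List (E × Bool)} (h : IsReduced L) (i : E) :
    cnt i (mk L) = L.countP fun x => x.1 = i := by rw [cnt, toWord_mk, h.reduce_eq]

lemma dir_mk {E : Type} {H : Finset E} {L : List (E × Bool)} {x : E × Bool} (h : IsReduced L)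
    (hL : L = x :: L.tail) (hx : x.1 ∈ H) : dir H (mk L) = lt x := by
  rw [dir_of_word (L := []) (x := x) (K := L.tail) (by rw [toWord_mk, h.reduce_eq]; exact hL)
    (by simp) hx, ← one_eq_mk, one_mul]

lemma ln_mk_pos {E : Type} {H : Finset E} {L : List (E × Bool)} {x : E × Bool} (h : IsReduced L)
    (hL : x ∈ L) (hx : x.1 ∈ H) : 0 < ln H (mk L) := by
  rw [ln_mk h, List.countP_pos_iff]
  exact ⟨x, hL, by simpa using hx⟩

lemma SubInv.congr {E : Type} {H : Finset E} {M M' : E → E → ℕ} {c : ℝ} (h : SubInv H M c)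
    (e : ∀ i ∈ H, ∀ j ∈ H, M' i j = M i j) : SubInv H M' c := by
  obtain ⟨w, h1, h2⟩ := h
  exact ⟨w, h1, fun i hi => (Finset.sum_congr rfl fun j hj => by rw [e i hi j hj]).trans_le
    (h2 i hi)⟩

lemma Irr.congr {E : Type} {H : Finset E} {M M' : E → E → ℕ} (h : Irr H M)
    (e : ∀ i ∈ H, ∀ j ∈ H, M' i j = M i j) : Irr H M' := fun i hi j hj =>
  Relation.TransGen.mono (fun a b ⟨ha, hb, h0⟩ => ⟨ha, hb, by rwa [e a ha b hb]⟩) _ _
    (h i hi j hj)

lemma mem_erase' {E : Type} {H : Finset E} {a b : E} : b ∈ H.erase a ↔ b ≠ a ∧ b ∈ H :=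
  Finset.mem_erase

lemma SubInv.mono {E : Type} {H K : Finset E} {M M' : E → E → ℕ} {c : ℝ} (h : SubInv H M c)
    (hK : ∀ i ∈ K, i ∈ H) (e : ∀ i ∈ K, ∀ j ∈ K, M' i j ≤ M i j) : SubInv K M' c := by
  obtain ⟨w, h1, h2⟩ := h
  refine ⟨w, fun i hi => h1 i (hK i hi), fun i hi => le_trans ?_ (h2 i (hK i hi))⟩
  refine (Finset.sum_le_sum fun j hj => mul_le_mul_of_nonneg_right
    (Nat.cast_le.2 (e i hi j hj)) (h1 j (hK j hj)).le).trans ?_
  exact Finset.sum_le_sum_of_subset_of_nonneg hK fun j hj _ =>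
    mul_nonneg (Nat.cast_nonneg _) (h1 j hj).le

lemma Tight.of_one {E E' E'' : Type} {H : Finset E} {H' : Finset E'} {H'' : Finset E''}
    {q : FreeGroup E →* FreeGroup E'} {r : FreeGroup E' →* FreeGroup E''}
    (hq : ∀ e, e ∉ H → ln H' (q (of e)) = 0) (hr : ∀ e, e ∉ H' → ln H'' (r (of e)) = 0)
    (h : ∀ e ∈ H, Tight H' H'' r (q (of e))) {w : FreeGroup E} (hw : ln H w = 1) :
    Tight H' H'' r (q w) := by
  obtain ⟨c, x, c', h1, h2, h3, rfl⟩ := ln_one_spec hw
  rw [map_mul, map_mul]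
  refine Tight.right hr (ln_map_zero q hq h3) (Tight.left hr (ln_map_zero q hq h1) ?_)
  obtain ⟨e, b⟩ := x
  cases b
  · rw [lt_false, map_inv]; exact (h e h2).inv
  · exact h e h2

lemma pos_of_one {E E' : Type} {H : Finset E} {H' : Finset E'}
    {q : FreeGroup E →* FreeGroup E'} (hq : ∀ e, e ∉ H → ln H' (q (of e)) = 0)
    (h : ∀ e ∈ H, 0 < ln H' (q (of e))) {w : FreeGroup E} (hw : ln H w = 1) :
    0 < ln H' (q w) := by
  obtain ⟨c, x, c', h1, h2, h3, rfl⟩ := ln_one_spec hw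
  rw [map_mul, map_mul, ln_mul_right (ln_map_zero q hq h3), ln_mul_left (ln_map_zero q hq h1),
    ln_map_lt]
  exact h _ h2

namespace FD

variable {G : Gr} (F : FD G) {N : Type} [Group N] {φ : MulAut N} {n : ℕ} {c : ℝ}

/-- Indicator of the folded letters. -/
noncomputable def ind (x : G.E × Bool) : ℕ := if x ∈ F.X then 1 else 0

/-- The image of a letter is the tight product of its parts. -/
def T (x : G.E × Bool) : Prop :=
  ln G.H (G.Φ (lt x)) = (F.ind x + F.ind (bar x)) * ln G.H F.u + ln G.H (F.g (lt (up x)))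

lemma T_bar {x : G.E × Bool} (h : F.T x) : F.T (bar x) := by
  unfold T at h ⊢
  rw [up_bar, lt_bar, lt_bar, map_inv, map_inv, ln_inv, ln_inv, bar_bar, h, add_comm (F.ind x)]

/-- The conditions on the fold. -/
structure Ok : Prop where
  tight : ∀ x : G.E × Bool, x.1 ∈ G.H → F.T x
  rest : ∀ x : G.E × Bool, x.1 ∈ G.H → 0 < ln G.H (F.g (lt (up x))) ∨ (x ∈ F.X ∧ bar x ∈ F.X)

lemma mem_up {x : G.E × Bool} : some x.1 ∈ F.H' ↔ 0 < ln G.H (F.g (lt (up x))) := by
  rw [mem_H', ln_map_lt]; rfl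

/-- It is enough to check the letters in `X`. -/
lemma ok_of (h : G.Inv φ n c)
    (hX : ∀ x ∈ F.X, F.T x ∧ (0 < ln G.H (F.g (lt (up x))) ∨ bar x ∈ F.X)) : F.Ok := by
  have key : ∀ x : G.E × Bool, x ∉ F.X → bar x ∉ F.X → F.g (lt (up x)) = G.Φ (lt x) := by
    intro x h1 h2
    rw [g_lt, F.gp_of_not h1, F.gp_of_not h2]; simp
  refine ⟨fun x hx => ?_, fun x hx => ?_⟩
  · by_cases h1 : x ∈ F.X
    · exact (hX x h1).1
    by_cases h2 : bar x ∈ F.X
    · simpa using F.T_bar (hX _ h2).1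
    · simp [T, ind, h1, h2, key x h1 h2]
  · by_cases h1 : x ∈ F.X
    · exact (hX x h1).2.imp id fun h => ⟨h1, h⟩
    by_cases h2 : bar x ∈ F.X
    · rcases (hX _ h2).2 with h3 | h3
      · rw [up_bar, lt_bar, map_inv, ln_inv] at h3
        exact .inl h3
      · exact absurd (by simpa using h3) h1
    · rw [key x h1 h2, ln_map_lt]
      exact .inl (h.pos hx)

/-- The top letters of the image of a letter. -/
noncomputable def core (x : G.E × Bool) : List (Option G.E × Bool) :=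
  (if x ∈ F.X then [(none, true)] else []) ++ up x :: if bar x ∈ F.X then [(none, false)] else []

lemma core_red (x : G.E × Bool) : IsReduced (F.core x) := by
  unfold core
  split_ifs <;> simp [FreeGroup.IsReduced, up]

lemma ln_low (h : G.IsMd φ n) {c : FreeGroup G.E} (hc : ln G.H c = 0) :
    ln F.H' (FreeGroup.map some c) = 0 := by
  rw [← F.p_low hc]
  exact ln_map_zero F.p (F.p_inv h) hc

lemma p_core (h : G.IsMd φ n) (x : G.E × Bool) : ∃ B, ln F.H' B = 0 ∧ F.p (lt x) =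
    (if x ∈ F.X then (FreeGroup.map some (F.c x))⁻¹ else 1) * (FreeGroup.mk (F.core x) * B) := by
  refine ⟨if bar x ∈ F.X then FreeGroup.map some (F.c (bar x)) else 1, ?_, ?_⟩
  · split_ifs with h1
    exacts [F.ln_low h (F.low _ h1), ln_one _]
  · rw [p_lt, pre, pre, core]
    split_ifs <;> simp only [List.cons_append, List.nil_append, mk_cons, ← one_eq_mk, lt_true,
      lt_false] <;> group

lemma cnt_p (h : G.IsMd φ n) (x : G.E × Bool) {a : Option G.E} (ha : a ∈ F.H') :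
    cnt a (F.p (lt x)) = cnt a (FreeGroup.mk (F.core x)) := by
  obtain ⟨B, h1, h2⟩ := F.p_core h x
  rw [h2, cnt_mul_left, cnt_mul_right (ln_eq_zero.1 h1 a ha)]
  split_ifs with h3
  · rw [cnt_inv]; exact ln_eq_zero.1 (F.ln_low h (F.low _ h3)) a ha
  · exact cnt_one _

lemma cnt_none (h : G.IsMd φ n) (x : G.E × Bool) :
    cnt none (F.p (lt x)) = F.ind x + F.ind (bar x) := by
  rw [F.cnt_p h x F.none_mem, cnt_mk (F.core_red x), core, ind, ind]
  split_ifs <;> simp [up]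

lemma cnt_some (h : G.IsMd φ n) (x : G.E × Bool) {e : G.E} (he : some e ∈ F.H') :
    cnt (some e) (F.p (lt x)) = if x.1 = e then 1 else 0 := by
  rw [F.cnt_p h x he, cnt_mk (F.core_red x), core]
  split_ifs with h1 h2 h3 h4 h5 h6 h7 <;> simp [up, *]

lemma ln_core_pos {x : G.E × Bool} (hx : x ∈ F.X ∨ some x.1 ∈ F.H') :
    0 < ln F.H' (FreeGroup.mk (F.core x)) := by
  rcases hx with h | h
  · exact ln_mk_pos (x := (none, true)) (F.core_red x) (by simp [core, h]) F.none_mem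
  · exact ln_mk_pos (x := up x) (F.core_red x) (by simp [core]) h

lemma dir_p_mem (h : G.IsMd φ n) {x : G.E × Bool} (hx : x ∈ F.X) :
    dir F.H' (F.p (lt x)) = (FreeGroup.map some (F.c x))⁻¹ * of none := by
  obtain ⟨B, h1, h2⟩ := F.p_core h x
  rw [h2, if_pos hx, dir_left (by rw [ln_inv]; exact F.ln_low h (F.low _ hx)),
    dir_right h1 (F.ln_core_pos (.inl hx)),
    dir_mk (x := (none, true)) (F.core_red x) (by simp [core, hx]) F.none_mem, lt_true]

lemma dir_p_not (h : G.IsMd φ n) {x : G.E × Bool} (hx : x ∉ F.X) (hx' : some x.1 ∈ F.H') :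
    dir F.H' (F.p (lt x)) = lt (up x) := by
  obtain ⟨B, h1, h2⟩ := F.p_core h x
  rw [h2, if_neg hx, one_mul, dir_right h1 (F.ln_core_pos (.inr hx')),
    dir_mk (x := up x) (F.core_red x) (by simp [core, hx]) hx']

variable {F}

lemma Ok.tight_g (o : F.Ok) (h : G.IsMd φ n) (e : G.E) (he : e ∈ G.H) :
    Tight F.H' G.H F.g (F.p (of e)) := by
  unfold Tight
  rw [g_p, Finset.sum_subset (Finset.subset_univ _) fun a _ ha => by rw [F.g_inv a ha, mul_zero],
    Fintype.sum_option, g_none, ← lt_true e, o.tight (e, true) he, F.cnt_none h,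
    Finset.sum_eq_single e _ (by simp)]
  · congr 1
    by_cases h1 : some e ∈ F.H'
    · rw [F.cnt_some h _ h1, if_pos rfl, one_mul]; rfl
    · rw [F.g_inv _ h1, mul_zero]; exact F.g_inv _ h1
  · intro b _ hb
    by_cases h1 : some b ∈ F.H'
    · rw [F.cnt_some h _ h1, if_neg hb.symm, zero_mul]
    · rw [F.g_inv _ h1, mul_zero]

/-- The product matrix. -/
noncomputable def PQ (F : FD G) (a b : Option G.E) : ℕ :=
  ∑ i ∈ G.H, cnt a (F.p (of i)) * cnt i (F.g (of b))

lemma Ok.fact (o : F.Ok) (hF : S_FACTM) (h : G.Inv φ n c) : Irr F.H' F.PQ ∧ SubInv F.H' F.PQ c := by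
  refine hF _ _ G.H F.H' G.M (fun a j => cnt a (F.p (of j))) (fun i a => cnt i (F.g (of a))) c
    (fun i hi j hj => ?_) (fun a ha => ?_) (fun a ha => ?_) h.irr h.sub
  · rw [Gr.M, ← F.g_p, (o.tight_g h.md j hj).cnt_eq F.g_inv hi]
    exact Finset.sum_congr rfl fun a _ => mul_comm _ _
  · cases a with
    | none =>
      refine ⟨F.x₀.1, F.mem _ F.hx₀, ?_⟩
      rw [← cnt_map_lt, F.cnt_none h.md, ind, if_pos F.hx₀]; omega
    | some e =>
      refine ⟨e, F.mem_of_some h.md ha, ?_⟩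
      rw [← lt_true, F.cnt_some h.md _ ha, if_pos rfl]; omega
  · by_contra h0
    have := F.mem_H'.1 ha
    rw [ln_eq_zero.2 fun i hi => Nat.eq_zero_of_not_pos fun h1 => h0 ⟨i, hi, h1⟩] at this
    omega

lemma M_le (F : FD G) (h : G.IsMd φ n) {a : Option G.E} (ha : a ∈ F.H') (b : Option G.E) :
    F.gr.M a b ≤ F.PQ a b :=
  (cnt_map_le F.p (fun e he => ln_eq_zero.1 (F.p_inv h e he) a ha) (F.g (of b))).trans_eq
    (Finset.sum_congr rfl fun _ _ => mul_comm _ _)

lemma src'_eq (F : FD G) {x : G.E × Bool} (hx : G.src x ≠ F.v) :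
    F.src' (up x) = some (G.src x) := by rw [src'_up, if_neg fun h => hx (F.src x h)]

lemma up_inj {E : Type} {x y : E × Bool} (h : up x = up y) : x = y := by
  simp only [up, Prod.mk.injEq, Option.some.injEq] at h
  exact Prod.ext h.1 h.2

lemma two_some (F : FD G) {w : G.V} (hw : w ≠ F.v) (h : G.Two w) : F.gr.Two (some w) := by
  obtain ⟨x, y, hxy, rfl, hy⟩ := h
  exact ⟨up x, up y, fun e => hxy (up_inj e), F.src'_eq hw,
    (F.src'_eq (hy ▸ hw)).trans (congrArg some hy)⟩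

lemma two (F : FD G) (h : ∀ w, G.Two w) (hy : ∃ y, G.src y = F.v ∧ y ∉ F.X) (a : Option G.V) :
    F.gr.Two a := by
  cases a with
  | none => exact ⟨(none, false), up F.x₀, by simp [up], rfl, if_pos F.hx₀⟩
  | some w =>
    by_cases hw : w = F.v
    · obtain ⟨y, h1, h2⟩ := hy
      exact ⟨(none, true), up y, by simp [up], congrArg some hw.symm,
        (if_neg h2).trans (congrArg some (h1.trans hw.symm))⟩
    · exact F.two_some hw (h w)

lemma Ok.loops (o : F.Ok) (h : G.Loops) : F.gr.Loops := by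
  intro a ha
  induction a using letter_cases with
  | h1 => exact absurd F.none_mem ha
  | h2 => exact absurd F.none_mem ha
  | h3 x =>
    show F.src' (up (bar x)) = F.src' (up x)
    rw [src'_up, src'_up]
    by_cases hx : x.1 ∈ G.H
    · rcases o.rest x hx with h1 | ⟨h1, h2⟩
      · exact absurd (F.mem_up.2 h1) ha
      · rw [if_pos h1, if_pos h2]
    · rw [if_neg (F.not_mem hx), if_neg (F.not_mem (x := bar x) hx), h x hx]

/-- A fold that leaves an end at `v`. -/
theorem Ok.step (o : F.Ok) (hS : S_SPREAD) (hF : S_FACTM) (h : G.Inv φ n c)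
    (hy : ∃ y, G.src y = F.v ∧ y ∉ F.X) : Good φ n c ∨
      (F.gr.Inv φ n c ∧ ∀ b ∈ F.H', Tight G.H F.H' F.p (F.g (of b))) := by
  obtain ⟨h1, h2⟩ := o.fact hF h
  by_cases hlt : ∃ a ∈ F.H', ∃ b ∈ F.H', F.gr.M a b < F.PQ a b
  · obtain ⟨c', k1, k2⟩ := hS _ _ _ _ c h1 (fun a ha b _ => F.M_le h.md ha b) hlt h2
    exact .inl ⟨F.gr, c', k1, F.isMd h.md, ⟨_, F.none_mem⟩, F.two h.two hy, k2⟩
  · have e : ∀ a ∈ F.H', ∀ b ∈ F.H', F.gr.M a b = F.PQ a b := fun a ha b hb =>
      le_antisymm (F.M_le h.md ha b) (not_lt.1 fun h0 => hlt ⟨a, ha, b, hb, h0⟩)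
    exact .inr ⟨⟨F.isMd h.md, o.loops h.loops, F.two h.two hy, h1.congr e, h2.congr e,
      ⟨_, F.none_mem⟩⟩, fun b hb => tight_of_cnt fun a ha =>
        (e a ha b hb).trans (Finset.sum_congr rfl fun _ _ => mul_comm _ _)⟩

/-- A fold that creates a vertex of valence one. -/
theorem Ok.hair (o : F.Ok) (hS : S_SPREAD) (hF : S_FACTM) (hC : S_CMOVE) (h : G.Inv φ n c)
    (hy : ∀ y, G.src y = F.v → y ∈ F.X) {e : G.E} (he : some e ∈ F.H') : Good φ n c := by
  obtain ⟨h1, h2⟩ := o.fact hF h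
  have hv : ∀ x, F.src' (up x) ≠ some F.v := fun x hx => by
    rw [src'_up] at hx
    split_ifs at hx with h0
    exact h0 (hy x (Option.some.inj hx))
  obtain ⟨c', k1, k2⟩ := hS _ _ _ (fun a b => if b = none then 0 else F.gr.M a b) c h1
    (fun a ha b _ => by
      split_ifs
      exacts [Nat.zero_le _, F.M_le h.md ha b])
    (by
      obtain ⟨a, -, ha, -, h0⟩ := Relation.TransGen.tail'_iff.1 (h1 _ F.none_mem _ F.none_mem)
      exact ⟨a, ha, none, F.none_mem, by rwa [if_pos rfl]⟩) h2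
  obtain ⟨G', g1, g2, g3, -, g5⟩ := hC N φ n F.gr (none, true) c' (F.isMd h.md) (by simp [src'])
    (.inr fun a ha => by
      induction a using letter_cases with
      | h1 => exact absurd F.none_mem ha
      | h2 => exact absurd F.none_mem ha
      | h3 x => exact hv x)
    (fun a h1 h2 => by
      cases a with
      | none => exact absurd rfl h2
      | some a => exact F.two_some (fun e => h1 (congrArg some e)) (h.two a))
    (by
      obtain ⟨x, y, hxy, hx, hy'⟩ := h.two F.v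
      exact ⟨up x, up y, fun e => hxy (up_inj e), by simp [up], by simp [up],
        .inr (if_pos (hy x hx)), .inr (if_pos (hy y hy'))⟩)
    (k2.mono (fun i hi => (mem_erase'.1 hi).2) fun i _ j hj => by
      obtain ⟨j, rfl⟩ := Option.ne_none_iff_exists'.1 (mem_erase'.1 hj).1
      have : F.gr.ends (F.gr.src (none, true)) (some j) = 0 := by
        have a1 := hv (j, true)
        have a2 := hv (j, false)
        exact Nat.add_eq_zero_iff.2 ⟨if_neg a1, if_neg a2⟩
      simp [this])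
  refine ⟨G', c', k1, g1, ?_, g2, g5⟩
  rw [← Finset.card_pos, g3, Finset.card_pos]
  exact ⟨some e, mem_erase'.2 ⟨by simp, he⟩⟩

/-- The fold on directions. -/
noncomputable def Dp (F : FD G) (w : FreeGroup G.E) : FreeGroup (Option G.E) := dir F.H' (F.p w)

lemma p_pos (F : FD G) (h : G.Inv φ n c) (e : G.E) (he : e ∈ G.H) : 0 < ln F.H' (F.p (of e)) := by
  by_contra h0
  have := ln_map_zero F.g F.g_inv (Nat.eq_zero_of_not_pos h0)
  rw [g_p] at this
  exact (h.pos he).ne' this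

lemma ln_Dp (F : FD G) (h : G.Inv φ n c) {w : FreeGroup G.E} (hw : ln G.H w = 1) :
    ln F.H' (F.Dp w) = 1 := ln_dir (pos_of_one (F.p_inv h.md) (F.p_pos h) hw)

lemma Ok.dir_g (o : F.Ok) (h : G.Inv φ n c) {w : FreeGroup G.E} (hw : ln G.H w = 1) :
    dir G.H (F.g (F.Dp w)) = G.D w := by
  rw [Gr.D, ← F.g_p, Dp]
  exact ((Tight.of_one (F.p_inv h.md) F.g_inv (o.tight_g h.md) hw).dir_map F.g_inv
    fun a ha => F.mem_H'.1 ha).symm

lemma D_gr (h : G.Inv φ n c) (ht : ∀ b ∈ F.H', Tight G.H F.H' F.p (F.g (of b)))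
    {w : FreeGroup (Option G.E)} (hw : ln F.H' w = 1) : F.gr.D w = F.Dp (dir G.H (F.g w)) :=
  (Tight.of_one F.g_inv (F.p_inv h.md) ht hw).dir_map (F.p_inv h.md) (F.p_pos h)

lemma Ok.comm (o : F.Ok) (h : G.Inv φ n c) (ht : ∀ b ∈ F.H', Tight G.H F.H' F.p (F.g (of b)))
    (k : ℕ) {w : FreeGroup G.E} (hw : ln G.H w = 1) :
    F.gr.D^[k] (F.Dp w) = F.Dp (G.D^[k] w) := by
  induction k with
  | zero => rfl
  | succ k ih =>
    have := h.ln_D_iter k hw
    rw [Function.iterate_succ_apply', Function.iterate_succ_apply', ih,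
      D_gr h ht (F.ln_Dp h this), o.dir_g h this]

lemma Ok.long (o : F.Ok) (h : G.Inv φ n c) (ht : ∀ b ∈ F.H', Tight G.H F.H' F.p (F.g (of b)))
    {w : FreeGroup G.E} (hw : ln G.H w = 1) {i : G.E} (hi : i ∈ G.H) (h1 : 0 < cnt i (G.D w))
    (h2 : 2 ≤ ln F.H' (F.p (of i))) : 2 ≤ ln F.H' (F.gr.Φ (F.Dp w)) :=
  h2.trans ((Tight.of_one F.g_inv (F.p_inv h.md) ht (F.ln_Dp h hw)).le hi
    (h1.trans_le (by rw [← o.dir_g h hw]; exact cnt_dir_le hi)))

end FD

end Pool.Agent.P.MP_67c9d4_al.PG
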