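import Pool.Agent.P.MP_67c9d4_al.PG.F2

/-! Following a vertex of valence two through a sequence of folds. -/

set_option autoImplicit false

namespace Pool.Agent.P.MP_67c9d4_al.PG

open Classical
open FreeGroup hiding map_mul map_inv map_one

/-- `x` and `y` are the two ends at a vertex of valence two. -/
structure Trk (G : Gr) (x y : G.E × Bool) : Prop where
  hx : x.1 ∈ G.H
  hy : y.1 ∈ G.H
  ne : x.1 ≠ y.1
  src : G.src y = G.src x
  all : ∀ z, G.src z = G.src x → z = x ∨ z = y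

variable {G : Gr} {N : Type} [Group N] {φ : MulAut N} {n : ℕ} {c : ℝ} {x y : G.E × Bool}

lemma Trk.symm (h : Trk G x y) : Trk G y x :=
  ⟨h.hy, h.hx, h.ne.symm, h.src.symm, fun z hz => (h.all z (hz.trans h.src)).symm⟩

lemma Trk.ln (h : Trk G x y) : ln G.H (lt x) = 1 := by rw [ln_lt, if_pos h.hx]

namespace FD

variable {F : FD G}

/-- The image of an end at the vertex of valence two. -/
noncomputable def tr (F : FD G) (x : G.E × Bool) : Option G.E × Bool :=
  if x ∈ F.X then (none, true) else up x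

lemma Ok.some_mem (o : F.Ok) (h : Trk G x y) : some x.1 ∈ F.H' := by
  refine F.mem_up.2 ((o.rest x h.hx).resolve_right fun ⟨h1, h2⟩ => ?_)
  rcases h.all (bar x) ((F.src _ h2).trans (F.src _ h1).symm) with e | e
  · exact bar_ne x e
  · exact h.ne ((bar_fst x).symm.trans (congrArg Prod.fst e))

lemma Ok.tr_mem (o : F.Ok) (h : Trk G x y) : (F.tr x).1 ∈ F.H' := by
  unfold tr
  split_ifs
  exacts [F.none_mem, o.some_mem h]

lemma src_tr (F : FD G) (x : G.E × Bool) : F.src' (F.tr x) = some (G.src x) := by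
  unfold tr
  split_ifs with h
  exacts [congrArg some (F.src x h).symm, if_neg h]

lemma Ok.Dp_tr (o : F.Ok) (hG : G.IsMd φ n) (h : Trk G x y) : F.Dp (lt x) = lt (F.tr x) := by
  unfold tr Dp
  split_ifs with h1
  · rw [F.dir_p_mem hG h1, (F.loop x h1).eq_one (F.low x h1) fun z hz => by
      rcases h.all z (hz.trans (F.src x h1).symm) with rfl | rfl
      exacts [h.hx, h.hy]]
    simp [lt_true]
  · exact F.dir_p_not hG h1 (o.some_mem h)

lemma Ok.trk (o : F.Ok) (h : Trk G x y) (hn : ¬(x ∈ F.X ∧ y ∈ F.X)) :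
    Trk F.gr (F.tr x) (F.tr y) where
  hx := o.tr_mem h
  hy := o.tr_mem h.symm
  ne := by
    unfold tr
    split_ifs with h1 h2 h2
    · exact absurd ⟨h1, h2⟩ hn
    · simp [up]
    · simp [up]
    · simpa [up] using h.ne
  src := (F.src_tr y).trans ((congrArg some h.src).trans (F.src_tr x).symm)
  all a ha := by
    replace ha : F.src' a = some (G.src x) := ha.trans (F.src_tr x)
    induction a using letter_cases with
    | h1 =>
      have e : F.tr F.x₀ = (none, true) := if_pos F.hx₀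
      rcases h.all F.x₀ ((F.src _ F.hx₀).trans (Option.some.inj ha)) with e1 | e1
      · exact .inl (by rw [← e1, e])
      · exact .inr (by rw [← e1, e])
    | h2 => exact absurd ha (by simp [src'])
    | h3 z =>
      rw [src'_up] at ha
      split_ifs at ha with hz
      have e : F.tr z = up z := if_neg hz
      rcases h.all z (Option.some.inj ha) with rfl | rfl
      exacts [.inl e.symm, .inr e.symm]

/-- One fold, with the vertex of valence two followed. -/
theorem Ok.follow (o : F.Ok) (hS : S_SPREAD) (hF : S_FACTM) (hC : S_CMOVE) (hG : G.Inv φ n c)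
    (h : Trk G x y) : Good φ n c ∨ (F.gr.Inv φ n c ∧
      (∀ b ∈ F.H', Tight G.H F.H' F.p (F.g (of b))) ∧ Trk F.gr (F.tr x) (F.tr y)) := by
  by_cases hy : ∃ z, G.src z = F.v ∧ z ∉ F.X
  · refine (o.step hS hF hG hy).imp id fun ⟨h1, h2⟩ => ⟨h1, h2, o.trk h fun ⟨k1, k2⟩ => ?_⟩
    obtain ⟨z, hz, hz'⟩ := hy
    rcases h.all z (hz.trans (F.src x k1).symm) with rfl | rfl
    exacts [hz' k1, hz' k2]
  · exact .inl (o.hair hS hF hC hG (fun z hz => by_contra fun h0 => hy ⟨z, hz, h0⟩)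
      (o.some_mem h))

/-- Folds along the common first direction of long letters. -/
lemma ok_dir (F : FD G) (hG : G.Inv φ n c) (h1 : ln G.H F.u = 1)
    (h : ∀ z ∈ F.X, G.D (F.c z * lt z) = F.u ∧ 2 ≤ ln G.H (G.Φ (lt z))) : F.Ok := by
  refine F.ok_of hG fun z hz => ?_
  obtain ⟨k1, k2⟩ := h z hz
  have l1 := hG.md.ln_zero (F.low z hz)
  have l2 : ln G.H (G.Φ (F.c z * lt z)) = ln G.H (G.Φ (lt z)) := by rw [map_mul, ln_mul_left l1]
  rw [T, g_lt, h1, ind, ind, gp, gp, if_pos hz, if_pos hz]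
  by_cases hb : bar z ∈ F.X
  · rw [if_pos hb, if_pos hb]
    refine ⟨?_, .inr hb⟩
    have l3 := hG.md.ln_zero (F.low _ hb)
    obtain ⟨k3, k4⟩ := h _ hb
    have l4 : ln G.H (G.Φ (F.c (bar z)))⁻¹ = 0 := by rwa [ln_inv]
    have := strip2 (H := G.H) (w := G.Φ (F.c z * lt z) * (G.Φ (F.c (bar z)))⁻¹)
      (by rw [ln_mul_right l4]; omega)
    rw [dir_right l4 (by omega), ln_mul_right l4, l2] at this
    have e : (G.Φ (F.c z * lt z) * (G.Φ (F.c (bar z)))⁻¹)⁻¹ =
        G.Φ (F.c (bar z) * lt (bar z)) * (G.Φ (F.c z))⁻¹ := by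
      simp [lt_bar, mul_assoc]
    rw [e, dir_right (by rwa [ln_inv]) (by rw [map_mul, ln_mul_left l3]; omega)] at this
    rw [Gr.D] at k1 k3
    rw [k1, k3] at this
    rw [← this, add_comm]
    congr 2
    simp [mul_assoc]
  · rw [if_neg hb, if_neg hb]
    have := dir_tight (H := G.H) (w := G.Φ (F.c z * lt z)) (by omega)
    rw [Gr.D] at k1
    rw [k1, l2] at this
    have e : ((G.Φ (F.c z))⁻¹ * F.u)⁻¹ * G.Φ (lt z) * 1 = F.u⁻¹ * G.Φ (F.c z * lt z) := by
      simp [mul_assoc]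
    rw [e]
    exact ⟨by omega, .inl (by omega)⟩

end FD

lemma Gr.dir_D_iter (k : ℕ) (hx : x.1 ∈ G.H) : dir G.H (G.D^[k] (lt x)) = G.D^[k] (lt x) := by
  cases k with
  | zero => exact dir_lt hx
  | succ k => rw [Function.iterate_succ_apply', Gr.D, dir_dir]

/-- The iterated directions are germs. -/
lemma Gr.Inv.germ (hG : G.Inv φ n c) (k : ℕ) (hx : x.1 ∈ G.H) : ∃ a z, ln G.H a = 0 ∧ z.1 ∈ G.H ∧
    G.src z = G.fv^[k] (G.src x) ∧ Pa G.src (G.src z) (G.src z) a ∧
      G.D^[k] (lt x) = a * lt z := by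
  obtain ⟨t, ht⟩ := hG.md.pa_D_iter k (pa_lt G.src x)
  obtain ⟨a, z, h1, h2, h3, h4, h5, -⟩ := ht.dir_spec hG.loops
    (by rw [hG.ln_D_iter k (by rw [ln_lt, if_pos hx])]; omega)
  exact ⟨a, z, h1, h2, h3, h3 ▸ h4, by rw [← h5, Gr.dir_D_iter k hx]⟩

/-- Subdivision makes the preceding directions long. -/
theorem sub_step (hS : S_SPREAD) (hF : S_FACTM) (hC : S_CMOVE) (hG : G.Inv φ n c) (h : Trk G x y)
    (m : ℕ) (hl : 2 ≤ ln G.H (G.Φ (G.D^[m + 1] (lt x)))) : Good φ n c ∨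
      ∃ (G' : Gr) (x' y' : G'.E × Bool), G'.Inv φ n c ∧ Trk G' x' y' ∧
        (∀ k, G.D^[k] (lt x) = G.D^[k] (lt y) → G'.D^[k] (lt x') = G'.D^[k] (lt y')) ∧
        2 ≤ ln G'.H (G'.Φ (G'.D^[m] (lt x'))) ∧ (G.D^[m + 1] (lt x) = G.D^[m + 1] (lt y) →
          2 ≤ ln G'.H (G'.Φ (G'.D^[m] (lt y')))) := by
  obtain ⟨a, z, h1, h2, -, -, h5⟩ := hG.germ (m + 1) h.hx
  rw [h5, map_mul, ln_mul_left (hG.md.ln_zero h1)] at hl
  obtain ⟨t, ht⟩ := hG.md.pa_D (pa_lt G.src z)
  have hu : ln G.H (G.D (lt z)) = 1 := hG.ln_D (by rw [ln_lt, if_pos h2])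
  let F : FD G := ⟨G.src z, t, {z}, fun _ => 1, G.D (lt z), z, rfl, by simpa using h2, by simp,
    by simp, fun _ _ => .one _, ht, by omega⟩
  have o : F.Ok := F.ok_dir hG hu fun v hv => by
    rw [show v = z from hv]
    exact ⟨by simp [F], hl⟩
  refine (o.follow hS hF hC hG h).imp id fun ⟨k1, k2, k3⟩ => ⟨F.gr, _, _, k1, k3, ?_⟩
  have cx := fun k => o.comm hG k2 k h.ln
  have cy := fun k => o.comm hG k2 k h.symm.ln
  rw [o.Dp_tr hG.md h] at cx
  rw [o.Dp_tr hG.md h.symm] at cy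
  have hz : some z.1 ∈ F.H' := F.mem_up.2 ((o.rest z h2).resolve_right fun h0 => bar_ne z h0.2)
  have h6 : 2 ≤ ln F.H' (F.p (of z.1)) := by
    rw [← ln_map_lt]
    have e1 := F.cnt_none hG.md z
    have e2 := F.cnt_some hG.md z hz
    rw [FD.ind, if_pos (show z ∈ F.X from rfl)] at e1
    rw [if_pos rfl] at e2
    have : ∑ i ∈ {none, some z.1}, cnt i (F.p (lt z)) ≤ ln F.H' (F.p (lt z)) :=
      Finset.sum_le_sum_of_subset (by
        intro i hi
        rcases Finset.mem_insert.1 hi with rfl | hi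
        · exact F.none_mem
        · rwa [Finset.mem_singleton.1 hi])
    rw [Finset.sum_pair (by simp)] at this
    omega
  have h7 : 0 < cnt z.1 (G.D^[m + 1] (lt x)) := by
    rw [h5, cnt_mul_left (ln_eq_zero.1 h1 _ h2), cnt_lt, if_pos rfl]; omega
  refine ⟨fun k hk => by rw [cx, cy, hk], ?_, fun e => ?_⟩
  · rw [cx]
    exact o.long hG k2 (hG.ln_D_iter m h.ln) h2 (by rwa [Function.iterate_succ_apply'] at h7) h6
  · rw [cy]
    exact o.long hG k2 (hG.ln_D_iter m h.symm.ln) h2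
      (by rwa [e, Function.iterate_succ_apply'] at h7) h6

/-- Folding two long directions with the same image. -/
theorem fold_step (hS : S_SPREAD) (hF : S_FACTM) (hC : S_CMOVE) (hG : G.Inv φ n c) (h : Trk G x y)
    (k : ℕ) (hne : G.D^[k] (lt x) ≠ G.D^[k] (lt y))
    (he : G.D^[k + 1] (lt x) = G.D^[k + 1] (lt y)) (hx : 2 ≤ ln G.H (G.Φ (G.D^[k] (lt x))))
    (hy : 2 ≤ ln G.H (G.Φ (G.D^[k] (lt y)))) : Good φ n c ∨
      ∃ (G' : Gr) (x' y' : G'.E × Bool), G'.Inv φ n c ∧ Trk G' x' y' ∧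
        G'.D^[k] (lt x') = G'.D^[k] (lt y') := by
  obtain ⟨a, z, h1, h2, h3, h4, h5⟩ := hG.germ k h.hx
  obtain ⟨b, w, k1, k2, k3, k4, k5⟩ := hG.germ k h.hy
  have hs : G.src w = G.src z := by rw [h3, k3, h.src]
  rw [Function.iterate_succ_apply', Function.iterate_succ_apply', h5, k5] at he
  rw [h5, map_mul, ln_mul_left (hG.md.ln_zero h1)] at hx
  rw [k5, map_mul, ln_mul_left (hG.md.ln_zero k1)] at hy
  have hzw : w ≠ z := by
    rintro rfl
    rw [hG.md.D_left h1, hG.md.D_left k1, mul_left_inj] at he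
    exact hne (by rw [h5, k5, hG.md.inj' h4 k4 he])
  obtain ⟨t, ht⟩ := hG.md.pa_D (h4.mul (pa_lt G.src z))
  have hu : ln G.H (G.D (a * lt z)) = 1 := hG.ln_D (ln_germ h1 h2)
  let F : FD G := ⟨G.src z, t, {z, w}, fun v => if v = z then a else b, G.D (a * lt z), z,
    .inl rfl, by rintro _ (rfl | rfl); exacts [h2, k2], by rintro _ (rfl | rfl); exacts [rfl, hs],
    fun v _ => by split_ifs; exacts [h1, k1], fun v _ => by split_ifs; exacts [h4, hs ▸ k4],
    ht, by omega⟩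
  have cz : F.c z = a := if_pos rfl
  have cw : F.c w = b := if_neg hzw
  have o : F.Ok := F.ok_dir hG hu fun v hv => by
    rcases hv with e | e
    · rw [e]; exact ⟨by rw [cz], hx⟩
    · rw [show v = w from e]; exact ⟨by rw [cw]; exact he.symm, hy⟩
  refine (o.follow hS hF hC hG h).imp id fun ⟨g1, g2, g3⟩ => ⟨F.gr, _, _, g1, g3, ?_⟩
  have key : ∀ v ∈ F.X, F.Dp (F.c v * lt v) = of none := fun v hv => by
    rw [FD.Dp, map_mul, F.p_low (F.low v hv), dir_left (F.ln_low hG.md (F.low v hv)),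
      F.dir_p_mem hG.md hv, mul_inv_cancel_left]
  rw [← o.Dp_tr hG.md h, ← o.Dp_tr hG.md h.symm, o.comm hG g2 k h.ln, o.comm hG g2 k h.symm.ln,
    h5, k5, ← cz, key z (.inl rfl), ← cw, key w (.inr rfl)]

/-- Orbits of directions meet long letters. -/
lemma Gr.Inv.long (hG : G.Inv φ n c) (hs : ¬G.Short) {w : FreeGroup G.E} (hw : ln G.H w = 1) :
    ∃ j, 2 ≤ ln G.H (G.Φ (G.D^[j] w)) := by
  by_contra h0
  have h1 : ∀ j, ln G.H (G.Φ (G.D^[j] w)) = 1 := fun j => by
    have := hG.pos_one (hG.ln_D_iter j hw)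
    have := not_le.1 fun h => h0 ⟨j, h⟩
    omega
  have h2 : ∀ j, ∀ i ∈ G.H, 0 < cnt i (G.D^[j] w) → ∃ a b, ln G.H a = 0 ∧ ln G.H b = 0 ∧
      ∃ z : G.E × Bool, z.1 = i ∧ G.Φ (G.D^[j] w) = a * G.Φ (lt z) * b := by
    intro j i hi h
    obtain ⟨a, z, b, k1, k2, k3, k4⟩ := ln_one_spec (hG.ln_D_iter j hw)
    rw [k4, cnt_mul_right (ln_eq_zero.1 k3 i hi), cnt_mul_left (ln_eq_zero.1 k1 i hi), cnt_lt] at h
    exact ⟨_, _, hG.md.ln_zero k1, hG.md.ln_zero k3, z, by_contra fun e => by simp [e] at h,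
      by rw [k4, map_mul, map_mul]⟩
  obtain ⟨a, z, b, k1, k2, k3, k4⟩ := ln_one_spec hw
  refine hs fun e he => ?_
  obtain ⟨j, hj⟩ : ∃ j, 0 < cnt e (G.D^[j] w) := by
    have step : ∀ i i', (i ∈ G.H ∧ i' ∈ G.H ∧ 0 < G.M i i') → (∃ j, 0 < cnt i' (G.D^[j] w)) →
        ∃ j, 0 < cnt i (G.D^[j] w) := by
      rintro i i' ⟨hi, hi', hm⟩ ⟨j, hj⟩
      obtain ⟨a, b, l1, l2, v, rfl, l3⟩ := h2 j i' hi' hj
      refine ⟨j + 1, ?_⟩
      have t := dir_tight (H := G.H) (w := G.Φ (G.D^[j] w)) (by rw [h1]; omega)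
      rw [h1] at t
      rw [Function.iterate_succ_apply', Gr.D, ← cnt_mul_right (ln_eq_zero.1 (by omega :
        ln G.H ((dir G.H (G.Φ (G.D^[j] w)))⁻¹ * G.Φ (G.D^[j] w)) = 0) i hi), mul_inv_cancel_left,
        l3, cnt_mul_right (ln_eq_zero.1 l2 i hi), cnt_mul_left (ln_eq_zero.1 l1 i hi), cnt_map_lt]
      exact hm
    have h3 : ∃ j, 0 < cnt z.1 (G.D^[j] w) := ⟨0, by
      rw [Function.iterate_zero_apply, k4, cnt_mul_right (ln_eq_zero.1 k3 _ k2),
        cnt_mul_left (ln_eq_zero.1 k1 _ k2), cnt_lt, if_pos rfl]; omega⟩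
    have := hG.irr e he z.1 k2
    clear he
    induction this using Relation.TransGen.head_induction_on with
    | single h => exact step _ _ h h3
    | head h _ ih => exact step _ _ h ih
  obtain ⟨a, b, l1, l2, v, rfl, l3⟩ := h2 j e he hj
  rw [← ln_map_lt, ← h1 j, l3, ln_mul_right l2, ln_mul_left l1]

/-- An illegal turn at a vertex of valence two. -/
theorem track (hS : S_SPREAD) (hF : S_FACTM) (hC : S_CMOVE) (k : ℕ) :
    ∀ (G : Gr) (x y : G.E × Bool), G.Inv φ n c → Trk G x y →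
      G.D^[k] (lt x) = G.D^[k] (lt y) → Good φ n c ∨ Perm φ n := by
  induction k with
  | zero => exact fun G x y _ h e => absurd (congrArg Prod.fst (lt_inj e)) h.ne
  | succ k ih =>
    have S : ∀ j, ∀ (G : Gr) (x y : G.E × Bool), G.Inv φ n c → Trk G x y →
        G.D^[k + 1] (lt x) = G.D^[k + 1] (lt y) →
        2 ≤ ln G.H (G.Φ (G.D^[k + j + 1] (lt x))) → Good φ n c ∨ Perm φ n := by
      intro j
      induction j with
      | zero =>
        intro G x y hG h e hl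
        rcases sub_step hS hF hC hG h k hl with g | ⟨G', x', y', g1, g2, g3, g4, g5⟩
        · exact .inl g
        by_cases e' : G'.D^[k] (lt x') = G'.D^[k] (lt y')
        · exact ih _ _ _ g1 g2 e'
        rcases fold_step hS hF hC g1 g2 k e' (g3 _ e) g4 (g5 e) with g | ⟨G'', _, _, l1, l2, l3⟩
        exacts [.inl g, ih _ _ _ l1 l2 l3]
      | succ j ihj =>
        intro G x y hG h e hl
        rcases sub_step hS hF hC hG h (k + j + 1) hl with g | ⟨G', x', y', g1, g2, g3, g4, -⟩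
        exacts [.inl g, ihj _ _ _ g1 g2 (g3 _ e) g4]
    intro G x y hG h e
    by_cases hs : G.Short
    · exact .inr ⟨G, c, hG, hs⟩
    obtain ⟨j, hj⟩ := hG.long hs (hG.ln_D_iter (k + 1) h.ln)
    rw [← Function.iterate_add_apply] at hj
    exact S j G x y hG h e (by rwa [show k + j + 1 = j + (k + 1) by omega])

end Pool.Agent.P.MP_67c9d4_al.PG
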