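import Pool.Agent.P.MP_67c9d4_al.PG.W

/-! Edge paths. -/

set_option autoImplicit false

namespace Pool.Agent.P.MP_67c9d4_al.PG

open Classical
open FreeGroup hiding map_mul map_inv map_one

variable {V E V' E' : Type} {src : E × Bool → V} {src' : E' × Bool → V'} {H : Finset E}

lemma Pa.mul {u v t : V} {a b : FreeGroup E} (ha : Pa src u v a) (hb : Pa src v t b) :
    Pa src u t (a * b) := by
  induction ha with
  | one v => rwa [one_mul]
  | cons x _ ih => rw [mul_assoc]; exact .cons x (ih hb)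

lemma pa_lt (src : E × Bool → V) (x : E × Bool) : Pa src (src x) (src (bar x)) (lt x) := by
  simpa using Pa.cons x (Pa.one (src := src) (src (bar x)))

lemma Pa.inv {u v : V} {a : FreeGroup E} (ha : Pa src u v a) : Pa src v u a⁻¹ := by
  induction ha with
  | one v => rw [inv_one]; exact .one v
  | cons x _ ih =>
    rw [mul_inv_rev, ← lt_bar]
    exact ih.mul (by simpa using pa_lt src (bar x))

lemma Pa.cast {u v u' v' : V} {a : FreeGroup E} (ha : Pa src u v a) (hu : u = u') (hv : v = v') :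
    Pa src u' v' a := hu ▸ hv ▸ ha

/-- Lists of consecutive letters. -/
def Ch (src : E × Bool → V) : V → V → List (E × Bool) → Prop
  | u, v, [] => u = v
  | u, v, x :: L => src x = u ∧ Ch src (src (bar x)) v L

lemma Ch.pa {L : List (E × Bool)} : ∀ {u v : V}, Ch src u v L → Pa src u v (mk L) := by
  induction L with
  | nil => rintro u v rfl; exact .one u
  | cons x L ih => rintro u v ⟨rfl, h⟩; rw [mk_cons]; exact .cons x (ih h)

lemma Pa.ch {u v : V} {a : FreeGroup E} (ha : Pa src u v a) : Ch src u v a.toWord := by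
  induction ha with
  | one v => exact rfl
  | @cons x v g _ ih =>
    rw [toWord_mul, toWord_lt, List.singleton_append, reduce.cons, reduce_toWord]
    cases h : g.toWord with
    | nil => rw [h] at ih; exact ⟨rfl, ih⟩
    | cons y L =>
      rw [h] at ih
      dsimp only
      split_ifs with hxy
      · obtain rfl : x = bar y := Prod.ext hxy.1 hxy.2
        exact ih.2
      · exact ⟨rfl, ih⟩

lemma ch_append {L K : List (E × Bool)} : ∀ {u v : V}, Ch src u v (L ++ K) →
    ∃ t, Ch src u t L ∧ Ch src t v K := by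
  induction L with
  | nil => exact fun {u v} h => ⟨u, rfl, h⟩
  | cons x L ih =>
    rintro u v ⟨rfl, h⟩
    obtain ⟨t, h1, h2⟩ := ih h
    exact ⟨t, ⟨rfl, h1⟩, h2⟩

lemma Ch.uniq {L : List (E × Bool)} : ∀ {u v v' : V}, Ch src u v L → Ch src u v' L → v = v' := by
  induction L with
  | nil => rintro u v v' rfl rfl; rfl
  | cons x L ih => exact fun h h' => ih h.2 h'.2

lemma Pa.uniq {u v v' : V} {a : FreeGroup E} (h : Pa src u v a) (h' : Pa src u v' a) : v = v' :=
  h.ch.uniq h'.ch

lemma Pa.uniq_left {u u' v : V} {a : FreeGroup E} (h : Pa src u v a) (h' : Pa src u' v a) :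
    u = u' := h.inv.uniq h'.inv

/-- A nontrivial path determines its ends. -/
lemma Pa.ends {u v u' v' : V} {a : FreeGroup E} (h : Pa src u v a) (h' : Pa src u' v' a)
    (ha : a ≠ 1) : u = u' ∧ v = v' := by
  have h1 := h.ch
  have h2 := h'.ch
  obtain rfl : u = u' := by
    cases e : a.toWord with
    | nil => exact absurd (toWord_eq_nil_iff.1 e) ha
    | cons x L => rw [e] at h1 h2; exact h1.1.symm.trans h2.1
  exact ⟨rfl, h.uniq h'⟩

lemma Pa.map (q : FreeGroup E →* FreeGroup E') (f : V → V')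
    (h : ∀ x, Pa src' (f (src x)) (f (src (bar x))) (q (lt x))) {u v : V} {w : FreeGroup E}
    (hw : Pa src u v w) : Pa src' (f u) (f v) (q w) := by
  induction hw with
  | one v => rw [map_one]; exact .one _
  | cons x _ ih => rw [map_mul]; exact (h x).mul ih

lemma Pa.conj {P : Type} [Group P] (q q' : FreeGroup E →* P) (θ : V → P)
    (h : ∀ x, q (lt x) = θ (src x) * q' (lt x) * (θ (src (bar x)))⁻¹) {u v : V} {w : FreeGroup E}
    (hw : Pa src u v w) : q w = θ u * q' w * (θ v)⁻¹ := by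
  induction hw with
  | one v => simp
  | cons x _ ih => rw [map_mul, map_mul, ih, h]; group

lemma Pa.closed (S : Set V) (hS : ∀ x, src x ∈ S → src (bar x) ∈ S) {u v : V} {w : FreeGroup E}
    (hw : Pa src u v w) (hu : u ∈ S) : v ∈ S := by
  induction hw with
  | one v => exact hu
  | cons x _ ih => exact ih (hS x hu)

lemma pa_all [Subsingleton V] (u v : V) (w : FreeGroup E) : Pa src u v w := by
  induction w using lt_induction with
  | h1 => exact (Pa.one u).cast rfl (Subsingleton.elim _ _)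
  | h2 x w ih =>
    exact ((pa_lt src x).cast (Subsingleton.elim _ _) (Subsingleton.elim _ _)).mul ih

lemma Ch.loop (hl : ∀ x : E × Bool, x.1 ∉ H → src (bar x) = src x) {L : List (E × Bool)} :
    ∀ {u v : V}, Ch src u v L → (∀ x ∈ L, x.1 ∉ H) → v = u ∧ ∀ x ∈ L, src x = u := by
  induction L with
  | nil => rintro u v rfl -; simp
  | cons x L ih =>
    rintro u v ⟨rfl, h⟩ hL
    rw [hl x (hL x (by simp))] at h
    obtain ⟨h1, h2⟩ := ih h fun y hy => hL y (by simp [hy])
    exact ⟨h1, by simpa using fun a b hab => h2 (a, b) hab⟩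

/-- A path without top letters is a loop, and all its letters start at its base point. -/
lemma Pa.loop (hl : ∀ x : E × Bool, x.1 ∉ H → src (bar x) = src x) {u v : V} {c : FreeGroup E}
    (h : Pa src u v c) (hc : ln H c = 0) : v = u ∧ ∀ x ∈ c.toWord, src x = u :=
  h.ch.loop hl (ln_eq_zero'.1 hc)

lemma Pa.eq_one {u v : V} {c : FreeGroup E} (h : Pa src u v c) (hc : ln H c = 0)
    (hu : ∀ x, src x = u → x.1 ∈ H) : c = 1 := by
  have h1 := h.ch
  cases e : c.toWord with
  | nil => exact toWord_eq_nil_iff.1 e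
  | cons x L =>
    rw [e] at h1
    exact absurd (hu x h1.1) (ln_eq_zero'.1 hc x (by simp [e]))

/-- The direction of a path is a path. -/
lemma Pa.dir_spec' {u v : V} {w : FreeGroup E} (h : Pa src u v w) (h0 : 0 < ln H w) :
    ∃ c x, ln H c = 0 ∧ x.1 ∈ H ∧ Pa src u (src x) c ∧ dir H w = c * lt x := by
  obtain ⟨L, x, K, h1, h2, h3, h4⟩ := dir_spec h0
  obtain ⟨t, k1, k2⟩ := ch_append (h1 ▸ h.ch)
  exact ⟨mk L, x, ln_mk_zero h2, h3, k1.pa.cast rfl k2.1.symm, h4⟩

lemma Pa.dir_spec (hl : ∀ x : E × Bool, x.1 ∉ H → src (bar x) = src x) {u v : V}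
    {w : FreeGroup E} (h : Pa src u v w) (h0 : 0 < ln H w) :
    ∃ c x, ln H c = 0 ∧ x.1 ∈ H ∧ src x = u ∧ Pa src u u c ∧ dir H w = c * lt x ∧
      Pa src (src (bar x)) v ((dir H w)⁻¹ * w) := by
  obtain ⟨c, x, h1, h2, h3, h4⟩ := h.dir_spec' h0
  have e := (h3.loop hl h1).1
  refine ⟨c, x, h1, h2, e, h3.cast rfl e, h4, ?_⟩
  rw [h4]
  exact (h3.mul (pa_lt src x)).inv.mul h

lemma Pa.dir {u v : V} {w : FreeGroup E} (h : Pa src u v w) : ∃ t, Pa src u t (dir H w) := by
  rcases Nat.eq_zero_or_pos (ln H w) with h0 | h0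
  · exact ⟨v, by rwa [dir_of_zero h0]⟩
  · obtain ⟨c, x, -, -, h3, h4⟩ := h.dir_spec' h0
    exact ⟨_, h4 ▸ h3.mul (pa_lt src x)⟩

/-- A path with one top letter. -/
lemma Pa.one_spec (hl : ∀ x : E × Bool, x.1 ∉ H → src (bar x) = src x) {u v : V}
    {w : FreeGroup E} (h : Pa src u v w) (h0 : ln H w = 1) :
    ∃ c x c', ln H c = 0 ∧ x.1 ∈ H ∧ ln H c' = 0 ∧ src x = u ∧ src (bar x) = v ∧
      Pa src u u c ∧ Pa src v v c' ∧ w = c * lt x * c' := by
  obtain ⟨c, x, h1, h2, h3, h4, h5, h6⟩ := h.dir_spec hl (by omega)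
  have t := dir_tight (H := H) (w := w) (by omega)
  have e := (h6.loop hl (by omega)).1
  exact ⟨c, x, _, h1, h2, by omega, h3, e.symm, h4, h6.cast e.symm rfl,
    by rw [← h5, mul_inv_cancel_left]⟩

/-- A word whose letters all lie in the range of `f` is in the range of `map f`. -/
lemma mem_range_map {A : Type} (f : A → E) {w : FreeGroup E}
    (h : ∀ x ∈ w.toWord, x.1 ∈ Set.range f) : ∃ a, FreeGroup.map f a = w := by
  rw [← mk_toWord (x := w)]
  generalize w.toWord = L at h
  induction L with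
  | nil => exact ⟨1, rfl⟩
  | cons x L ih =>
    obtain ⟨a, ha⟩ := ih fun y hy => h y (by simp [hy])
    obtain ⟨b, hb⟩ := h x (by simp)
    refine ⟨lt (b, x.2) * a, ?_⟩
    rw [map_mul, ha, mk_cons]
    congr 1
    simp [lt, hb]

end Pool.Agent.P.MP_67c9d4_al.PG
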