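import Pool.Agent.P.MP_67c9d4_al.PG.Iface

/-! Step SPREAD. -/

set_option autoImplicit false

namespace Pool.Agent.P.MP_67c9d4_al.PG

open Classical

namespace SPREADx

variable {E : Type}

lemma edge {r : E → E → Prop} {p : E → Prop} {a b : E} (h : Relation.TransGen r a b) (ha : ¬ p a)
    (hb : p b) : ∃ i j, r i j ∧ ¬ p i ∧ p j := by
  induction h with
  | single h => exact ⟨_, _, h, ha, hb⟩
  | @tail u v _ h ih =>
    by_cases hu : p u
    · exact ih hu
    · exact ⟨_, _, h, hu, hb⟩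

lemma row (H : Finset E) (f w : E → ℝ) {j : E} (hj : j ∈ H) (ε : ℝ) :
    ∑ a ∈ H, f a * (if a = j then w a - ε else w a) = ∑ a ∈ H, f a * w a - f j * ε := by
  have : ∀ a ∈ H, f a * (if a = j then w a - ε else w a) =
      f a * w a - (if a = j then f a * ε else 0) := by
    intro a _
    split_ifs <;> ring
  rw [Finset.sum_congr rfl this, Finset.sum_sub_distrib, Finset.sum_ite_eq' H j, if_pos hj]

lemma main (H : Finset E) (M M' : E → E → ℕ) (c : ℝ) (hI : Irr H M) : ∀ (n : ℕ) (w : E → ℝ),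
    (∀ i ∈ H, 0 < w i) → (∀ i ∈ H, ∑ j ∈ H, (M' i j : ℝ) * w j ≤ c * w i) →
    (∃ i ∈ H, ∑ j ∈ H, (M' i j : ℝ) * w j < c * w i) →
    (∀ i ∈ H, ¬ ∑ j ∈ H, (M' i j : ℝ) * w j < c * w i → ∀ j ∈ H, M' i j = M i j) →
    (H.filter fun i => ¬ ∑ j ∈ H, (M' i j : ℝ) * w j < c * w i).card ≤ n →
    ∃ w' : E → ℝ, (∀ i ∈ H, 0 < w' i) ∧ ∀ i ∈ H, ∑ j ∈ H, (M' i j : ℝ) * w' j < c * w' i := by
  intro n
  induction n with
  | zero =>
    intro w h0 _ _ _ hc
    refine ⟨w, h0, fun i hi => ?_⟩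
    by_contra h
    have : i ∈ H.filter fun i => ¬ ∑ j ∈ H, (M' i j : ℝ) * w j < c * w i :=
      Finset.mem_filter.2 ⟨hi, h⟩
    rw [Finset.card_eq_zero.1 (Nat.le_zero.1 hc)] at this
    simp at this
  | succ n ih =>
    intro w h0 h1 h2 h3 hc
    by_cases hall : ∀ i ∈ H, ∑ j ∈ H, (M' i j : ℝ) * w j < c * w i
    · exact ⟨w, h0, hall⟩
    push Not at hall
    obtain ⟨a, ha, ha'⟩ := hall
    obtain ⟨b, hb, hb'⟩ := h2
    obtain ⟨i, j, ⟨hi, hj, hij⟩, ni, sj⟩ := edge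
      (p := fun i => ∑ j ∈ H, (M' i j : ℝ) * w j < c * w i) (hI a ha b hb) (not_lt.2 ha') hb'
    have hne : i ≠ j := fun e => ni (e ▸ sj)
    have hM : (0 : ℝ) < M' i j := by
      rw [h3 i hi ni j hj]
      exact_mod_cast hij
    set g := c * w j - ∑ a ∈ H, (M' j a : ℝ) * w a with hg
    have g0 : 0 < g := sub_pos.2 sj
    have c0 : 0 < |c| + 1 := by positivity
    set ε := min (w j / 2) (g / (|c| + 1)) with hε
    have e0 : 0 < ε := lt_min (half_pos (h0 j hj)) (div_pos g0 c0)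
    have e1 : ε < w j := (min_le_left _ _).trans_lt (half_lt_self (h0 j hj))
    have e2 : c * ε < g := by
      have a1 : ε * (|c| + 1) ≤ g := (le_div_iff₀ c0).1 (min_le_right _ _)
      nlinarith [le_abs_self c]
    have keep : ∀ t ∈ H, ∑ a ∈ H, (M' t a : ℝ) * w a < c * w t →
        ∑ a ∈ H, (M' t a : ℝ) * (if a = j then w a - ε else w a) <
          c * (if t = j then w t - ε else w t) := by
      intro t _ h
      rw [row H _ w hj]
      have a1 : (0 : ℝ) ≤ M' t j * ε := by positivity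
      split_ifs with e
      · subst e
        nlinarith
      · linarith
    have newi : ∑ a ∈ H, (M' i a : ℝ) * (if a = j then w a - ε else w a) <
        c * (if i = j then w i - ε else w i) := by
      rw [row H _ w hj, if_neg hne]
      have := h1 i hi
      nlinarith
    refine ih (fun a => if a = j then w a - ε else w a) ?_ ?_ ⟨i, hi, newi⟩ ?_ ?_
    · intro t ht
      split_ifs with e
      · subst e
        linarith
      · exact h0 t ht
    · intro t ht
      by_cases e : t = j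
      · exact (keep t ht (e ▸ sj)).le
      · rw [row H _ w hj, if_neg e]
        have a1 : (0 : ℝ) ≤ M' t j * ε := by positivity
        linarith [h1 t ht]
    · exact fun t ht h => h3 t ht fun h' => h (keep t ht h')
    · refine Nat.le_of_lt_succ (lt_of_lt_of_le (Finset.card_lt_card ⟨fun t ht => ?_, fun h => ?_⟩) hc)
      · rw [Finset.mem_filter] at ht ⊢
        exact ⟨ht.1, fun h' => ht.2 (keep t ht.1 h')⟩
      · exact (Finset.mem_filter.1 (h (Finset.mem_filter.2 ⟨hi, ni⟩))).2 newi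

end SPREADx

theorem p_SPREAD :
    S_SPREAD := by
  rintro E H M M' c hI hle ⟨i0, hi0, j0, hj0, hlt⟩ ⟨w, h0, h1⟩
  have le1 : ∀ i ∈ H, ∀ j ∈ H, (M' i j : ℝ) * w j ≤ M i j * w j := fun i hi j hj =>
    mul_le_mul_of_nonneg_right (by exact_mod_cast hle i hi j hj) (h0 j hj).le
  have lt1 : ∀ i ∈ H, ∀ j ∈ H, M' i j < M i j → ∑ j ∈ H, (M' i j : ℝ) * w j < c * w i :=
    fun i hi j hj h => (Finset.sum_lt_sum (le1 i hi)
      ⟨j, hj, mul_lt_mul_of_pos_right (by exact_mod_cast h) (h0 j hj)⟩).trans_le (h1 i hi)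
  obtain ⟨w', p0, p1⟩ := SPREADx.main H M M' c hI _ w h0
    (fun i hi => (Finset.sum_le_sum (le1 i hi)).trans (h1 i hi)) ⟨i0, hi0, lt1 i0 hi0 j0 hj0 hlt⟩
    (fun i hi h j hj => le_antisymm (hle i hi j hj) (not_lt.1 fun h' => h (lt1 i hi j hj h'))) le_rfl
  obtain ⟨m, hm, hmax⟩ := H.exists_max_image (fun i => (∑ j ∈ H, (M' i j : ℝ) * w' j) / w' i)
    ⟨i0, hi0⟩
  exact ⟨_, (div_lt_iff₀ (p0 m hm)).2 (p1 m hm), w', p0,
    fun i hi => (div_le_iff₀ (p0 i hi)).1 (hmax i hi)⟩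

end Pool.Agent.P.MP_67c9d4_al.PG
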