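import Pool.Agent.P.MP_67c9d4_al.PG.Iface
import Pool.Agent.P.MP_67c9d4_al.PG.MD

/-! Step TT. -/

set_option autoImplicit false

namespace Pool.Agent.P.MP_67c9d4_al.PG

open Classical
open FreeGroup hiding map_mul map_inv map_one

namespace TTx

open Gr

variable {N : Type} [Group N] {φ : MulAut N} {n : ℕ} {G : Gr} {c : ℝ}

lemma dir_inv_mul {a b : FreeGroup G.E} (hb : 0 < ln G.H b)
    (h : ln G.H (a * b) = ln G.H a + ln G.H b) : dir G.H (a * b)⁻¹ = dir G.H b⁻¹ := by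
  rw [mul_inv_rev]
  refine dir_mul (by simpa using hb) ?_
  rw [← mul_inv_rev, ln_inv, ln_inv, ln_inv, h, add_comm]

lemma leg_inv {u v : G.V} {w : FreeGroup G.E} (h : G.Leg u v w) : G.Leg v u w⁻¹ := by
  induction h with
  | base h1 h2 => exact .base h1.inv (by simpa using h2)
  | mul _ _ h h1 h2 =>
    rw [mul_inv_rev]
    exact .mul h2 h1 (by rw [inv_inv]; exact h.symm)

lemma leg_left {t u v : G.V} {w d : FreeGroup G.E} (h : G.Leg u v w) (hd : Pa G.src t u d)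
    (h0 : ln G.H d = 0) : G.Leg t v (d * w) := by
  induction h with
  | base h1 h2 => exact .base (hd.mul h1) (by rw [ln_mul_left h0, h2])
  | mul ha hb h h1 _ =>
    rw [← mul_assoc]
    refine .mul (h1 hd) hb ?_
    rw [mul_inv_rev, dir_right (by simpa using h0) (by simpa using ha.pos)]
    exact h

lemma leg_right {t u v : G.V} {w d : FreeGroup G.E} (h : G.Leg u v w) (hd : Pa G.src v t d)
    (h0 : ln G.H d = 0) : G.Leg u t (w * d) := by
  simpa using leg_inv (leg_left (leg_inv h) hd.inv (by simpa using h0))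

lemma leg_lt {x : G.E × Bool} (hx : x.1 ∈ G.H) : G.Leg (G.src x) (G.src (bar x)) (lt x) :=
  .base (pa_lt _ x) (by rw [ln_lt, if_pos hx])

/-- All top edges have legal images. -/
def AL (G : Gr) : Prop := ∀ e ∈ G.H, ∃ u v, G.Leg u v (G.Φ (FreeGroup.of e))

lemma leg_map_lt (h : G.Inv φ n c) (hl : AL G) {x : G.E × Bool} (hx : x.1 ∈ G.H) :
    G.Leg (G.fv (G.src x)) (G.fv (G.src (bar x))) (G.Φ (lt x)) := by
  have key : ∀ e ∈ G.H,
      G.Leg (G.fv (G.src (e, true))) (G.fv (G.src (e, false))) (G.Φ (lt (e, true))) := by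
    intro e he
    obtain ⟨u, v, h1⟩ := hl e he
    have h2 := h1.pa.ends (h.md.path (e, true)) (by
      intro h0
      have := h1.pos
      rw [h0, ln_one] at this
      omega)
    obtain ⟨rfl, rfl⟩ := h2
    exact h1
  obtain ⟨e, b⟩ := x
  cases b
  · rw [lt_false, map_inv]
    exact leg_inv (key e hx)
  · exact key e hx

lemma lt_step (h : G.Inv φ n c) {a b : FreeGroup G.E} (ha : Tight G.H G.H G.Φ a)
    (hb : Tight G.H G.H G.Φ b) (hab : G.LT (dir G.H a⁻¹) (dir G.H b)) :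
    G.LT (dir G.H (G.Φ a)⁻¹) (dir G.H (G.Φ b)) := by
  rw [← map_inv, ha.inv.dir_map h.md.inv (fun e he => h.pos he),
    hb.dir_map h.md.inv (fun e he => h.pos he)]
  exact hab.map

lemma leg_map (h : G.Inv φ n c) (hl : AL G) {u v : G.V} {w : FreeGroup G.E}
    (hw : G.Leg u v w) : G.Leg (G.fv u) (G.fv v) (G.Φ w) ∧ Tight G.H G.H G.Φ w := by
  induction hw with
  | base h1 h2 =>
    obtain ⟨d, x, d', k1, k2, k3, rfl, rfl, k6, k7, rfl⟩ := h1.one_spec h.loops h2
    refine ⟨?_, ((tight_lt h.md.inv x).left h.md.inv k1).right h.md.inv k3⟩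
    rw [map_mul, map_mul]
    exact leg_right (leg_left (leg_map_lt h hl k2) (h.md.pa k6) (h.md.ln_zero k1)) (h.md.pa k7)
      (h.md.ln_zero k3)
  | mul ha hb hab h1 h2 =>
    have s := lt_step h h1.2 h2.2 hab
    refine ⟨by rw [map_mul]; exact .mul h1.1 h2.1 s,
      Tight.mul (ln_mul_of_ne ha.pos hb.pos hab.ne) h1.2 h2.2 ?_⟩
    rw [map_mul]
    exact ln_mul_of_ne h1.1.pos h2.1.pos s.ne

lemma leg_iter (h : G.Inv φ n c) (hl : AL G) (k : ℕ) {u v : G.V} {w : FreeGroup G.E}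
    (hw : G.Leg u v w) : G.Leg (G.fv^[k] u) (G.fv^[k] v) (G.Φ^[k] w) := by
  induction k with
  | zero => exact hw
  | succ k ih => simp only [Function.iterate_succ_apply']; exact (leg_map h hl ih).1

lemma lt_iter (h : G.Inv φ n c) (hl : AL G) (k : ℕ) {u v u' v' : G.V} {a b : FreeGroup G.E}
    (ha : G.Leg u v a) (hb : G.Leg u' v' b) (hab : G.LT (dir G.H a⁻¹) (dir G.H b)) :
    G.LT (dir G.H (G.Φ^[k] a)⁻¹) (dir G.H (G.Φ^[k] b)) := by
  induction k with
  | zero => exact hab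
  | succ k ih =>
    simp only [Function.iterate_succ_apply']
    exact lt_step h (leg_map h hl (leg_iter h hl k ha)).2 (leg_map h hl (leg_iter h hl k hb)).2 ih

lemma ln_mono (h : G.Inv φ n c) (hl : AL G) {u v : G.V} {w : FreeGroup G.E}
    (hw : G.Leg u v w) : Monotone fun k => ln G.H (G.Φ^[k] w) := by
  refine monotone_nat_of_le_succ fun k => ?_
  rw [Function.iterate_succ_apply', (leg_map h hl (leg_iter h hl k hw)).2]
  exact Finset.sum_le_sum fun j hj => Nat.le_mul_of_pos_right _ (h.pos hj)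

lemma occ (h : G.Inv φ n c) (hl : AL G) {i j : G.E} (hj : j ∈ G.H)
    (t : Relation.TransGen (fun a b => a ∈ G.H ∧ b ∈ G.H ∧ 0 < G.M a b) i j) :
    ∃ k, 0 < cnt i (G.Φ^[k] (of j)) := by
  induction t using Relation.TransGen.head_induction_on with
  | single r => exact ⟨1, r.2.2⟩
  | @head a b r _ ih =>
    obtain ⟨k, hk⟩ := ih
    refine ⟨k + 1, ?_⟩
    have tt := (leg_map h hl (leg_iter h hl k (leg_lt (x := (j, true)) hj))).2
    rw [Function.iterate_succ_apply', ← lt_true, tt.cnt_eq h.md.inv r.1]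
    exact (Nat.mul_pos hk r.2.2).trans_le (Finset.single_le_sum
      (f := fun l => cnt l (G.Φ^[k] (lt (j, true))) * cnt a (G.Φ (of l)))
      (fun _ _ => Nat.zero_le _) r.2.1)

lemma grow (h : G.Inv φ n c) (hl : AL G) (hs : ¬G.Short) :
    ∃ q, ∀ (m : ℕ) (u v : G.V) (w : FreeGroup G.E), G.Leg u v w →
      2 ^ m * ln G.H w ≤ ln G.H (G.Φ^[q * m] w) := by
  obtain ⟨e₀, h0, h1⟩ : ∃ e ∈ G.H, 2 ≤ ln G.H (G.Φ (of e)) := by
    by_contra hc
    refine hs fun e he => ?_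
    have := h.pos he
    have : ¬2 ≤ ln G.H (G.Φ (of e)) := fun h2 => hc ⟨e, he, h2⟩
    omega
  have key : ∀ e, ∃ k, e ∈ G.H → 2 ≤ ln G.H (G.Φ^[k] (of e)) := by
    intro e
    by_cases he : e ∈ G.H
    · obtain ⟨k, hk⟩ := occ h hl he (h.irr e₀ h0 e he)
      refine ⟨k + 1, fun _ => h1.trans ?_⟩
      rw [Function.iterate_succ_apply']
      exact (leg_map h hl (leg_iter h hl k (leg_lt (x := (e, true)) he))).2.le h0 hk
    · exact ⟨0, fun h' => absurd h' he⟩
  choose j hj using key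
  have two : ∀ (u v : G.V) (w : FreeGroup G.E), G.Leg u v w →
      2 * ln G.H w ≤ ln G.H (G.Φ^[G.H.sup j] w) := by
    intro u v w hw
    induction hw with
    | base k1 k2 =>
      obtain ⟨d, x, d', l1, l2, l3, rfl⟩ := ln_one_spec k2
      rw [k2, iter_mul, iter_mul, ln_mul_right (h.md.ln_zero_iter _ l3),
        ln_mul_left (h.md.ln_zero_iter _ l1), ← pow_Φ, ln_map_lt, pow_Φ]
      exact (hj x.1 l2).trans
        (ln_mono h hl (leg_lt (x := (x.1, true)) l2) (Finset.le_sup (f := j) l2))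
    | mul ha hb hab k1 k2 =>
      rw [iter_mul, ln_mul_of_ne ha.pos hb.pos hab.ne, ln_mul_of_ne (leg_iter h hl _ ha).pos
        (leg_iter h hl _ hb).pos (lt_iter h hl _ ha hb hab).ne]
      omega
  refine ⟨G.H.sup j, fun m u v w hw => ?_⟩
  induction m with
  | zero => simp
  | succ m ih =>
    have := two _ _ _ (leg_iter h hl (G.H.sup j * m) hw)
    rw [← Function.iterate_add_apply] at this
    rw [Nat.mul_succ (G.H.sup j), add_comm (G.H.sup j * m), pow_succ, mul_right_comm]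
    omega

/-- Consecutive top letters of a legal path. -/
def R (G : Gr) (x y : G.E × Bool) : Prop :=
  x.1 ∈ G.H ∧ y.1 ∈ G.H ∧ ∃ d, ln G.H d = 0 ∧ Pa G.src (G.src (bar x)) (G.src y) d ∧
    G.LT (lt (bar x)) (d * lt y)

noncomputable def fR (G : Gr) (x : G.E × Bool) : ℕ :=
  (Finset.univ.filter fun y => Relation.TransGen (R G) x y).card

lemma fR_lt (hn : ∀ x, ¬Relation.TransGen (R G) x x) {x y : G.E × Bool} (r : R G x y) :
    fR G y < fR G x := by
  refine Finset.card_lt_card ⟨fun z hz => ?_, fun hz => ?_⟩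
  · simp only [Finset.mem_filter, Finset.mem_univ, true_and] at hz ⊢
    exact hz.head r
  · have := hz (Finset.mem_filter.2 ⟨Finset.mem_univ y, .single r⟩)
    exact hn y (Finset.mem_filter.1 this).2

lemma bound (h : G.Inv φ n c) (hn : ∀ x, ¬Relation.TransGen (R G) x x) {u v : G.V}
    {w : FreeGroup G.E} (hw : G.Leg u v w) : ∀ (d d' : FreeGroup G.E) (x y : G.E × Bool),
    ln G.H d = 0 → x.1 ∈ G.H → dir G.H w = d * lt x → ln G.H d' = 0 → y.1 ∈ G.H →
    dir G.H w⁻¹ = d' * lt y → fR G (bar y) + ln G.H w ≤ fR G x + 1 := by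
  induction hw with
  | base k1 k2 =>
    intro d d' x y a1 a2 a3 a4 a5 a6
    obtain ⟨b, z, b', l1, l2, l3, rfl⟩ := ln_one_spec k2
    rw [dir_right l3 (by rw [ln_germ l1 l2]; omega), dir_of_germ l1 l2] at a3
    have l4 : ln G.H b'⁻¹ = 0 := by simpa using l3
    rw [mul_inv_rev, mul_inv_rev, ← lt_bar, ← mul_assoc, dir_right (by simpa using l1)
      (by rw [ln_germ l4 (x := bar z) l2]; omega), dir_of_germ l4 (x := bar z) l2] at a6
    obtain ⟨rfl, -⟩ := germ_inj l1 a1 l2 a2 a3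
    obtain ⟨rfl, -⟩ := germ_inj l4 a4 (x := bar z) l2 a5 a6
    rw [bar_bar, k2]
  | mul ha hb hab k1 k2 =>
    intro d d' x y a1 a2 a3 a4 a5 a6
    have e := ln_mul_of_ne ha.pos hb.pos hab.ne
    rw [dir_mul ha.pos e] at a3
    rw [dir_inv_mul hb.pos e] at a6
    obtain ⟨b, p, l1, l2, l3, l4, l5, -⟩ := ha.pa.inv.dir_spec h.loops (by simpa using ha.pos)
    obtain ⟨b', r, m1, m2, m3, m4, m5, -⟩ := hb.pa.dir_spec h.loops hb.pos
    have i1 := k1 _ _ _ _ a1 a2 a3 l1 l2 l5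
    have i2 := k2 _ _ _ _ m1 m2 m5 a4 a5 a6
    have : R G (bar p) r := by
      refine ⟨l2, m2, b⁻¹ * b', by rw [ln_mul_left (by simpa using l1), m1], ?_, ?_⟩
      · rw [bar_bar, l3, m3]; exact l4.inv.mul m4
      · rw [bar_bar, ← h.md.lt_left l1, ← mul_assoc, mul_inv_cancel_left, ← l5, ← m5]
        exact hab
    have := fR_lt hn this
    omega

lemma of_R (h : G.Inv φ n c) {x y : G.E × Bool} (t : Relation.TransGen (R G) x y) :
    ∃ w, G.Leg (G.src x) (G.src y) w ∧ dir G.H w = lt x ∧ G.LT (dir G.H w⁻¹) (lt y) := by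
  have one : ∀ x y, R G x y →
      ∃ w, G.Leg (G.src x) (G.src y) w ∧ dir G.H w = lt x ∧ G.LT (dir G.H w⁻¹) (lt y) := by
    rintro x y ⟨h1, -, d, h3, h4, h5⟩
    have l4 : ln G.H d⁻¹ = 0 := by simpa using h3
    refine ⟨lt x * d, leg_right (leg_lt h1) h4 h3, ?_, ?_⟩
    · rw [dir_right h3 (leg_lt h1).pos, dir_lt h1]
    · rw [mul_inv_rev, ← lt_bar, dir_of_germ l4 (x := bar x) h1, ← h.md.lt_left h3,
        mul_inv_cancel_left]
      exact h5
  induction t with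
  | single r => exact one _ _ r
  | tail _ r ih =>
    obtain ⟨a, a1, a2, a3⟩ := ih
    obtain ⟨b, b1, b2, b3⟩ := one _ _ r
    rw [← b2] at a3
    have e := ln_mul_of_ne a1.pos b1.pos a3.ne
    exact ⟨a * b, .mul a1 b1 a3, by rw [dir_mul a1.pos e, a2], by
      rw [dir_inv_mul b1.pos e]; exact b3⟩

lemma ln_pow_le (a : FreeGroup G.E) (k : ℕ) : ln G.H (a ^ k) ≤ k * ln G.H a := by
  induction k with
  | zero => simp
  | succ k ih =>
    have := ln_mul_le G.H (a ^ k) a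
    rw [pow_succ, Nat.succ_mul]
    omega

lemma ln_conj {g : FreeGroup G.E} (h0 : 0 < ln G.H g) (hg : dir G.H g⁻¹ ≠ dir G.H g)
    (a : FreeGroup G.E) : ln G.H g ≤ ln G.H (a * g * a⁻¹) := by
  have key : ∀ k : ℕ, ln G.H (g ^ (k + 1)) = (k + 1) * ln G.H g ∧
      dir G.H (g ^ (k + 1))⁻¹ = dir G.H g⁻¹ := by
    intro k
    induction k with
    | zero => simp
    | succ k ih =>
      have e := ln_mul_of_ne (a := g ^ (k + 1)) (by rw [ih.1]; positivity) h0
        (by rw [ih.2]; exact hg)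
      rw [pow_succ g (k + 1)]
      exact ⟨by rw [e, ih.1]; ring, dir_inv_mul h0 e⟩
  have h1 := (key (2 * ln G.H a)).1
  have h2 := ln_pow_le (a * g * a⁻¹) (2 * ln G.H a + 1)
  have h3 := ln_mul_le G.H (a⁻¹ * (a * g * a⁻¹) ^ (2 * ln G.H a + 1)) a
  have h4 := ln_mul_le G.H a⁻¹ ((a * g * a⁻¹) ^ (2 * ln G.H a + 1))
  rw [ln_inv] at h4
  have h5 : a⁻¹ * (a * g * a⁻¹) ^ (2 * ln G.H a + 1) * a = g ^ (2 * ln G.H a + 1) := by
    rw [conj_pow]; group
  rw [h5, h1] at h3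
  by_contra hc
  have := Nat.mul_le_mul_left (2 * ln G.H a + 1) (Nat.succ_le_of_lt (not_le.1 hc))
  rw [Nat.mul_succ] at this
  omega

end TTx

open TTx Gr in
theorem p_TT :
    S_TT := by
  intro N _ φ n G c h hφ hl
  by_contra hs
  obtain ⟨q, hq⟩ := grow h hl hs
  obtain ⟨x, hx⟩ : ∃ x, Relation.TransGen (R G) x x := by
    by_contra hn
    rw [not_exists] at hn
    obtain ⟨e, he⟩ := h.ne
    set m := Fintype.card (G.E × Bool) + 1 with hm
    have l0 := leg_lt (x := (e, true)) he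
    have l1 := leg_iter h hl (q * m) l0
    obtain ⟨d, x, a1, a2, a3⟩ := dir_germ l1.pos
    obtain ⟨d', y, a4, a5, a6⟩ := dir_germ (leg_inv l1).pos
    have b1 := bound h hn l1 _ _ _ _ a1 a2 a3 a4 a5 a6
    have b2 := hq m _ _ _ l0
    have b3 : fR G x ≤ Fintype.card (G.E × Bool) := Finset.card_le_univ _
    have b4 := Nat.lt_two_pow_self (n := m)
    have b5 := Nat.le_mul_of_pos_right (2 ^ m) l0.pos
    omega
  obtain ⟨g, g1, g2, g3⟩ := of_R h hx
  rw [← g2] at g3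
  obtain ⟨ι, π, -, h2, -, h4, h5⟩ := h.md.mark_at (G.src x)
  obtain ⟨g₀, rfl⟩ := (h2 g).2 g1.pa
  obtain ⟨m, a, ha⟩ := hφ (fun a => ln G.H (ι a))
    (fun a b => by simp only [map_mul]; exact ln_mul_le _ _ _) (fun a => by simp) (by simp) g₀ q
  obtain ⟨ρ, -, hρ⟩ := h.md.mark_iter h4 h5 (q * m)
  have b1 := ln_conj (leg_iter h hl (q * m) g1).pos (lt_iter h hl (q * m) g1 g1 g3).ne
    (ι a * ρ⁻¹)
  have b2 := hq m _ _ _ g1
  have b3 := Nat.le_mul_of_pos_right (2 ^ m) g1.pos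
  have e : ι a * ρ⁻¹ * G.Φ^[q * m] (ι g₀) * (ι a * ρ⁻¹)⁻¹ = ι (a * (φ ^ (q * m)) g₀ * a⁻¹) := by
    rw [hρ, map_mul, map_mul, map_inv]; group
  rw [e] at b1
  omega

end Pool.Agent.P.MP_67c9d4_al.PG
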