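import Pool.Agent.P.MP_67c9d4_al.PG.Defs

/-! Counting letters in reduced words. -/

set_option autoImplicit false

namespace Pool.Agent.P.MP_67c9d4_al.PG

open Classical
open FreeGroup hiding map_mul map_inv map_one

variable {E E' : Type}

@[simp] lemma bar_bar (x : E × Bool) : bar (bar x) = x := by simp [bar]

@[simp] lemma bar_fst (x : E × Bool) : (bar x).1 = x.1 := rfl

@[simp] lemma bar_true (e : E) : bar (e, true) = (e, false) := rfl

@[simp] lemma bar_false (e : E) : bar (e, false) = (e, true) := rfl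

lemma bar_ne (x : E × Bool) : bar x ≠ x := by
  obtain ⟨e, b⟩ := x
  cases b <;> simp

lemma bar_inj {x y : E × Bool} (h : bar x = bar y) : x = y := by
  rw [← bar_bar x, h, bar_bar]

lemma eq_or_bar {x y : E × Bool} (h : x.1 = y.1) : x = y ∨ x = bar y := by
  obtain ⟨e, b⟩ := x
  obtain ⟨e', b'⟩ := y
  obtain rfl : e = e' := h
  cases b <;> cases b' <;> simp

lemma lt_bar (x : E × Bool) : lt (bar x) = (lt x)⁻¹ := by
  simp [lt, bar, inv_mk, invRev]

lemma lt_true (e : E) : lt (e, true) = of e := rfl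

lemma lt_false (e : E) : lt (e, false) = (of e)⁻¹ := lt_bar (e, true)

lemma mk_cons (x : E × Bool) (L : List (E × Bool)) : mk (x :: L) = lt x * mk L := by
  simp [lt, mul_mk]

lemma toWord_lt (x : E × Bool) : (lt x).toWord = [x] := rfl

lemma lt_inj {x y : E × Bool} (h : lt x = lt y) : x = y := by
  have := congrArg toWord h
  simpa [toWord_lt] using this

/-- Two homomorphisms that agree on letters agree. -/
lemma hom_lt {P : Type} [Group P] {f g : FreeGroup E →* P} (h : ∀ x, f (lt x) = g (lt x)) :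
    f = g := FreeGroup.ext_hom _ _ fun e => h (e, true)

lemma lt_induction {p : FreeGroup E → Prop} (h1 : p 1) (h2 : ∀ x w, p w → p (lt x * w))
    (w : FreeGroup E) : p w := by
  rw [← mk_toWord (x := w)]
  induction w.toWord with
  | nil => exact h1
  | cons x L ih => rw [mk_cons]; exact h2 _ _ ih

lemma cnt_mul_le (i : E) (a b : FreeGroup E) : cnt i (a * b) ≤ cnt i a + cnt i b := by
  unfold cnt
  rw [← List.countP_append]
  exact (toWord_mul_sublist a b).countP_le

@[simp] lemma cnt_inv (i : E) (a : FreeGroup E) : cnt i a⁻¹ = cnt i a := by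
  unfold cnt
  rw [toWord_inv, invRev, List.countP_reverse, List.countP_map]
  rfl

@[simp] lemma cnt_one (i : E) : cnt i (1 : FreeGroup E) = 0 := by simp [cnt]

lemma cnt_lt (i : E) (x : E × Bool) : cnt i (lt x) = if x.1 = i then 1 else 0 := by
  unfold cnt
  rw [toWord_lt]
  by_cases h : x.1 = i <;> simp [h]

lemma cnt_of (i e : E) : cnt i (of e) = if e = i then 1 else 0 := cnt_lt i (e, true)

lemma cnt_mul_left {i : E} {c : FreeGroup E} (hc : cnt i c = 0) (w : FreeGroup E) :
    cnt i (c * w) = cnt i w := by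
  have h1 := cnt_mul_le i c w
  have h2 := cnt_mul_le i c⁻¹ (c * w)
  rw [inv_mul_cancel_left, cnt_inv] at h2
  omega

lemma cnt_mul_right {i : E} {c : FreeGroup E} (hc : cnt i c = 0) (w : FreeGroup E) :
    cnt i (w * c) = cnt i w := by
  rw [← cnt_inv, mul_inv_rev, cnt_mul_left (by simpa using hc), cnt_inv]

lemma cnt_map_lt (q : FreeGroup E →* FreeGroup E') (i : E') (x : E × Bool) :
    cnt i (q (lt x)) = cnt i (q (of x.1)) := by
  obtain ⟨e, b⟩ := x
  cases b
  · rw [lt_false, map_inv, cnt_inv]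
  · rfl

lemma sum_countP (H : Finset E) (L : List (E × Bool)) :
    ∑ i ∈ H, (L.countP fun x => x.1 = i) = L.countP fun x => x.1 ∈ H := by
  induction L with
  | nil => simp
  | cons x L ih =>
    simp only [List.countP_cons, Finset.sum_add_distrib, ih, decide_eq_true_eq]
    rw [Finset.sum_ite_eq]

lemma ln_eq (H : Finset E) (w : FreeGroup E) :
    ln H w = w.toWord.countP fun x => x.1 ∈ H := sum_countP H _

variable {H : Finset E} {H' : Finset E'}

lemma ln_mul_le (H : Finset E) (a b : FreeGroup E) : ln H (a * b) ≤ ln H a + ln H b := by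
  unfold ln
  rw [← Finset.sum_add_distrib]
  exact Finset.sum_le_sum fun i _ => cnt_mul_le i a b

@[simp] lemma ln_inv (H : Finset E) (a : FreeGroup E) : ln H a⁻¹ = ln H a := by simp [ln]

@[simp] lemma ln_one (H : Finset E) : ln H (1 : FreeGroup E) = 0 := by simp [ln]

lemma ln_lt (H : Finset E) (x : E × Bool) : ln H (lt x) = if x.1 ∈ H then 1 else 0 := by
  simp only [ln, cnt_lt]
  rw [Finset.sum_ite_eq]

lemma ln_of (H : Finset E) (e : E) : ln H (of e) = if e ∈ H then 1 else 0 := ln_lt H (e, true)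

lemma ln_map_lt (q : FreeGroup E →* FreeGroup E') (H' : Finset E') (x : E × Bool) :
    ln H' (q (lt x)) = ln H' (q (of x.1)) := by simp only [ln, cnt_map_lt]

lemma cnt_le_ln {i : E} (hi : i ∈ H) (w : FreeGroup E) : cnt i w ≤ ln H w :=
  Finset.single_le_sum (f := fun i => cnt i w) (fun _ _ => Nat.zero_le _) hi

lemma ln_eq_zero {w : FreeGroup E} : ln H w = 0 ↔ ∀ i ∈ H, cnt i w = 0 :=
  Finset.sum_eq_zero_iff

lemma ln_eq_zero' {w : FreeGroup E} : ln H w = 0 ↔ ∀ x ∈ w.toWord, x.1 ∉ H := by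
  simp [ln_eq, List.countP_eq_zero]

lemma ln_mul_left {c : FreeGroup E} (hc : ln H c = 0) (w : FreeGroup E) :
    ln H (c * w) = ln H w :=
  Finset.sum_congr rfl fun i hi => cnt_mul_left (ln_eq_zero.1 hc i hi) w

lemma ln_mul_right {c : FreeGroup E} (hc : ln H c = 0) (w : FreeGroup E) :
    ln H (w * c) = ln H w :=
  Finset.sum_congr rfl fun i hi => cnt_mul_right (ln_eq_zero.1 hc i hi) w

lemma ln_mk_le (H : Finset E) (L : List (E × Bool)) :
    ln H (mk L) ≤ L.countP fun x => x.1 ∈ H := by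
  rw [ln_eq, toWord_mk]
  exact (reduce.red.sublist).countP_le

lemma ln_mk_zero {L : List (E × Bool)} (h : ∀ x ∈ L, x.1 ∉ H) : ln H (mk L) = 0 := by
  have := ln_mk_le H L
  rw [List.countP_eq_zero.2 (by simpa using fun a b hab => h (a, b) hab)] at this
  omega

lemma ln_mk {L : List (E × Bool)} (h : IsReduced L) :
    ln H (mk L) = L.countP fun x => x.1 ∈ H := by rw [ln_eq, toWord_mk, h.reduce_eq]

lemma cnt_map_le (q : FreeGroup E →* FreeGroup E') {i : E'}
    (hq : ∀ e, e ∉ H → cnt i (q (of e)) = 0) (w : FreeGroup E) :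
    cnt i (q w) ≤ ∑ j ∈ H, cnt j w * cnt i (q (of j)) := by
  have : ∀ L : List (E × Bool), cnt i (q (mk L)) ≤
      ∑ j ∈ H, (L.countP fun x => x.1 = j) * cnt i (q (of j)) := by
    intro L
    induction L with
    | nil => simp [← one_eq_mk]
    | cons x L ih =>
      rw [mk_cons, map_mul]
      refine (cnt_mul_le _ _ _).trans ?_
      simp only [List.countP_cons, add_mul, Finset.sum_add_distrib, decide_eq_true_eq, ite_mul,
        one_mul, zero_mul]
      rw [Finset.sum_ite_eq, cnt_map_lt]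
      split_ifs with h
      · omega
      · rw [hq _ h]; omega
  have h := this w.toWord
  rwa [mk_toWord] at h

lemma ln_map_le (q : FreeGroup E →* FreeGroup E') (hq : ∀ e, e ∉ H → ln H' (q (of e)) = 0)
    (w : FreeGroup E) : ln H' (q w) ≤ ∑ j ∈ H, cnt j w * ln H' (q (of j)) := by
  simp only [ln, Finset.mul_sum]
  rw [Finset.sum_comm]
  exact Finset.sum_le_sum fun i hi =>
    cnt_map_le q (fun e he => ln_eq_zero.1 (hq e he) i hi) w

lemma ln_map_zero (q : FreeGroup E →* FreeGroup E') (hq : ∀ e, e ∉ H → ln H' (q (of e)) = 0)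
    {w : FreeGroup E} (hw : ln H w = 0) : ln H' (q w) = 0 := by
  have := ln_map_le q hq w
  rw [Finset.sum_eq_zero fun j hj => by rw [ln_eq_zero.1 hw j hj, zero_mul]] at this
  omega

lemma eq_of_sum_le {ι : Type} {s : Finset ι} {f g : ι → ℕ} (h : ∀ i ∈ s, f i ≤ g i)
    (h' : ∑ i ∈ s, g i ≤ ∑ i ∈ s, f i) : ∀ i ∈ s, f i = g i :=
  (Finset.sum_eq_sum_iff_of_le h).1 (le_antisymm (Finset.sum_le_sum h) h')

lemma cnt_add {a b : FreeGroup E} (h : ln H (a * b) = ln H a + ln H b) {i : E} (hi : i ∈ H) :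
    cnt i (a * b) = cnt i a + cnt i b :=
  eq_of_sum_le (f := fun i => cnt i (a * b)) (g := fun i => cnt i a + cnt i b)
    (fun i _ => cnt_mul_le i a b) (by rw [Finset.sum_add_distrib]; exact h.ge) i hi

lemma dir_of_zero {w : FreeGroup E} (h : ln H w = 0) : dir H w = w := by
  have h1 : ∀ x ∈ w.toWord, decide (x.1 ∉ H) = true := by
    simpa using fun a b hab => ln_eq_zero'.1 h (a, b) hab
  rw [dir, List.takeWhile_eq_self_iff.2 h1, List.dropWhile_eq_nil_iff.2 h1, mk_toWord]
  simp [← one_eq_mk]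

lemma dir_of_word {w : FreeGroup E} {L K : List (E × Bool)} {x : E × Bool}
    (hw : w.toWord = L ++ x :: K) (hL : ∀ y ∈ L, y.1 ∉ H) (hx : x.1 ∈ H) :
    dir H w = mk L * lt x := by
  have h1 : ∀ y ∈ L, decide (y.1 ∉ H) = true := by simpa using fun a b hab => hL (a, b) hab
  rw [dir, hw, List.takeWhile_append_of_pos h1, List.dropWhile_append_of_pos h1]
  simp [hx, lt]

lemma dir_spec {w : FreeGroup E} (h : 0 < ln H w) : ∃ L x K, w.toWord = L ++ x :: K ∧
    (∀ y ∈ L, y.1 ∉ H) ∧ x.1 ∈ H ∧ dir H w = mk L * lt x := by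
  have : ∀ W : List (E × Bool), 0 < (W.countP fun x => x.1 ∈ H) →
      ∃ L x K, W = L ++ x :: K ∧ (∀ y ∈ L, y.1 ∉ H) ∧ x.1 ∈ H := by
    intro W
    induction W with
    | nil => simp
    | cons x W ih =>
      intro hW
      by_cases hx : x.1 ∈ H
      · exact ⟨[], x, W, rfl, by simp, hx⟩
      · obtain ⟨L, y, K, rfl, h1, h2⟩ := ih (by simpa [List.countP_cons, hx] using hW)
        refine ⟨x :: L, y, K, rfl, fun z hz => ?_, h2⟩
        rcases List.mem_cons.1 hz with rfl | hz
        exacts [hx, h1 z hz]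
  obtain ⟨L, x, K, h1, h2, h3⟩ := this _ (ln_eq H w ▸ h)
  exact ⟨L, x, K, h1, h2, h3, dir_of_word h1 h2 h3⟩

lemma dir_germ {w : FreeGroup E} (h : 0 < ln H w) :
    ∃ c x, ln H c = 0 ∧ x.1 ∈ H ∧ dir H w = c * lt x := by
  obtain ⟨L, x, K, -, h2, h3, h4⟩ := dir_spec h
  exact ⟨_, x, ln_mk_zero h2, h3, h4⟩

lemma ln_germ {c : FreeGroup E} {x : E × Bool} (hc : ln H c = 0) (hx : x.1 ∈ H) :
    ln H (c * lt x) = 1 := by rw [ln_mul_left hc, ln_lt, if_pos hx]

lemma ln_dir {w : FreeGroup E} (h : 0 < ln H w) : ln H (dir H w) = 1 := by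
  obtain ⟨c, x, h1, h2, h3⟩ := dir_germ h
  rw [h3, ln_germ h1 h2]

lemma red_tail {L K : List (E × Bool)} (h : IsReduced (L ++ K)) : IsReduced K :=
  (List.isChain_append.1 h).2.1

lemma dir_tight {w : FreeGroup E} (h : 0 < ln H w) :
    ln H ((dir H w)⁻¹ * w) + 1 = ln H w := by
  obtain ⟨L, x, K, h1, h2, h3, h4⟩ := dir_spec h
  have hw : w = mk L * lt x * mk K := by
    rw [mul_assoc, ← mk_cons, mul_mk, ← h1, mk_toWord]
  have hr : IsReduced (L ++ x :: K) := h1 ▸ isReduced_toWord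
  have hK : IsReduced K := red_tail (L := [x]) (red_tail hr)
  have : (dir H w)⁻¹ * w = mk K := by rw [h4, inv_mul_eq_iff_eq_mul, ← hw]
  rw [this, ln_mk hK, ln_eq, h1, List.countP_append,
    List.countP_eq_zero (l := L).2 (by simpa using fun a b hab => h2 (a, b) hab)]
  simp [h3]

lemma red3 {A M B : List (E × Bool)} {a b : E × Bool} (hA : IsReduced (A ++ [a]))
    (hM : IsReduced M) (hB : IsReduced (b :: B)) (ha : a.1 ∈ H) (hb : b.1 ∈ H)
    (hm : ∀ y ∈ M, y.1 ∉ H) (h0 : M = [] → a.1 = b.1 → a.2 = b.2) :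
    IsReduced (A ++ [a] ++ (M ++ b :: B)) := by
  refine List.isChain_append.2 ⟨hA, List.isChain_append.2 ⟨hM, hB, ?_⟩, ?_⟩
  · intro x hx y hy hxy
    obtain rfl : b = y := by simpa using hy
    exact absurd (hxy ▸ hb) (hm x (List.mem_of_mem_getLast? hx))
  · intro x hx y hy hxy
    obtain rfl : a = x := by simpa using hx
    cases M with
    | nil =>
      obtain rfl : b = y := by simpa using hy
      exact h0 rfl hxy
    | cons m M =>
      obtain rfl : m = y := by simpa using hy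
      exact absurd (hxy ▸ ha) (hm m (by simp))

lemma dir_of_germ {c : FreeGroup E} {x : E × Bool} (hc : ln H c = 0) (hx : x.1 ∈ H) :
    dir H (c * lt x) = c * lt x := by
  have hm := ln_eq_zero'.1 hc
  have hr : IsReduced (c.toWord ++ [x]) := by
    refine List.isChain_append.2 ⟨isReduced_toWord, IsReduced.singleton, ?_⟩
    intro y hy z hz hyz
    obtain rfl : x = z := by simpa using hz
    exact absurd (hyz ▸ hx) (hm y (List.mem_of_mem_getLast? hy))
  rw [dir_of_word (L := c.toWord) (K := []) (x := x) _ hm hx, mk_toWord]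
  rw [toWord_mul, toWord_lt, hr.reduce_eq]

/-- Words with different directions do not cancel. -/
lemma ln_inv_mul {u v : FreeGroup E} (hu : 0 < ln H u) (hv : 0 < ln H v)
    (h : dir H u ≠ dir H v) : ln H (u⁻¹ * v) = ln H u + ln H v := by
  obtain ⟨L, x, K, h1, h2, h3, h4⟩ := dir_spec hu
  obtain ⟨L', y, K', k1, k2, k3, k4⟩ := dir_spec hv
  have hK : IsReduced (x :: K) := red_tail (h1 ▸ isReduced_toWord (x := u))
  have hK' : IsReduced (y :: K') := red_tail (k1 ▸ isReduced_toWord (x := v))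
  have hu' : u = mk L * mk (x :: K) := by rw [mul_mk, ← h1, mk_toWord]
  have hv' : v = mk L' * mk (y :: K') := by rw [mul_mk, ← k1, mk_toWord]
  have hi : invRev (x :: K) = invRev K ++ [bar x] := by simp [invRev, bar]
  have hA : IsReduced (invRev K ++ [bar x]) := by
    rw [← hi, isReduced_iff_reduce_eq, reduce_invRev, hK.reduce_eq]
  set m := (mk L)⁻¹ * mk L' with hm
  have hm0 : ln H m = 0 := by
    rw [hm, ln_mul_left (by rw [ln_inv, ln_mk_zero h2]), ln_mk_zero k2]
  have hr := red3 hA (isReduced_toWord (x := m)) hK' h3 k3 (ln_eq_zero'.1 hm0) (by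
    intro h0 hxy
    rw [toWord_eq_nil_iff, hm, inv_mul_eq_one] at h0
    rcases eq_or_bar (x := y) (y := x) hxy.symm with rfl | rfl
    · exact absurd (by rw [h4, k4, h0]) h
    · rfl)
  have e1 : u⁻¹ * v = mk (invRev K ++ [bar x] ++ (m.toWord ++ y :: K')) := by
    rw [← mul_mk, ← mul_mk (L₁ := m.toWord), mk_toWord, ← hi, ← inv_mk, hm]
    conv_lhs => rw [hu', hv']
    group
  have e2 : ln H u = ln H (mk (invRev K ++ [bar x])) := by
    rw [← hi, ← inv_mk, ln_inv, hu', ln_mul_left (ln_mk_zero h2)]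
  have e3 : ln H v = ln H (mk (y :: K')) := by rw [hv', ln_mul_left (ln_mk_zero k2)]
  rw [e1, e2, e3, ln_mk hr, ln_mk hA, ln_mk hK', List.countP_append (l₂ := _ ++ _),
    List.countP_append (l₁ := m.toWord), ← ln_eq, hm0, zero_add]

lemma dir_eq {w c : FreeGroup E} {x : E × Bool} (hc : ln H c = 0) (hx : x.1 ∈ H)
    (h : ln H ((c * lt x)⁻¹ * w) + 1 = ln H w) : dir H w = c * lt x := by
  by_contra hne
  have := ln_inv_mul (H := H) (u := c * lt x) (v := w) (by rw [ln_germ hc hx]; omega) (by omega)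
    (by rw [dir_of_germ hc hx]; exact Ne.symm hne)
  omega

lemma dir_mul {a b : FreeGroup E} (ha : 0 < ln H a) (h : ln H (a * b) = ln H a + ln H b) :
    dir H (a * b) = dir H a := by
  obtain ⟨c, x, h1, h2, h3⟩ := dir_germ ha
  have t := dir_tight ha
  rw [h3] at t ⊢
  refine dir_eq h1 h2 ?_
  have l1 := ln_mul_le H ((c * lt x)⁻¹ * a) b
  have l2 := ln_mul_le H (c * lt x) ((c * lt x)⁻¹ * (a * b))
  rw [mul_inv_cancel_left, ln_germ h1 h2] at l2
  rw [mul_assoc] at l1
  omega

lemma dir_left {c : FreeGroup E} (hc : ln H c = 0) (u : FreeGroup E) :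
    dir H (c * u) = c * dir H u := by
  rcases Nat.eq_zero_or_pos (ln H u) with h | h
  · rw [dir_of_zero h, dir_of_zero (by rw [ln_mul_left hc, h])]
  · obtain ⟨c', x, h1, h2, h3⟩ := dir_germ h
    have t := dir_tight h
    rw [h3] at t ⊢
    rw [← mul_assoc]
    refine dir_eq (by rw [ln_mul_left hc, h1]) h2 ?_
    rw [ln_mul_left hc, ← t]
    congr 2
    group

lemma dir_right {c u : FreeGroup E} (hc : ln H c = 0) (hu : 0 < ln H u) :
    dir H (u * c) = dir H u := dir_mul hu (by rw [ln_mul_right hc, hc, add_zero])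

lemma dir_lt {x : E × Bool} (hx : x.1 ∈ H) : dir H (lt x) = lt x := by
  simpa using dir_of_germ (c := 1) (ln_one H) hx

lemma dir_dir (w : FreeGroup E) : dir H (dir H w) = dir H w := by
  rcases Nat.eq_zero_or_pos (ln H w) with h | h
  · rw [dir_of_zero h, dir_of_zero h]
  · obtain ⟨c, x, h1, h2, h3⟩ := dir_germ h
    rw [h3, dir_of_germ h1 h2]

lemma germ_inj {c c' : FreeGroup E} {x y : E × Bool} (hc : ln H c = 0) (hc' : ln H c' = 0)
    (hx : x.1 ∈ H) (hy : y.1 ∈ H) (h : c * lt x = c' * lt y) : x = y ∧ c = c' := by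
  have key : ∀ {c : FreeGroup E} {x : E × Bool}, ln H c = 0 → x.1 ∈ H →
      dir H (c * lt x)⁻¹ = lt (bar x) := by
    intro c x hc hx
    rw [mul_inv_rev, ← lt_bar, dir_right (by simpa using hc) (by simp [ln_lt, hx]),
      dir_lt (by simpa using hx)]
  have hxy : x = y := bar_inj (lt_inj (by rw [← key hc hx, ← key hc' hy, h]))
  subst hxy
  exact ⟨rfl, mul_right_cancel h⟩

lemma strip2 {w : FreeGroup E} (h : 2 ≤ ln H w) :
    ln H ((dir H w)⁻¹ * w * dir H w⁻¹) + 2 = ln H w := by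
  have t := dir_tight (H := H) (w := w) (by omega)
  have d := ln_dir (H := H) (w := w) (by omega)
  set r := (dir H w)⁻¹ * w with hr
  have e : w⁻¹ = r⁻¹ * (dir H w)⁻¹ := by rw [hr]; group
  have e2 : dir H w⁻¹ = dir H r⁻¹ := by
    rw [e]
    refine dir_mul (by rw [ln_inv]; omega) ?_
    rw [← e, ln_inv, ln_inv, ln_inv]; omega
  have t2 := dir_tight (H := H) (w := r⁻¹) (by rw [ln_inv]; omega)
  rw [← mul_inv_rev, ln_inv, ln_inv] at t2
  rw [e2]; omega

lemma ln_one_spec {w : FreeGroup E} (h : ln H w = 1) :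
    ∃ c x c', ln H c = 0 ∧ x.1 ∈ H ∧ ln H c' = 0 ∧ w = c * lt x * c' := by
  obtain ⟨c, x, h1, h2, h3⟩ := dir_germ (H := H) (w := w) (by omega)
  have t := dir_tight (H := H) (w := w) (by omega)
  exact ⟨c, x, (dir H w)⁻¹ * w, h1, h2, by omega, by rw [← h3, mul_inv_cancel_left]⟩

lemma cnt_dir_le {w : FreeGroup E} {i : E} (hi : i ∈ H) : cnt i (dir H w) ≤ cnt i w := by
  rcases Nat.eq_zero_or_pos (ln H w) with h | h
  · rw [dir_of_zero h]
  · have t := dir_tight h
    have d := ln_dir h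
    have := cnt_add (H := H) (a := dir H w) (b := (dir H w)⁻¹ * w)
      (by rw [mul_inv_cancel_left]; omega) hi
    rw [mul_inv_cancel_left] at this
    omega

/-- No cancellation of top letters when `q` is applied to `w`. -/
def Tight (H : Finset E) (H' : Finset E') (q : FreeGroup E →* FreeGroup E') (w : FreeGroup E) :
    Prop := ln H' (q w) = ∑ j ∈ H, cnt j w * ln H' (q (of j))

variable {q : FreeGroup E →* FreeGroup E'}

lemma Tight.inv {w : FreeGroup E} (h : Tight H H' q w) : Tight H H' q w⁻¹ := by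
  unfold Tight at h ⊢
  simpa using h

lemma Tight.left (hq : ∀ e, e ∉ H → ln H' (q (of e)) = 0) {c w : FreeGroup E} (hc : ln H c = 0)
    (h : Tight H H' q w) : Tight H H' q (c * w) := by
  unfold Tight at h ⊢
  rw [map_mul, ln_mul_left (ln_map_zero q hq hc), h]
  exact Finset.sum_congr rfl fun j hj => by rw [cnt_mul_left (ln_eq_zero.1 hc j hj)]

lemma Tight.right (hq : ∀ e, e ∉ H → ln H' (q (of e)) = 0) {c w : FreeGroup E} (hc : ln H c = 0)
    (h : Tight H H' q w) : Tight H H' q (w * c) := by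
  simpa using (Tight.left hq (c := c⁻¹) (by simpa using hc) h.inv).inv

lemma tight_lt (hq : ∀ e, e ∉ H → ln H' (q (of e)) = 0) (x : E × Bool) : Tight H H' q (lt x) := by
  unfold Tight
  simp only [cnt_lt, ite_mul, one_mul, zero_mul]
  rw [Finset.sum_ite_eq, ln_map_lt]
  split_ifs with h
  exacts [rfl, hq _ h]

/-- The parts of a tight product. -/
lemma Tight.split (hq : ∀ e, e ∉ H → ln H' (q (of e)) = 0) {a b : FreeGroup E}
    (hab : ln H (a * b) = ln H a + ln H b) (h : Tight H H' q (a * b)) :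
    Tight H H' q a ∧ Tight H H' q b ∧ ln H' (q (a * b)) = ln H' (q a) + ln H' (q b) := by
  unfold Tight at h ⊢
  have h1 := ln_map_le q hq a
  have h2 := ln_map_le q hq b
  have h3 := ln_mul_le H' (q a) (q b)
  rw [Finset.sum_congr rfl fun j hj => by rw [cnt_add hab hj, add_mul],
    Finset.sum_add_distrib] at h
  rw [← map_mul] at h3
  omega

lemma Tight.mul {a b : FreeGroup E} (hab : ln H (a * b) = ln H a + ln H b) (ha : Tight H H' q a)
    (hb : Tight H H' q b) (h : ln H' (q (a * b)) = ln H' (q a) + ln H' (q b)) :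
    Tight H H' q (a * b) := by
  unfold Tight at ha hb ⊢
  rw [Finset.sum_congr rfl fun j hj => by rw [cnt_add hab hj, add_mul],
    Finset.sum_add_distrib, h, ha, hb]

/-- On tight words the direction of the image depends only on the direction. -/
lemma Tight.dir_map (hq : ∀ e, e ∉ H → ln H' (q (of e)) = 0)
    (hp : ∀ e ∈ H, 0 < ln H' (q (of e))) {w : FreeGroup E} (h : Tight H H' q w) :
    dir H' (q w) = dir H' (q (dir H w)) := by
  rcases Nat.eq_zero_or_pos (ln H w) with h0 | h0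
  · rw [dir_of_zero h0]
  have t := dir_tight h0
  have d := ln_dir h0
  obtain ⟨c, x, h1, h2, h3⟩ := dir_germ h0
  have e : w = dir H w * ((dir H w)⁻¹ * w) := by rw [mul_inv_cancel_left]
  have s := (Tight.split hq (a := dir H w) (b := (dir H w)⁻¹ * w) (by rw [← e]; omega)
    (by rw [← e]; exact h)).2.2
  conv_lhs => rw [e]
  rw [map_mul] at s ⊢
  refine dir_mul ?_ s
  rw [h3, map_mul, ln_mul_left (ln_map_zero q hq h1), ln_map_lt]
  exact hp _ h2

lemma Tight.le {w : FreeGroup E} (h : Tight H H' q w) {j : E} (hj : j ∈ H) (hc : 0 < cnt j w) :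
    ln H' (q (of j)) ≤ ln H' (q w) := by
  rw [h]
  exact (Nat.le_mul_of_pos_left _ hc).trans (Finset.single_le_sum
    (f := fun j => cnt j w * ln H' (q (of j))) (fun _ _ => Nat.zero_le _) hj)

/-- Entrywise form of tightness. -/
lemma Tight.cnt_eq (hq : ∀ e, e ∉ H → ln H' (q (of e)) = 0) {w : FreeGroup E}
    (h : Tight H H' q w) {i : E'} (hi : i ∈ H') :
    cnt i (q w) = ∑ j ∈ H, cnt j w * cnt i (q (of j)) := by
  refine eq_of_sum_le (f := fun i => cnt i (q w))
    (g := fun i => ∑ j ∈ H, cnt j w * cnt i (q (of j)))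
    (fun i hi => cnt_map_le q (fun e he => ln_eq_zero.1 (hq e he) i hi) w) ?_ i hi
  rw [Finset.sum_comm]
  simp only [← Finset.mul_sum]
  exact h.ge

lemma tight_of_cnt {w : FreeGroup E}
    (h : ∀ i ∈ H', cnt i (q w) = ∑ j ∈ H, cnt j w * cnt i (q (of j))) : Tight H H' q w := by
  unfold Tight ln
  rw [Finset.sum_congr rfl h, Finset.sum_comm]
  simp only [Finset.mul_sum]

end Pool.Agent.P.MP_67c9d4_al.PG
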